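import Pool.Agent.Lib.MP_21ae8a_lc.Torus

/-!
Anti-concentration of multilinear polynomials in independent signed cosines.
-/

set_option autoImplicit false
set_option linter.unusedSectionVars false

namespace Pool.Agent.Lib.MP_21ae8a_lc

open Finset
open scoped BigOperators

theorem markov {ι : Type} [Fintype ι] {w : ι → ℝ} (hw : ∀ x, 0 ≤ w x) {v a : ℝ}
    (hv : 𝔼 x, w x ≤ v) (ha : 0 < a) : 𝔼 x, (if a * v < w x then (1 : ℝ) else 0) ≤ 1 / a := by
  have h0 : 0 ≤ 𝔼 x, w x := expect_nonneg fun x _ => hw x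
  rcases (h0.trans hv).eq_or_lt with h | h
  · have := (expect_eq_zero_iff_of_nonneg fun x _ => hw x).1 (le_antisymm (h ▸ hv) h0)
    rw [expect_eq_zero fun x hx => if_neg (by rw [this x hx, ← h]; simp)]
    positivity
  · calc _ ≤ 𝔼 x, 1 / (a * v) * w x := by
          refine expect_le_expect fun x _ => ?_
          split_ifs with hx
          · rw [one_div_mul_eq_div, one_le_div (by positivity)]
            exact hx.le
          · exact mul_nonneg (by positivity) (hw x)
      _ ≤ 1 / (a * v) * v := by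
          rw [← mul_expect]
          exact mul_le_mul_of_nonneg_left hv (by positivity)
      _ = _ := by field_simp

variable {J : Type} [Fintype J] [DecidableEq J] {K : ℕ} [NeZero K]

theorem expect_sq_inj {ι : Type} [DecidableEq ι] (s : Finset ι) (u : ι → ℝ) {φ : ι → Finset J}
    (hφ : Function.Injective φ) :
    𝔼 x, (∑ a ∈ s, u a * chi (φ a) x) ^ 2 = ∑ a ∈ s, u a ^ 2 := by
  have : ∀ x, (∑ a ∈ s, u a * chi (φ a) x) ^ 2 =
      ∑ a ∈ s, ∑ b ∈ s, u a * u b * (chi (φ a) x * chi (φ b) x) := fun x => by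
    rw [sq, sum_mul_sum]
    exact sum_congr rfl fun S _ => sum_congr rfl fun T _ => by ring
  simp only [this, expect_sum_comm, ← mul_expect, expect_chi_mul, mul_ite, mul_one, mul_zero,
    hφ.eq_iff, sum_ite_eq]
  exact sum_congr rfl fun a ha => by rw [if_pos ha, sq]

theorem expect_coord {κ : Type} [Fintype κ] [Nonempty κ] (j : J) (g : κ → ℝ) :
    𝔼 θ : J → κ, g (θ j) = 𝔼 t, g t := by
  rw [← expect_update j]
  simp only [Function.update_self, Fintype.expect_const]

/-- Sines on `β`, cosines elsewhere. -/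
noncomputable def Zb (β : Finset J) (θ : J → ZMod K) (j : J) : ℝ :=
  if j ∈ β then YY (θ j) else XX (θ j)

/-- Mixed angular derivatives. -/
noncomputable def Fb (c : Finset J → ℝ) (β : Finset J) (θ : J → ZMod K) : ℝ :=
  ∑ α, (if β ⊆ α then c α else 0) * ∏ j ∈ α, Zb β θ j

/-- One more derivative. -/
noncomputable def Mb (c : Finset J → ℝ) (β : Finset J) (i : J) (θ : J → ZMod K) : ℝ :=
  ∑ α, (if β ⊆ α then c α else 0) * if i ∈ α then
    (if i ∈ β then -XX (θ i) else YY (θ i)) * ∏ j ∈ α.erase i, Zb β θ j else 0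

/-- The squared size of the derivatives of order `k`. -/
noncomputable def Nk (c : Finset J → ℝ) (k : ℕ) (θ : J → ZMod K) : ℝ :=
  ∑ β : Finset J with #β = k, Fb c β θ ^ 2

/-- A line on the torus. -/
def ln (s : J → Bool) (θ : J → ZMod K) (t : ZMod K) : J → ZMod K := fun j => mv (s j) (θ j) t

theorem expect_ln (s : J → Bool) (F : (J → ZMod K) → ℝ) :
    𝔼 θ, 𝔼 t, F (ln s θ t) = 𝔼 θ, F θ := by
  rw [expect_comm, ← Fintype.expect_const (ι := ZMod K) (𝔼 θ, F θ)]
  refine expect_congr rfl fun t _ => Fintype.expect_bijective (fun θ => ln s θ t)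
    (Function.bijective_iff_has_inverse.2 ⟨fun θ => ln (fun j => !s j) θ t, fun θ => ?_,
      fun θ => ?_⟩) _ _ fun _ => rfl <;> funext j <;> cases h : s j <;> simp [ln, mv, h]

theorem TP.fb {D : ℕ} {c : Finset J → ℝ} (hc : ∀ α, D < #α → c α = 0) (β : Finset J)
    (s : J → Bool) (θ : J → ZMod K) :
    TP D (fun t => Fb c β (ln s θ t)) fun t => ∑ i, sg (s i) * Mb c β i (ln s θ t) := by
  have h1 : ∀ i, TP 1 (fun t => Zb β (ln s θ t) i)
      fun t => sg (s i) * if i ∈ β then -XX (ln s θ t i) else YY (ln s θ t i) := fun i => by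
    by_cases h : i ∈ β
    · simpa only [Zb, if_pos h, ln] using TP.yy (s i) (θ i)
    · simpa only [Zb, if_neg h, ln] using TP.xx (s i) (θ i)
  have h2 : ∀ α : Finset J, TP D (fun t => (if β ⊆ α then c α else 0) * ∏ j ∈ α, Zb β (ln s θ t) j)
      fun t => (if β ⊆ α then c α else 0) * ∑ i ∈ α, (sg (s i) *
        if i ∈ β then -XX (ln s θ t i) else YY (ln s θ t i)) *
          ∏ j ∈ α.erase i, Zb β (ln s θ t) j := fun α => by
    by_cases h : #α ≤ D
    · exact ((TP.prod α h1).mono h).cmul _
    · simpa only [hc α (not_le.1 h), ite_self, zero_mul] using TP.const D 0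
  refine (TP.sum univ fun α _ => h2 α).congr (fun _ => rfl) fun t => ?_
  simp only [Mb, mul_sum]
  rw [sum_comm]
  refine sum_congr rfl fun α _ => ?_
  rw [← sum_subset (subset_univ α) fun i _ hi => by rw [if_neg hi, mul_zero, mul_zero]]
  exact sum_congr rfl fun i hi => by rw [if_pos hi]; ring

theorem Mb_eq (c : Finset J → ℝ) {β : Finset J} {i : J} (hi : i ∉ β) (θ : J → ZMod K) :
    Mb c β i θ = Fb c (insert i β) θ := by
  refine sum_congr rfl fun α _ => ?_
  by_cases h : i ∈ α
  · simp only [insert_subset_iff, h, true_and, if_true, if_neg hi]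
    rw [← mul_prod_erase α _ h, Zb, if_pos (mem_insert_self _ _)]
    congr 2
    exact prod_congr rfl fun j hj => by simp only [Zb, mem_insert, ne_of_mem_erase hj, false_or]
  · simp [insert_subset_iff, h]

theorem Nk_succ_le (c : Finset J → ℝ) (k : ℕ) (θ : J → ZMod K) :
    Nk c (k + 1) θ ≤ ∑ β : Finset J with #β = k, ∑ i, Mb c β i θ ^ 2 := by
  calc _ ≤ ∑ β : Finset J with #β = k + 1, ∑ i, if i ∈ β then Fb c β θ ^ 2 else 0 := by
        refine sum_le_sum fun β hβ => ?_
        obtain ⟨i, hi⟩ := card_pos.1 (show 0 < #β by rw [(mem_filter.1 hβ).2]; omega)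
        refine le_trans ?_ (single_le_sum (f := fun i => if i ∈ β then Fb c β θ ^ 2 else 0)
          (fun _ _ => by positivity) (mem_univ i))
        rw [if_pos hi]
    _ ≤ _ := by
        rw [sum_comm, sum_comm (t := univ)]
        refine sum_le_sum fun i _ => ?_
        rw [← sum_filter]
        refine le_trans (le_of_eq ?_) (sum_le_sum_of_subset_of_nonneg
          (filter_subset (fun β => i ∉ β) _) fun _ _ _ => sq_nonneg _)
        refine sum_nbij' (fun β => β.erase i) (fun β => insert i β) (fun β h => ?_) (fun β h => ?_)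
          (fun β h => ?_) (fun β h => ?_) fun β h => ?_ <;>
          simp only [mem_filter, mem_univ, true_and] at h ⊢
        · exact ⟨by rw [card_erase_of_mem h.2, h.1]; rfl, notMem_erase _ _⟩
        · exact ⟨by rw [card_insert_of_notMem h.2, h.1], mem_insert_self _ _⟩
        · exact insert_erase h.2
        · exact erase_insert h.2
        · rw [Mb_eq c (notMem_erase _ _), insert_erase h.2]

theorem Nk_nonneg (c : Finset J → ℝ) (k : ℕ) (θ : J → ZMod K) : 0 ≤ Nk c k θ :=
  sum_nonneg fun _ _ => sq_nonneg _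

section
variable {D : ℕ} (hD : 1 ≤ D) {ε : ℝ} (hε : 0 < ε) (hK : 1 ≤ ε * K)
include hD hε hK

theorem step {c : Finset J → ℝ} (hc : ∀ α, D < #α → c α = 0) (k : ℕ) :
    𝔼 θ : J → ZMod K, (if 36 ^ 2 * Nk c k θ < ε ^ 2 * Nk c (k + 1) θ then (1 : ℝ) else 0) ≤
      3240 * D ^ 2 * ε := by
  let h : (J ⊕ Finset J → Bool) → (J → ZMod K) → ℝ := fun ω θ =>
    ∑ β : Finset J with #β = k, sg (ω (.inr β)) * Fb c β θ
  let h' : (J ⊕ Finset J → Bool) → (J → ZMod K) → ℝ := fun ω θ =>
    ∑ β : Finset J with #β = k, sg (ω (.inr β)) * ∑ i, sg (ω (.inl i)) * Mb c β i θ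
  have h1 : ∀ ω, 𝔼 θ, (if |h ω θ| < ε * |h' ω θ| then (1 : ℝ) else 0) ≤ 10 * D ^ 2 * ε := fun ω => by
    rw [← expect_ln fun i => ω (.inl i)]
    exact expect_le univ_nonempty fun θ _ =>
      (TP.sum _ fun β _ => (TP.fb hc β _ θ).cmul _).prob hD hε hK
  have h2 : ∀ θ, (if 36 ^ 2 * Nk c k θ < ε ^ 2 * Nk c (k + 1) θ then (1 : ℝ) else 0) ≤
      324 * 𝔼 ω, if |h ω θ| < ε * |h' ω θ| then (1 : ℝ) else 0 := fun θ => by
    split_ifs with hb
    swap
    · exact mul_nonneg (by norm_num) (expect_nonneg fun _ _ => by split_ifs <;> norm_num)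
    obtain ⟨A, hA⟩ : ∃ A, A = ∑ β : Finset J with #β = k, ∑ i, Mb c β i θ ^ 2 := ⟨_, rfl⟩
    have hA1 : 36 ^ 2 * Nk c k θ < ε ^ 2 * A :=
      hb.trans_le (mul_le_mul_of_nonneg_left (hA ▸ Nk_succ_le c k θ) (sq_nonneg _))
    have hN := Nk_nonneg c k θ
    have hA0 : 0 < A := by
      by_contra h0
      nlinarith [sq_nonneg ε]
    have e1 : 𝔼 ω, h ω θ ^ 2 = Nk c k θ := by
      rw [Nk, ← expect_sq_inj (φ := fun β : Finset J => ({Sum.inr β} : Finset (J ⊕ Finset J))) _ _
        fun β β' h => by simpa using h]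
      refine expect_congr rfl fun ω _ => ?_
      simp only [h, chi, prod_singleton, mul_comm]
    have e0 : ∀ ω, h' ω θ = ∑ p ∈ ({β : Finset J | #β = k} : Finset _) ×ˢ (univ : Finset J),
        Mb c p.1 p.2 θ * chi ({Sum.inr p.1, Sum.inl p.2} : Finset (J ⊕ Finset J)) ω := fun ω => by
      rw [sum_product]
      refine sum_congr rfl fun β _ => ?_
      rw [mul_sum]
      refine sum_congr rfl fun i _ => ?_
      rw [chi, prod_pair (by simp)]
      ring
    have e2 : 𝔼 ω, h' ω θ ^ 2 = A := by
      simp only [e0]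
      rw [expect_sq_inj, sum_product, hA]
      intro p q hpq
      have a1 : Sum.inr p.1 ∈ ({Sum.inr q.1, Sum.inl q.2} : Finset (J ⊕ Finset J)) :=
        (Finset.ext_iff.1 hpq _).1 (by simp)
      have a2 : Sum.inl p.2 ∈ ({Sum.inr q.1, Sum.inl q.2} : Finset (J ⊕ Finset J)) :=
        (Finset.ext_iff.1 hpq _).1 (by simp)
      exact Prod.ext (by simpa using a1) (by simpa using a2)
    have e3 : LD 2 fun ω => h' ω θ := by
      simp only [e0]
      exact LD.sum _ fun p _ => (LD.chi card_le_two).cmul _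
    have p1 := e3.paley e2 hA0
    have p2 := markov (fun ω => sq_nonneg (h ω θ)) e1.le (show (0 : ℝ) < 324 by norm_num)
    have p3 : 𝔼 _ω : J ⊕ Finset J → Bool, (1 : ℝ) ≤
        𝔼 ω, ((if h' ω θ ^ 2 < A / 4 then (1 : ℝ) else 0) +
          (if 324 * Nk c k θ < h ω θ ^ 2 then (1 : ℝ) else 0) +
          if |h ω θ| < ε * |h' ω θ| then (1 : ℝ) else 0) := by
      refine expect_le_expect fun ω _ => ?_
      split_ifs with c1 c2 c3 c3 c2 c3 c3 <;> try norm_num
      refine c3 (abs_lt_of_sq_lt_sq' ?_ (by positivity)).2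
      rw [mul_pow, sq_abs, sq_abs]
      nlinarith [mul_le_mul_of_nonneg_left (not_lt.1 c1) (sq_nonneg ε)]
    rw [Fintype.expect_const, expect_add_distrib, expect_add_distrib] at p3
    norm_num at p1
    linarith
  refine (expect_le_expect fun θ _ => h2 θ).trans ?_
  rw [← mul_expect, expect_comm]
  have := expect_le univ_nonempty fun ω _ => h1 ω
  linarith

theorem chain {c : Finset J → ℝ} (hc : ∀ α, D < #α → c α = 0) (k : ℕ) :
    𝔼 θ : J → ZMod K, (if 36 ^ (2 * k) * Fb c ∅ θ ^ 2 < ε ^ (2 * k) * Nk c k θ then (1 : ℝ) else 0) ≤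
      k * (3240 * D ^ 2 * ε) := by
  induction k with
  | zero =>
    have : ∀ θ : J → ZMod K, Nk c 0 θ = Fb c ∅ θ ^ 2 := fun θ => by
      rw [Nk, show ({β : Finset J | #β = 0} : Finset _) = {∅} by ext; simp, sum_singleton]
    simp [this]
  | succ k ih =>
    have := step hD hε hK hc k
    refine le_trans ?_ ((add_le_add ih this).trans (le_of_eq (by push_cast; ring)))
    rw [← expect_add_distrib]
    refine expect_le_expect fun θ _ => ?_
    split_ifs with c1 c2 c3 c3 <;> try norm_num
    have a1 := mul_le_mul_of_nonneg_left (not_lt.1 c2) (show (0 : ℝ) ≤ 36 ^ 2 by norm_num)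
    have a2 := mul_le_mul_of_nonneg_left (not_lt.1 c3) (show 0 ≤ ε ^ (2 * k) by positivity)
    rw [mul_add, pow_add, pow_add, mul_one] at c1
    nlinarith

theorem anti_torus {c : Finset J → ℝ} (hc : ∀ α, D < #α → c α = 0) :
    𝔼 b : J → Bool, 𝔼 θ : J → ZMod K, (if Fb (fun α => c α * chi α b) ∅ θ ^ 2 <
      (ε / 36) ^ (5 * D) * ∑ α, (if α = ∅ then 0 else c α ^ 2) then (1 : ℝ) else 0) ≤
      3300 * D ^ 3 * ε := by
  have hD1 : (1 : ℝ) ≤ D := by exact_mod_cast hD
  have hD3 : (D : ℝ) ≤ D ^ 3 := le_self_pow₀ hD1 (by norm_num)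
  have hD2 : (D : ℝ) ^ 2 ≤ D ^ 3 := pow_le_pow_right₀ hD1 (by norm_num)
  by_cases hs : 1 ≤ 2 * D * ε
  · refine (expect_le (a := (1 : ℝ)) univ_nonempty fun _ _ => expect_le univ_nonempty fun _ _ => by
      split_ifs <;> norm_num).trans ?_
    nlinarith
  have hε1 : ε ≤ 1 := by nlinarith
  obtain ⟨W, hW⟩ : ∃ W : ℕ → ℝ, ∀ j, W j = ∑ α : Finset J with #α = j, c α ^ 2 := ⟨_, fun _ => rfl⟩
  have hW0 : ∀ j, 0 ≤ W j := fun j => by rw [hW]; exact sum_nonneg fun _ _ => sq_nonneg _
  have fib : ∀ f : ℕ → ℝ, f 0 = 0 → ∑ α : Finset J, f #α * c α ^ 2 = ∑ j ∈ Icc 1 D, f j * W j := by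
    intro f hf
    simp only [hW, mul_sum, sum_filter]
    rw [sum_comm]
    refine sum_congr rfl fun α _ => ?_
    simp only [mul_ite, mul_zero]
    rw [sum_ite_eq]
    split_ifs with h
    · rfl
    · rw [mem_Icc, not_and_or] at h
      rcases h with h | h
      · rw [show #α = 0 by omega, hf, zero_mul]
      · simp [hc α (not_le.1 h)]
  obtain ⟨k, hk, hmax⟩ := exists_max_image (Icc 1 D) (fun j => W j / ε ^ j) ⟨1, by simp [hD]⟩
  have hkD := (mem_Icc.1 hk).2
  have hv : ε ^ D * ∑ α, (if α = ∅ then 0 else c α ^ 2) ≤ D * W k := by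
    have := fib (fun j => if j = 0 then 0 else 1) (by simp)
    simp only [card_eq_zero, ite_mul, zero_mul, one_mul] at this
    rw [this, mul_sum]
    refine (sum_le_card_nsmul _ _ (W k) fun j hj => ?_).trans (by simp)
    rw [if_neg (by have := (mem_Icc.1 hj).1; omega)]
    have h1 := hmax j hj
    rw [div_le_div_iff₀ (by positivity) (by positivity)] at h1
    have h2 : ε ^ D ≤ ε ^ k := pow_le_pow_of_le_one hε.le hε1 hkD
    have h3 : ε ^ j ≤ 1 := pow_le_one₀ hε.le hε1
    nlinarith [hW0 j, hW0 k]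
  let R : Finset J → (J → Bool) → (J → ZMod K) → ℝ := fun β b θ =>
    ∑ α, (if β ⊂ α then c α * ∏ j ∈ α \ β, XX (θ j) else 0) * chi α b
  let B : (J → ZMod K) → ℝ := fun θ =>
    ∑ β : Finset J with #β = k, if ∃ j ∈ β, YY (θ j) ^ 2 < ε ^ 2 then c β ^ 2 else 0
  have hF : ∀ β b θ, Fb (fun α => c α * chi α b) β θ =
      (∏ j ∈ β, YY (θ j)) * (c β * chi β b + R β b θ) := fun β b θ => by
    have : c β * chi β b = ∑ α, if β = α then c α * chi α b else 0 := by simp
    rw [this, ← sum_add_distrib, mul_sum]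
    refine sum_congr rfl fun α _ => ?_
    by_cases h : β ⊆ α
    · have e : ∏ j ∈ α, Zb β θ j = (∏ j ∈ α \ β, XX (θ j)) * ∏ j ∈ β, YY (θ j) := by
        rw [← prod_sdiff h]
        congr 1
        · exact prod_congr rfl fun j hj => if_neg (mem_sdiff.1 hj).2
        · exact prod_congr rfl fun j hj => if_pos hj
      rw [if_pos h, e]
      by_cases h' : β = α
      · subst h'
        simp
        ring
      · rw [if_neg h', if_pos (Finset.ssubset_iff_subset_ne.2 ⟨h, h'⟩)]
        ring
    · rw [if_neg h, if_neg fun h' : β = α => h h'.subset, if_neg fun h' : β ⊂ α => h h'.subset]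
      simp
  have hN : ∀ b θ, ε ^ (2 * k) * ((W k - B θ) / 2 - ∑ β : Finset J with #β = k, R β b θ ^ 2) ≤
      Nk (fun α => c α * chi α b) k θ := fun b θ => by
    rw [hW, ← sum_sub_distrib, sum_div, ← sum_sub_distrib, mul_sum]
    refine sum_le_sum fun β hβ => ?_
    rw [hF]
    split_ifs with h
    · refine le_trans (mul_nonpos_of_nonneg_of_nonpos (by positivity) ?_) (sq_nonneg _)
      nlinarith [sq_nonneg (R β b θ)]
    · push Not at h
      have h1 : ε ^ (2 * k) ≤ (∏ j ∈ β, YY (θ j)) ^ 2 := by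
        rw [← prod_pow, pow_mul, ← (mem_filter.1 hβ).2, ← prod_const]
        exact prod_le_prod (fun _ _ => sq_nonneg _) h
      have h2 : chi β b * chi β b = 1 := by rw [chi_mul]; simp [chi]
      have h3 : (c β ^ 2 - 0) / 2 - R β b θ ^ 2 ≤ (c β * chi β b + R β b θ) ^ 2 := by
        nlinarith [sq_nonneg (c β * chi β b + 2 * R β b θ)]
      rw [mul_pow]
      exact (mul_le_mul_of_nonneg_left h3 (by positivity)).trans
        (mul_le_mul_of_nonneg_right h1 (sq_nonneg _))
  have hB : 𝔼 θ, B θ ≤ 10 * D * ε * W k := by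
    rw [expect_sum_comm, hW, mul_sum]
    refine sum_le_sum fun β hβ => ?_
    calc _ ≤ 𝔼 θ : J → ZMod K, c β ^ 2 * ∑ j ∈ β, if YY (θ j) ^ 2 < ε ^ 2 then (1 : ℝ) else 0 := by
          refine expect_le_expect fun θ _ => ?_
          split_ifs with h
          · obtain ⟨j, hj, h⟩ := h
            refine le_mul_of_one_le_right (sq_nonneg _) (le_trans ?_ (single_le_sum
              (f := fun j => if YY (θ j) ^ 2 < ε ^ 2 then (1 : ℝ) else 0)
              (fun _ _ => by positivity) hj))
            rw [if_pos h]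
          · positivity
      _ ≤ c β ^ 2 * (D * (10 * ε)) := by
          rw [← mul_expect, expect_sum_comm]
          refine mul_le_mul_of_nonneg_left ((sum_le_card_nsmul _ _ (10 * ε) fun j _ => ?_).trans ?_)
            (sq_nonneg _)
          · rw [expect_coord j fun t : ZMod K => if YY t ^ 2 < ε ^ 2 then (1 : ℝ) else 0]
            exact prob_YY hε hK
          · rw [nsmul_eq_mul, (mem_filter.1 hβ).2]
            exact mul_le_mul_of_nonneg_right (by exact_mod_cast hkD) (by positivity)
      _ = _ := by ring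
  have hR : ∀ θ, 𝔼 b, ∑ β : Finset J with #β = k, R β b θ ^ 2 ≤ 2 * D ^ 2 * ε * W k := fun θ => by
    simp only [expect_sum_comm, R, expect_sq]
    rw [sum_comm]
    calc _ ≤ ∑ α : Finset J, (if k < #α then (2 * D : ℝ) ^ (#α - k) else 0) * c α ^ 2 := by
          refine sum_le_sum fun α _ => ?_
          by_cases hα : D < #α
          · simp [hc α hα]
          calc _ ≤ ∑ β : Finset J with #β = k, if β ⊂ α then 2 ^ (#α - k) * c α ^ 2 else 0 := by
                refine sum_le_sum fun β hβ => ?_
                split_ifs with h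
                · rw [mul_pow, mul_comm, ← prod_pow, ← (mem_filter.1 hβ).2,
                    ← card_sdiff_of_subset h.subset, ← prod_const]
                  exact mul_le_mul_of_nonneg_right
                    (prod_le_prod (fun _ _ => sq_nonneg _) fun _ _ => XX_sq_le _) (sq_nonneg _)
                · simp
            _ ≤ _ := by
                rw [← sum_filter, sum_const, nsmul_eq_mul, ← mul_assoc]
                refine mul_le_mul_of_nonneg_right ?_ (sq_nonneg _)
                split_ifs with h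
                · rw [mul_pow, mul_comm]
                  refine mul_le_mul_of_nonneg_left ?_ (by positivity)
                  have h1 : #{β ∈ ({β : Finset J | #β = k} : Finset _) | β ⊂ α} ≤ D ^ (#α - k) := by
                    refine (card_le_card (t := powersetCard k α) fun β hβ => ?_).trans ?_
                    · simp only [mem_filter, mem_univ, true_and] at hβ
                      exact mem_powersetCard.2 ⟨hβ.2.subset, hβ.1⟩
                    · rw [card_powersetCard, ← Nat.choose_symm h.le]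
                      exact (Nat.choose_le_pow _ _).trans (Nat.pow_le_pow_left (not_lt.1 hα) _)
                  exact_mod_cast h1
                · rw [filter_eq_empty_iff.2 fun β hβ h' => h (by
                    rw [← (mem_filter.1 hβ).2]; exact card_lt_card h')]
                  simp
      _ ≤ _ := by
          rw [fib (fun j => if k < j then (2 * D : ℝ) ^ (j - k) else 0) (by simp)]
          refine (sum_le_card_nsmul _ _ (2 * D * ε * W k) fun j hj => ?_).trans
            (le_of_eq (by simp; ring))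
          split_ifs with h
          · have h1 := hmax j hj
            rw [div_le_div_iff₀ (by positivity) (by positivity),
              show j = k + (j - k) by omega, pow_add, ← mul_assoc, mul_right_comm,
              ← show j = k + (j - k) by omega] at h1
            have h2 := le_of_mul_le_mul_right h1 (by positivity)
            have h3 : (2 * D * ε) ^ (j - k) ≤ 2 * D * ε :=
              pow_le_of_le_one (by positivity) (not_le.1 hs).le (by omega)
            calc _ ≤ (2 * D : ℝ) ^ (j - k) * (W k * ε ^ (j - k)) :=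
                  mul_le_mul_of_nonneg_left h2 (by positivity)
              _ = (2 * D * ε) ^ (j - k) * W k := by rw [mul_pow _ ε]; ring
              _ ≤ _ := mul_le_mul_of_nonneg_right h3 (hW0 k)
          · rw [zero_mul]
            exact mul_nonneg (by positivity) (hW0 k)
  have p1 := markov (fun θ => sum_nonneg fun _ _ => by positivity) hB
    (show 0 < 1 / (20 * D * ε) by positivity)
  have p2 := fun θ => markov (fun b => sum_nonneg fun _ _ => sq_nonneg _) (hR θ)
    (show 0 < 1 / (16 * D ^ 2 * ε) by positivity)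
  have e1 : 1 / (20 * D * ε) * (10 * D * ε * W k) = W k / 2 := by field_simp; ring
  have e2 : 1 / (16 * D ^ 2 * ε) * (2 * D ^ 2 * ε * W k) = W k / 8 := by field_simp; ring
  rw [e1, one_div_one_div] at p1
  simp only [e2, one_div_one_div] at p2
  have p3 := fun b : J → Bool => chain (K := K) hD hε hK (c := fun α => c α * chi α b)
    (fun α h => by simp only [hc α h, zero_mul]) k
  have p4 := expect_le univ_nonempty fun θ _ => p2 θ
  have p5 := expect_le univ_nonempty fun b _ => p3 b
  rw [expect_comm] at p4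
  rw [← Fintype.expect_const (ι := J → Bool) (𝔼 θ, _)] at p1
  have hk1 : (k : ℝ) * (3240 * D ^ 2 * ε) ≤ D * (3240 * D ^ 2 * ε) :=
    mul_le_mul_of_nonneg_right (by exact_mod_cast hkD) (by positivity)
  refine le_trans ?_ ((add_le_add (add_le_add p1 p4) p5).trans (by nlinarith))
  simp only [← expect_add_distrib]
  refine expect_le_expect fun b _ => expect_le_expect fun θ _ => ?_
  split_ifs with c0 c1 c2 c3 c3 c2 c3 c3 <;> try norm_num
  have a1 := (hN b θ).trans' (mul_le_mul_of_nonneg_left
    (show W k / 8 ≤ (W k - B θ) / 2 - ∑ β : Finset J with #β = k, R β b θ ^ 2 by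
      linarith [not_lt.1 c1, not_lt.1 c2]) (by positivity))
  have a2 := (mul_le_mul_of_nonneg_left a1 (show 0 ≤ ε ^ (2 * k) by positivity)).trans (not_lt.1 c3)
  have a3 : ε ^ (4 * D) ≤ ε ^ (2 * k) * ε ^ (2 * k) := by
    rw [← pow_add]
    exact pow_le_pow_of_le_one hε.le hε1 (by omega)
  have a4 : (36 : ℝ) ^ (2 * k) * (8 * D) ≤ 36 ^ (5 * D) := by
    rw [show 5 * D = 2 * D + D + 2 * D by ring, pow_add, pow_add, mul_assoc]
    refine mul_le_mul (pow_le_pow_right₀ (by norm_num) (by omega)) (mul_le_mul ?_ ?_ ?_ ?_) ?_ ?_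
    · exact le_trans (by norm_num) (le_self_pow₀ (by norm_num) (by omega))
    · exact_mod_cast (Nat.lt_pow_self (by norm_num)).le.trans
        (Nat.pow_le_pow_right (by norm_num) (by omega))
    all_goals positivity
  generalize Fb (fun α => c α * chi α b) ∅ θ ^ 2 = F at c0 a2
  generalize (∑ α, if α = ∅ then 0 else c α ^ 2) = v at c0 hv
  rw [div_pow, div_mul_eq_mul_div, lt_div_iff₀ (by positivity),
    show 5 * D = 4 * D + D by ring, pow_add ε, mul_assoc, ← show 5 * D = 4 * D + D by ring] at c0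
  have a5 := c0.trans_le (mul_le_mul_of_nonneg_left hv (by positivity))
  have a6 : ε ^ (4 * D) * (W k / 8) ≤ 36 ^ (2 * k) * F := by
    refine le_trans ?_ a2
    rw [← mul_assoc]
    exact mul_le_mul_of_nonneg_right a3 (by linarith [hW0 k])
  have a7 : 0 ≤ F := by
    have : 0 ≤ ε ^ (4 * D) * (W k / 8) := mul_nonneg (by positivity) (by linarith [hW0 k])
    exact nonneg_of_mul_nonneg_right (this.trans a6) (by positivity)
  have a8 := mul_le_mul_of_nonneg_left a6 (show (0 : ℝ) ≤ 8 * D by positivity)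
  nlinarith [mul_le_mul_of_nonneg_left a4 a7]

end

end Pool.Agent.Lib.MP_21ae8a_lc
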