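import Pool.Agent.Lib.MP_21ae8a_lc.Walsh

/-!
Restrictions to the positions inside a random set of indices, planting, and averaging
identities.
-/

set_option autoImplicit false

namespace Pool.Agent.Lib.MP_21ae8a_lc

open Finset
open scoped BigOperators

variable {n : ℕ}

/-- Positions inside a set of indices. -/
def E (W : Finset (Fin n)) : Finset (Pos n) := univ.filter fun e => e.1.1 ∈ W ∧ e.1.2 ∈ W

/-- Take `y` inside `U` and `x` elsewhere. -/
def mg (U : Finset (Fin n)) (x y : Pos n → Bool) : Pos n → Bool :=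
  fun e => if e ∈ E U then y e else x e

/-- Plant the all-ones corner on `S`. -/
def plant (S : Finset (Fin n)) (y : Pos n → Bool) : Pos n → Bool := mg S y fun _ => true

theorem mem_E {W : Finset (Fin n)} {e : Pos n} : e ∈ E W ↔ e.1.1 ∈ W ∧ e.1.2 ∈ W := by
  simp [E]

theorem E_mono {W W' : Finset (Fin n)} (h : W ⊆ W') : E W ⊆ E W' := fun _ he =>
  mem_E.2 ⟨h (mem_E.1 he).1, h (mem_E.1 he).2⟩

theorem E_empty : E (∅ : Finset (Fin n)) = ∅ := by
  ext e; simp [mem_E]

theorem card_E_le (W : Finset (Fin n)) : #(E W) ≤ #W ^ 2 := by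
  rw [sq, ← card_product]
  exact card_le_card_of_injOn (fun e => e.1) (fun e he => mem_product.2 (mem_E.1 he))
    fun _ _ _ _ h => Subtype.ext h

theorem card_E_le_choose (W : Finset (Fin n)) : #(E W) ≤ (#W).choose 2 := by
  rw [← card_powersetCard]
  refine card_le_card_of_injOn (fun e => {e.1.1, e.1.2}) (fun e he => ?_) fun e _ e' _ h => ?_
  · exact mem_coe.2 (mem_powersetCard.2 ⟨insert_subset (mem_E.1 he).1
      (singleton_subset_iff.2 (mem_E.1 he).2), card_pair e.2.ne⟩)
  · have h1 := e.2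
    have h2 := e'.2
    have h3 : e.1.1 ∈ ({e'.1.1, e'.1.2} : Finset _) := (Finset.ext_iff.1 h _).1 (by simp)
    have h4 : e.1.2 ∈ ({e'.1.1, e'.1.2} : Finset _) := (Finset.ext_iff.1 h _).1 (by simp)
    have h5 : e'.1.1 ∈ ({e.1.1, e.1.2} : Finset _) := (Finset.ext_iff.1 h _).2 (by simp)
    simp only [mem_insert, mem_singleton] at h3 h4 h5
    refine Subtype.ext (Prod.ext ?_ ?_) <;> omega

theorem expect_mg (U : Finset (Fin n)) (F : (Pos n → Bool) → ℝ) :
    𝔼 x, 𝔼 y, F (mg U x y) = 𝔼 y, F y := by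
  have h : Function.Involutive fun p : (Pos n → Bool) × (Pos n → Bool) =>
      (mg U p.1 p.2, mg U p.2 p.1) := fun p => by
    refine Prod.ext (funext fun e => ?_) (funext fun e => ?_) <;>
      by_cases he : e ∈ E U <;> simp [mg, he]
  have := Fintype.expect_bijective _ h.bijective (fun p => F (mg U p.1 p.2)) (fun p => F p.1)
    fun _ => rfl
  rw [← univ_product_univ, expect_product, expect_product] at this
  simpa only [Fintype.expect_const] using this

theorem mg_mg {U U' : Finset (Fin n)} (h : U ⊆ U') (x x' y : Pos n → Bool) :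
    mg U' x (mg U x' y) = mg U (mg U' x x') y := by
  funext e
  by_cases he : e ∈ E U
  · simp [mg, he, E_mono h he]
  · simp [mg, he]

theorem plant_mg {S U : Finset (Fin n)} (h : S ⊆ U) (x y : Pos n → Bool) :
    plant S (mg U x y) = mg U x (plant S y) := (mg_mg h _ _ _).symm

theorem chi_mg (U : Finset (Fin n)) (A : Finset (Pos n)) (x y : Pos n → Bool) :
    chi A (mg U x y) = chi (A \ E U) x * chi (A ∩ E U) y := by
  have : chi A (mg U x y) = chi (A \ E U) (mg U x y) * chi (A ∩ E U) (mg U x y) := by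
    rw [chi, chi, chi, ← prod_union (disjoint_sdiff_inter A (E U)), sdiff_union_inter]
  rw [this]
  congr 1
  · exact prod_congr rfl fun e he => by rw [mg, if_neg (mem_sdiff.1 he).2]
  · exact prod_congr rfl fun e he => by rw [mg, if_pos (mem_inter.1 he).2]

theorem LD.mg {D : ℕ} {f : (Pos n → Bool) → ℝ} (hf : LD D f) (U : Finset (Fin n))
    (x : Pos n → Bool) : LD D fun y => f (mg U x y) := by
  obtain ⟨a, ha, hfa⟩ := hf.coeff
  simp only [hfa, chi_mg, ← mul_assoc]
  refine LD.sum _ fun A _ => ?_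
  by_cases h : #A ≤ D
  · exact (LD.chi ((card_le_card inter_subset_left).trans h)).cmul _
  · simpa [ha A (not_le.1 h)] using LD.const (J := Pos n) D 0

theorem expect_chi_plant (S : Finset (Fin n)) (A : Finset (Pos n)) :
    𝔼 y, chi A (plant S y) = if A ⊆ E S then 1 else 0 := by
  have : ∀ y, chi A (plant S y) = chi (A \ E S) y := fun y => by
    rw [plant, chi_mg]
    simp [chi, sg]
  simp only [this, expect_chi, sdiff_eq_empty_iff_subset]

theorem expect_subsets {α : Type} [DecidableEq α] {T : Finset α} {m u : ℕ} (hmu : m ≤ u)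
    (hu : u ≤ #T) (F : Finset α → ℝ) :
    𝔼 U ∈ powersetCard u T, 𝔼 S ∈ powersetCard m U, F S = 𝔼 S ∈ powersetCard m T, F S := by
  have h1 : ∀ U ∈ powersetCard u T, 𝔼 S ∈ powersetCard m U, F S =
      (∑ S ∈ powersetCard m T, if S ⊆ U then F S else 0) / (u.choose m : ℝ) := fun U hU => by
    obtain ⟨hUT, hUu⟩ := mem_powersetCard.1 hU
    rw [expect_eq_sum_div_card, card_powersetCard, hUu, ← sum_filter]
    congr 1
    refine sum_congr ?_ fun _ _ => rfl
    ext S
    simp only [mem_powersetCard, mem_filter]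
    exact ⟨fun h => ⟨⟨h.1.trans hUT, h.2⟩, h.1⟩, fun h => ⟨h.2, h.1.2⟩⟩
  rw [expect_congr rfl h1, expect_eq_sum_div_card, expect_eq_sum_div_card, ← sum_div, sum_comm,
    card_powersetCard, card_powersetCard]
  have h2 : ∀ S ∈ powersetCard m T, (∑ U ∈ powersetCard u T, if S ⊆ U then F S else 0) =
      ((#T - m).choose (u - m) : ℝ) * F S := fun S hS => by
    obtain ⟨hST, hSm⟩ := mem_powersetCard.1 hS
    rw [← sum_filter, sum_const, card_filter_powersetCard_subset S T u hST (hSm ▸ hmu), hSm,
      nsmul_eq_mul]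
  rw [sum_congr rfl h2, ← mul_sum]
  have h3 : ((#T).choose u : ℝ) * u.choose m = (#T).choose m * (#T - m).choose (u - m) := by
    exact_mod_cast Nat.choose_mul hmu
  have h4 : (0 : ℝ) < (#T).choose u := by exact_mod_cast Nat.choose_pos hu
  have h5 : (0 : ℝ) < u.choose m := by exact_mod_cast Nat.choose_pos hmu
  have h6 : (0 : ℝ) < (#T).choose m := by exact_mod_cast Nat.choose_pos (hmu.trans hu)
  field_simp
  linear_combination (-∑ S ∈ powersetCard m T, F S) * h3

theorem choose_ratio {t m : ℕ} (hm : m ≤ t) : ∀ w, w ≤ m →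
    (t - w).choose (m - w) * t ^ w ≤ m ^ w * t.choose m := by
  intro w
  induction w with
  | zero => simp
  | succ w ih =>
    intro hw
    have h1 := ih (by omega)
    have h2 : (t - w) * (t - (w + 1)).choose (m - (w + 1)) = (t - w).choose (m - w) * (m - w) := by
      have := Nat.add_one_mul_choose_eq (t - (w + 1)) (m - (w + 1))
      rwa [show t - (w + 1) + 1 = t - w by omega, show m - (w + 1) + 1 = m - w by omega] at this
    have h3 : (m - w) * t ≤ m * (t - w) := by
      obtain ⟨a, rfl⟩ := Nat.exists_eq_add_of_le (show w ≤ m by omega)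
      obtain ⟨b, rfl⟩ := Nat.exists_eq_add_of_le hm
      rw [Nat.add_sub_cancel_left, add_assoc, Nat.add_sub_cancel_left]
      nlinarith [Nat.zero_le (w * b)]
    have h4 : 0 < t - w := by omega
    refine Nat.le_of_mul_le_mul_left ?_ h4
    calc (t - w) * ((t - (w + 1)).choose (m - (w + 1)) * t ^ (w + 1))
        = (t - w).choose (m - w) * t ^ w * ((m - w) * t) := by rw [← mul_assoc, h2]; ring
      _ ≤ m ^ w * t.choose m * (m * (t - w)) := Nat.mul_le_mul h1 h3
      _ = _ := by ring

theorem prob_superset {α : Type} [DecidableEq α] {T : Finset α} {m : ℕ} (hm : m ≤ #T)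
    (hT : 0 < #T) (W : Finset α) :
    𝔼 S ∈ powersetCard m T, (if W ⊆ S then (1 : ℝ) else 0) ≤
      if W ⊆ T then ((m : ℝ) / #T) ^ #W else 0 := by
  split_ifs with hW
  · by_cases hWm : #W ≤ m
    · rw [expect_eq_sum_div_card, ← sum_filter, sum_const, card_filter_powersetCard_subset W T m hW
        hWm, card_powersetCard, nsmul_eq_mul, mul_one, div_pow,
        div_le_div_iff₀ (by exact_mod_cast Nat.choose_pos hm) (by positivity)]
      exact_mod_cast choose_ratio hm _ hWm
    · rw [expect_eq_zero fun S hS => if_neg fun h =>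
        hWm ((card_le_card h).trans (mem_powersetCard.1 hS).2.le)]
      positivity
  · exact (expect_eq_zero fun S hS => if_neg fun h => hW (h.trans (mem_powersetCard.1 hS).1)).le

/-- The probability that planting a random `m`-subset of `T` changes the value of `Φ`. -/
noncomputable def dis {β : Type} [DecidableEq β] (m : ℕ) (T : Finset (Fin n))
    (Φ : (Pos n → Bool) → β) : ℝ :=
  𝔼 S ∈ powersetCard m T, 𝔼 y, if Φ (plant S y) = Φ y then (0 : ℝ) else 1

theorem expect_le_of_nonneg {ι : Type} {s : Finset ι} {f : ι → ℝ} {a : ℝ} (ha : 0 ≤ a)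
    (h : ∀ i ∈ s, f i ≤ a) : 𝔼 i ∈ s, f i ≤ a := by
  rcases s.eq_empty_or_nonempty with rfl | hs
  · simpa using ha
  · exact expect_le hs h

theorem dis_nonneg {β : Type} [DecidableEq β] (m : ℕ) (T : Finset (Fin n))
    (Φ : (Pos n → Bool) → β) : 0 ≤ dis m T Φ :=
  expect_nonneg fun _ _ => expect_nonneg fun _ _ => by split_ifs <;> norm_num

theorem dis_le_one {β : Type} [DecidableEq β] (m : ℕ) (T : Finset (Fin n))
    (Φ : (Pos n → Bool) → β) : dis m T Φ ≤ 1 :=
  expect_le_of_nonneg zero_le_one fun _ _ => expect_le_of_nonneg zero_le_one fun _ _ => by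
    split_ifs <;> norm_num

theorem dis_eq {β : Type} [DecidableEq β] {m u : ℕ} {T : Finset (Fin n)} (hmu : m ≤ u)
    (hu : u ≤ #T) (Φ : (Pos n → Bool) → β) :
    dis m T Φ = 𝔼 U ∈ powersetCard u T, 𝔼 x, dis m U fun y => Φ (mg U x y) := by
  rw [dis, ← expect_subsets hmu hu]
  refine expect_congr rfl fun U _ => ?_
  simp only [dis]
  rw [expect_comm univ]
  refine expect_congr rfl fun S hS => ?_
  rw [← expect_mg U]
  simp only [plant_mg (mem_powersetCard.1 hS).1]

end Pool.Agent.Lib.MP_21ae8a_lc
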