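import Mathlib

/-!
Definitions for the hidden all-ones corner problem: the two random matrix models, the success
probability of a test, layered unbounded fan-in AND/OR circuits, and tests that threshold
bounded-degree real polynomials of the gates of such a circuit.
-/

set_option autoImplicit false

namespace Pool.Agent.Lib.MP_21ae8a_lc

open Finset
open scoped BigOperators

/-- Positions `(i, j)` with `i < j` above the diagonal. -/
abbrev Pos (n : ℕ) : Type := {p : Fin n × Fin n // p.1 < p.2}

/-- The sign `+1` or `-1` of a bit. -/
def sg (b : Bool) : ℝ := if b then 1 else -1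

/-- Model A: the symmetric matrix with zero diagonal whose entry at `i < j` is the sign of the
bit `x (i, j)`. -/
def modelA {n : ℕ} (x : Pos n → Bool) : Matrix (Fin n) (Fin n) ℝ := fun i j =>
  if h : i < j then sg (x ⟨(i, j), h⟩) else if h' : j < i then sg (x ⟨(j, i), h'⟩) else 0

/-- Model B: the same, except that the entries with `i ≠ j` both in `S` are set to `+1`. -/
def modelB {n : ℕ} (S : Finset (Fin n)) (x : Pos n → Bool) : Matrix (Fin n) (Fin n) ℝ :=
  fun i j => if i ≠ j ∧ i ∈ S ∧ j ∈ S then 1 else modelA x i j

/-- A test gets two matrices and answers `true` (the first one is from Model B) or `false`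
(the second one is from Model B). -/
abbrev Test (n : ℕ) : Type := Matrix (Fin n) (Fin n) ℝ → Matrix (Fin n) (Fin n) ℝ → Bool

/-- The probability that the test answers correctly: `S` is a uniform `m`-set, `x` and `y` are
independent uniform bit vectors, and the order of the two matrices is uniform. -/
noncomputable def success {n : ℕ} (m : ℕ) (τ : Test n) : ℝ :=
  𝔼 S ∈ powersetCard m (univ : Finset (Fin n)), 𝔼 x : Pos n → Bool, 𝔼 y : Pos n → Bool,
    ((if τ (modelB S x) (modelA y) = true then (1 : ℝ) else 0) +
      (if τ (modelA y) (modelB S x) = false then (1 : ℝ) else 0)) / 2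

/-- The input bits of a circuit: bit `(a, i, j)` tells whether entry `(i, j)` of the first
(`a = true`) or second (`a = false`) matrix equals `1`. -/
noncomputable def bits {n : ℕ} (M N : Matrix (Fin n) (Fin n) ℝ) :
    Bool × Fin n × Fin n → Bool :=
  fun p => decide ((if p.1 = true then M else N) p.2.1 p.2.2 = 1)

/-- `g` is an OR or an AND, of unbounded fan-in, of functions in `G` and negations of functions
in `G`. -/
def IsGate {X : Type} (G : Set ((X → Bool) → Bool)) (g : (X → Bool) → Bool) : Prop :=
  ∃ P ⊆ G, ∃ N ⊆ G,
    (∀ z, g z = true ↔ (∃ h ∈ P, h z = true) ∨ ∃ h ∈ N, h z = false) ∨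
    (∀ z, g z = true ↔ (∀ h ∈ P, h z = true) ∧ ∀ h ∈ N, h z = false)

/-- `Circuit s d G`: `G` is the set of functions computed at the inputs and gates of a circuit
with `d` layers of (at most) `s` gates each; a gate reads inputs and gates of all lower
layers. -/
def Circuit {X : Type} (s : ℕ) : ℕ → Set ((X → Bool) → Bool) → Prop
  | 0, G => G = Set.range fun (i : X) (z : X → Bool) => z i
  | d + 1, G => ∃ G₀, Circuit s d G₀ ∧ ∃ new : Fin s → (X → Bool) → Bool,
      (∀ i, IsGate G₀ (new i)) ∧ G = G₀ ∪ Set.range new

/-- The test is an arbitrary function of the signs (`-`, `0`, `+`) of `k` real polynomials of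
total degree at most `D` in the `0/1` values of any number of inputs and gates of a circuit
with `d` layers of `s` gates, run on the entries of the two matrices. -/
def IsThresholdTest {n : ℕ} (d s D k : ℕ) (τ : Test n) : Prop :=
  ∃ G : Set ((Bool × Fin n × Fin n → Bool) → Bool), Circuit s d G ∧
    ∃ (r : ℕ) (γ : Fin r → (Bool × Fin n × Fin n → Bool) → Bool)
      (p : Fin k → MvPolynomial (Fin r) ℝ) (ψ : (Fin k → SignType) → Bool),
      (∀ i, γ i ∈ G) ∧ (∀ j, (p j).totalDegree ≤ D) ∧
      ∀ M N, τ M N = ψ fun j => SignType.sign
        (MvPolynomial.eval (fun i => if γ i (bits M N) = true then (1 : ℝ) else 0) (p j))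

end Pool.Agent.Lib.MP_21ae8a_lc
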