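import Pool.Agent.Lib.MP_21ae8a_lc.Avg

/-!
A switching lemma for restrictions that leave free the positions inside a random set of indices.
-/

set_option autoImplicit false

namespace Pool.Agent.Lib.MP_21ae8a_lc

open Finset
open scoped BigOperators Classical

variable {n : ℕ}

/-- `z` agrees with `x` outside `U` and inside `W`. -/
def Ag (U W : Finset (Fin n)) (x z : Pos n → Bool) : Prop :=
  ∀ e, (e ∉ E U ∨ e ∈ E W) → z e = x e

/-- Small certificates and low degree. -/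
def Nice (t : ℕ) (F : (Pos n → Bool) → Bool) : Prop :=
  (∀ y, ∃ W : Finset (Fin n), #W ≤ t ∧ ∀ z, (∀ e ∈ E W, z e = y e) → F z = F y) ∧
    LD (t.choose 2) fun y => if F y = true then (1 : ℝ) else 0

/-- The same below a node of a decision tree. -/
def Good (t : ℕ) (F : (Pos n → Bool) → Bool) (U W : Finset (Fin n)) (x : Pos n → Bool) : Prop :=
  (∀ y, Ag U W x (mg U x y) → ∃ W' : Finset (Fin n), #W' ≤ t ∧
      ∀ z, (∀ e ∈ E W', z e = y e) → F (mg U x z) = F (mg U x y)) ∧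
    LD (t.choose 2) fun y => if Ag U W x (mg U x y) ∧ F (mg U x y) = true then (1 : ℝ) else 0

theorem Good.nice {t : ℕ} {F : (Pos n → Bool) → Bool} {U : Finset (Fin n)} {x : Pos n → Bool}
    (h : Good t F U ∅ x) : Nice t fun y => F (mg U x y) := by
  have hA : ∀ y, Ag U ∅ x (mg U x y) := fun y e he => by
    rcases he with he | he
    · rw [mg, if_neg he]
    · simp [E_empty] at he
  refine ⟨fun y => h.1 y (hA y), ?_⟩
  simpa only [hA, true_and] using h.2

theorem good_leaf {t : ℕ} {F : (Pos n → Bool) → Bool} {U W : Finset (Fin n)} {x : Pos n → Bool}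
    (hW : #W ≤ t) (h : ∀ z, Ag U W x z → F z = F x) : Good t F U W x := by
  refine ⟨fun y hy => ⟨W, hW, fun z hz => ?_⟩, ?_⟩
  · rw [h _ hy]
    refine h _ fun e he => ?_
    have := hy e he
    by_cases heU : e ∈ E U
    · rw [mg, if_pos heU] at this ⊢
      rw [hz e (he.resolve_left (not_not.2 heU)), this]
    · rw [mg, if_neg heU]
  · have e1 : (fun y => if Ag U W x (mg U x y) ∧ F (mg U x y) = true then (1 : ℝ) else 0) =
        fun y => (if F x = true then (1 : ℝ) else 0) *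
          ∏ e ∈ E W ∩ E U, if y e = x e then (1 : ℝ) else 0 := by
      funext y
      rw [prod_boole]
      have e2 : Ag U W x (mg U x y) ↔ ∀ e ∈ E W ∩ E U, y e = x e := by
        refine ⟨fun hy e he => ?_, fun hy e he => ?_⟩
        · have := hy e (Or.inr (mem_inter.1 he).1)
          rwa [mg, if_pos (mem_inter.1 he).2] at this
        · by_cases heU : e ∈ E U
          · rw [mg, if_pos heU]
            exact hy e (mem_inter.2 ⟨he.resolve_left (not_not.2 heU), heU⟩)
          · rw [mg, if_neg heU]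
      by_cases hy : Ag U W x (mg U x y)
      · rw [if_pos (e2.1 hy), h _ hy]
        simp [hy]
      · rw [if_neg (mt e2.2 hy)]
        simp [hy]
    rw [e1]
    refine LD.cmul _ ((LD.prod _ (D := fun _ => 1) fun e _ => LD.ind e (x e)).mono ?_)
    rw [sum_const, smul_eq_mul, mul_one]
    exact (card_le_card inter_subset_left).trans 
      ((card_E_le_choose W).trans (Nat.choose_le_choose 2 hW))

theorem Ag.mg_eq {U W : Finset (Fin n)} {x z : Pos n → Bool} (h : Ag U W x z) (y : Pos n → Bool) :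
    mg U z y = mg U x y := by
  funext e
  by_cases he : e ∈ E U
  · simp [mg, he]
  · simp [mg, he, h e (Or.inl he)]

theorem good_node {t : ℕ} {F : (Pos n → Bool) → Bool} {U W W' : Finset (Fin n)} {x : Pos n → Bool}
    (hW : W ⊆ W') (h : ∀ z, Ag U W x z → (∀ e ∉ E W', z e = x e) → Good t F U W' z) :
    Good t F U W x := by
  have h1 : ∀ y, Ag U W x (mg U x y) → Ag U W x (mg W' x (mg U x y)) := fun y hy e he => by
    by_cases h' : e ∈ E W'
    · rw [mg, if_pos h', hy e he]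
    · rw [mg, if_neg h']
  have h2 : ∀ y, ∀ e ∉ E W', mg W' x (mg U x y) e = x e := fun y e he => by rw [mg, if_neg he]
  have h3 : ∀ y, Ag U W' (mg W' x (mg U x y)) (mg U x y) := fun y e he => by
    by_cases h' : e ∈ E W'
    · rw [mg.eq_1 W', if_pos h']
    · rw [mg.eq_1 W', if_neg h', mg, if_neg (he.resolve_right h')]
  refine ⟨fun y hy => ?_, ?_⟩
  · have := (h _ (h1 y hy) (h2 y)).1 y
    simp only [(h1 y hy).mg_eq] at this
    exact this (h3 y)
  · have e1 : (fun y => if Ag U W x (mg U x y) ∧ F (mg U x y) = true then (1 : ℝ) else 0) =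
        fun y => ∑ z with Ag U W x z ∧ ∀ e ∉ E W', z e = x e,
          if Ag U W' z (mg U z y) ∧ F (mg U z y) = true then (1 : ℝ) else 0 := by
      funext y
      by_cases hy : Ag U W x (mg U x y)
      · rw [sum_eq_single_of_mem (mg W' x (mg U x y)) (mem_filter.2 ⟨mem_univ _, h1 y hy, h2 y⟩)]
        · simp only [(h1 y hy).mg_eq, hy, h3 y]
        · intro z hz hne
          obtain ⟨hz1, hz2⟩ := (mem_filter.1 hz).2
          refine if_neg fun hc => hne (funext fun e => ?_)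
          by_cases h' : e ∈ E W'
          · rw [mg, if_pos h', ← hz1.mg_eq, hc.1 e (Or.inr h')]
          · rw [mg, if_neg h', hz2 e h']
      · rw [if_neg fun hc => hy hc.1]
        refine (sum_eq_zero fun z hz => if_neg fun hc => hy fun e he => ?_).symm
        obtain ⟨hz1, _⟩ := (mem_filter.1 hz).2
        rw [← hz1.mg_eq, hc.1 e (he.imp_right fun h' => E_mono hW h'), hz1 e he]
    rw [e1]
    exact LD.sum _ fun z hz => (h z (mem_filter.1 hz).2.1 (mem_filter.1 hz).2.2).2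

/-- The weight of a set of restrictions. -/
noncomputable def mu (l : ℝ) (P : Finset (Fin n) → (Pos n → Bool) → Prop) : ℝ :=
  ∑ p : Finset (Fin n) × (Pos n → Bool), if P p.1 p.2 then l ^ #p.1 else 0

theorem mu_nonneg {l : ℝ} (hl : 0 ≤ l) (P : Finset (Fin n) → (Pos n → Bool) → Prop) :
    0 ≤ mu l P := sum_nonneg fun _ _ => by positivity

theorem mu_cover {l : ℝ} (hl : 0 ≤ l) {P : Finset (Fin n) → (Pos n → Bool) → Prop} {ι : Type}
    (s : Finset ι) {Q : ι → Finset (Fin n) → (Pos n → Bool) → Prop}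
    (h : ∀ U x, P U x → ∃ i ∈ s, Q i U x) : mu l P ≤ ∑ i ∈ s, mu l (Q i) := by
  simp only [mu]
  rw [sum_comm]
  refine sum_le_sum fun p _ => ?_
  split_ifs with hp
  · obtain ⟨i, hi, hQ⟩ := h _ _ hp
    refine le_trans ?_ (single_le_sum (f := fun i => if Q i p.1 p.2 then l ^ #p.1 else 0)
      (fun _ _ => by positivity) hi)
    rw [if_pos hQ]
  · exact sum_nonneg fun _ _ => by positivity

theorem mu_disj {l : ℝ} (hl : 0 ≤ l) {P : Finset (Fin n) → (Pos n → Bool) → Prop} {ι : Type}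
    (s : Finset ι) {Q : ι → Finset (Fin n) → (Pos n → Bool) → Prop}
    (h : ∀ i U x, Q i U x → P U x) (h' : ∀ i j U x, Q i U x → Q j U x → i = j) :
    ∑ i ∈ s, mu l (Q i) ≤ mu l P := by
  simp only [mu]
  rw [sum_comm]
  refine sum_le_sum fun p _ => ?_
  by_cases hp : ∃ i ∈ s, Q i p.1 p.2
  · obtain ⟨i, hi, hQ⟩ := hp
    rw [sum_eq_single_of_mem i hi fun j _ hj => if_neg fun hc => hj (h' _ _ _ _ hc hQ),
      if_pos hQ, if_pos (h _ _ _ hQ)]
  · rw [sum_eq_zero fun i hi => if_neg fun hc => hp ⟨i, hi, hc⟩]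
    positivity

theorem mu_map {l : ℝ} (hl : 0 ≤ l) {P Q : Finset (Fin n) → (Pos n → Bool) → Prop}
    (Y : Finset (Fin n)) (A : Finset (Pos n))
    (h : ∀ U x, P U x → Y ⊆ U ∧ ∃ z, Q (U \ Y) z ∧ ∀ e ∉ A, z e = x e) :
    mu l P ≤ l ^ #Y * 2 ^ #A * mu l Q := by
  let R : Finset (Fin n) × (Pos n → Bool) → Finset (Fin n) × (Pos n → Bool) → Prop :=
    fun p q => Y ⊆ p.1 ∧ q.1 = p.1 \ Y ∧ ∀ e ∉ A, q.2 e = p.2 e
  calc mu l P ≤ ∑ p, ∑ q, if R p q then l ^ #Y * (if Q q.1 q.2 then l ^ #q.1 else 0) else 0 := by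
        refine sum_le_sum fun p _ => ?_
        split_ifs with hp
        · obtain ⟨hY, z, hz, hzA⟩ := h _ _ hp
          refine le_trans ?_ (single_le_sum (f := fun q => if R p q then
            l ^ #Y * (if Q q.1 q.2 then l ^ #q.1 else 0) else 0) (fun _ _ => by positivity)
            (mem_univ (p.1 \ Y, z)))
          rw [if_pos ⟨hY, rfl, hzA⟩, if_pos hz, ← pow_add, add_comm, card_sdiff_add_card_eq_card hY]
        · exact sum_nonneg fun _ _ => by positivity
    _ ≤ _ := by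
        rw [sum_comm, mu, mul_sum]
        refine sum_le_sum fun q _ => ?_
        rw [← sum_filter, sum_const, nsmul_eq_mul, mul_comm (l ^ #Y) (2 ^ #A), mul_assoc]
        refine mul_le_mul_of_nonneg_right ?_ (by positivity)
        have : #{p | R p q} ≤ 2 ^ #A := by
          rw [← card_powerset]
          refine card_le_card_of_injOn (fun p => A.filter fun e => p.2 e = true)
            (fun p _ => mem_coe.2 (mem_powerset.2 (filter_subset _ _))) fun p hp p' hp' hpp => ?_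
          obtain ⟨h1, h2, h3⟩ := (mem_filter.1 (mem_coe.1 hp)).2
          obtain ⟨h1', h2', h3'⟩ := (mem_filter.1 (mem_coe.1 hp')).2
          refine Prod.ext ?_ (funext fun e => ?_)
          · rw [← sdiff_union_of_subset h1, ← h2, h2', sdiff_union_of_subset h1']
          · by_cases he : e ∈ A
            · have := Finset.ext_iff.1 hpp e
              simp only [mem_filter, he, true_and] at this
              exact Bool.eq_iff_iff.2 this
            · rw [← h3 e he, h3' e he]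
        exact_mod_cast this

/-- Families of restrictions that are closed under extension. -/
def Closed (W : Finset (Fin n)) (P : Finset (Fin n) → (Pos n → Bool) → Prop) : Prop :=
  ∀ U x, P U x → W ⊆ U ∧ ∀ U' x', W ⊆ U' → U' ⊆ U → Ag U W x x' → P U' x'

theorem switch_aux {t N : ℕ} {F : (Pos n → Bool) → Bool} (Wt : Fin N → Finset (Fin n))
    (a : Fin N → Pos n → Bool) (hWt : ∀ i, #(Wt i) ≤ t)
    (hF : ∀ z, F z = true ↔ ∃ i, ∀ e ∈ E (Wt i), z e = a i e) {β ρ : ℝ} (hβ0 : 0 ≤ β) (hβ1 : β ≤ 1)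
    (hρ0 : 0 ≤ ρ) (hρ : ρ * (2 ^ t * 4 ^ (2 * t) ^ 2) ≤ 1) (j : ℕ) :
    ∀ (W : Finset (Fin n)) (P : Finset (Fin n) → (Pos n → Bool) → Prop),
      (j = 0 ∨ #W + j ≤ t + 1) → Closed W P →
      mu (ρ * β) (fun U x => P U x ∧ ¬Good t F U W x) ≤ β ^ j * mu (ρ * β) P := by
  have hl : 0 ≤ ρ * β := mul_nonneg hρ0 hβ0
  have hρ1 : ρ ≤ 1 := by
    have : (1 : ℝ) ≤ 2 ^ t * 4 ^ (2 * t) ^ 2 :=
      one_le_mul_of_one_le_of_one_le (one_le_pow₀ (by norm_num)) (one_le_pow₀ (by norm_num))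
    nlinarith
  induction j using Nat.strong_induction_on with
  | _ j ih =>
  intro W P hj hP
  rcases Nat.eq_zero_or_pos j with rfl | hj0
  · rw [pow_zero, one_mul]
    simpa using mu_cover hl ({()} : Finset Unit) (Q := fun _ => P)
      fun U x h => ⟨(), mem_singleton_self _, h.1⟩
  have hWt' : #W ≤ t := by omega
  let kl : Fin N → Finset (Fin n) → (Pos n → Bool) → Prop := fun i U x =>
    ∃ e ∈ E (Wt i), (e ∉ E U ∨ e ∈ E W) ∧ x e ≠ a i e
  let H : Fin N → Finset (Fin n) → (Pos n → Bool) → Prop := fun i U x =>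
    P U x ∧ (∀ i' < i, kl i' U x) ∧ ¬kl i U x
  let G : Fin N → Finset (Fin n) → Finset (Fin n) → (Pos n → Bool) → Prop := fun i Y U x =>
    H i U x ∧ (Wt i ∩ U) \ W = Y
  have kl_mono : ∀ i U x U' x', kl i U x → U' ⊆ U → Ag U W x x' → kl i U' x' := by
    rintro i U x U' x' ⟨e, he, he', hne⟩ hU hA
    exact ⟨e, he, he'.imp_left fun h1 h2 => h1 (E_mono hU h2), by rwa [hA e he']⟩
  have G_sub : ∀ i Y U x, G i Y U x → W ∪ Y ⊆ U ∧ Disjoint W Y ∧
      ∀ e ∈ E (Wt i), e ∈ E U → e ∈ E (W ∪ Y) := by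
    rintro i Y U x ⟨⟨h1, _, _⟩, rfl⟩
    refine ⟨union_subset (hP U x h1).1 (sdiff_subset.trans inter_subset_right),
      disjoint_sdiff, fun e he heU => ?_⟩
    rw [union_sdiff_self_eq_union]
    exact E_mono subset_union_right (mem_E.2 ⟨mem_inter.2 ⟨(mem_E.1 he).1, (mem_E.1 heU).1⟩,
      mem_inter.2 ⟨(mem_E.1 he).2, (mem_E.1 heU).2⟩⟩)
  have G_cl : ∀ i Y U x U' x', G i Y U x → W ∪ Y ⊆ U' → U' ⊆ U → Ag U W x x' → G i Y U' x' := by
    intro i Y U x U' x' hG hU' hU hA
    obtain ⟨_, _, h3⟩ := G_sub i Y U x hG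
    obtain ⟨⟨g1, g2, g3⟩, g4⟩ := hG
    refine ⟨⟨(hP U x g1).2 U' x' (subset_union_left.trans hU') hU hA,
      fun i' hi' => kl_mono i' U x U' x' (g2 i' hi') hU hA, ?_⟩, ?_⟩
    · rintro ⟨e, he, he', hne⟩
      have : e ∉ E U ∨ e ∈ E W := he'.imp_left fun h1 h2 => h1 (E_mono hU' (h3 e he h2))
      exact g3 ⟨e, he, this, by rwa [← hA e this]⟩
    · refine subset_antisymm (g4 ▸ sdiff_subset_sdiff (inter_subset_inter_left hU) subset_rfl)
        fun v hv => ?_
      have hv' : v ∈ (Wt i ∩ U) \ W := g4 ▸ hv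
      exact mem_sdiff.2 ⟨mem_inter.2 ⟨(mem_inter.1 (mem_sdiff.1 hv').1).1,
        hU' (mem_union_right _ hv)⟩, (mem_sdiff.1 hv').2⟩
  have cover : ∀ U x, (P U x ∧ ¬Good t F U W x) →
      ∃ i ∈ (univ : Finset (Fin N)), ∃ Y ∈ (Wt i).powerset.erase ∅,
        G i Y U x ∧ ¬Good t F U W x := by
    rintro U x ⟨hPx, hbad⟩
    have hex : ∃ i, ¬kl i U x := by
      by_contra hc
      push Not at hc
      have : ∀ z, Ag U W x z → F z = false := fun z hz => by
        rw [← Bool.not_eq_true, hF]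
        rintro ⟨i, hi⟩
        obtain ⟨e, he, he', hne⟩ := hc i
        exact hne ((hz e he').symm.trans (hi e he))
      exact hbad (good_leaf hWt' fun z hz => by rw [this z hz, this x fun _ _ => rfl])
    obtain ⟨i, hi, hmin⟩ := (wellFounded_lt (α := Fin N)).has_min {i | ¬kl i U x} hex
    have hG : G i ((Wt i ∩ U) \ W) U x :=
      ⟨⟨hPx, fun i' hi' => not_not.1 fun hc => hmin i' hc hi', hi⟩, rfl⟩
    refine ⟨i, mem_univ _, _, mem_erase.2 ⟨fun h0 => ?_,
      mem_powerset.2 (sdiff_subset.trans inter_subset_left)⟩, hG, hbad⟩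
    have h3 := (G_sub _ _ _ _ hG).2.2
    rw [h0, union_empty] at h3
    have : ∀ z, Ag U W x z → F z = true := fun z hz => (hF z).2 ⟨i, fun e he => by
      have he' : e ∉ E U ∨ e ∈ E W := or_iff_not_imp_left.2 fun h => h3 e he (not_not.1 h)
      rw [hz e he']
      exact not_not.1 fun hne => hi ⟨e, he, he', hne⟩⟩
    exact hbad (good_leaf hWt' fun z hz => by rw [this z hz, this x fun _ _ => rfl])
  have piece : ∀ i, ∀ Y ∈ (Wt i).powerset.erase ∅,
      mu (ρ * β) (fun U x => G i Y U x ∧ ¬Good t F U W x) ≤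
        ρ * 4 ^ (2 * t) ^ 2 * β ^ j * mu (ρ * β) (H i) := by
    intro i Y hY
    have hY1 : 0 < #Y := card_pos.2 (nonempty_iff_ne_empty.2 (mem_erase.1 hY).1)
    have hYt : #Y ≤ t := (card_le_card (mem_powerset.1 (mem_erase.1 hY).2)).trans (hWt i)
    have hr : #(E (W ∪ Y)) ≤ (2 * t) ^ 2 :=
      (card_E_le _).trans (Nat.pow_le_pow_left ((card_union_le _ _).trans (by omega)) 2)
    have s1 : mu (ρ * β) (fun U x => G i Y U x ∧ ¬Good t F U W x) ≤ (ρ * β) ^ #(∅ : Finset (Fin n)) *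
        2 ^ #(E (W ∪ Y)) * mu (ρ * β) fun U x => G i Y U x ∧ ¬Good t F U (W ∪ Y) x := by
      refine mu_map hl ∅ _ fun U x h => ⟨empty_subset _, ?_⟩
      by_contra hc
      refine h.2 (good_node (W' := W ∪ Y) subset_union_left fun z hz hz' => not_not.1 fun hb =>
        hc ⟨z, ?_, hz'⟩)
      rw [sdiff_empty]
      exact ⟨G_cl i Y U x U z h.1 (G_sub i Y U x h.1).1 subset_rfl hz, hb⟩
    have s2 : mu (ρ * β) (fun U x => G i Y U x ∧ ¬Good t F U (W ∪ Y) x) ≤
        β ^ (j - #Y) * mu (ρ * β) (G i Y) := by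
      refine ih (j - #Y) (by omega) (W ∪ Y) (G i Y) ?_ fun U x h => ⟨(G_sub i Y U x h).1,
        fun U' x' h1 h2 h3 => G_cl i Y U x U' x' h h1 h2 fun e he =>
          h3 e (he.imp_right fun h4 => E_mono subset_union_left h4)⟩
      have := card_union_le W Y
      omega
    have s3 : mu (ρ * β) (G i Y) ≤ (ρ * β) ^ #Y * 2 ^ #(E (W ∪ Y)) * mu (ρ * β) (H i) := by
      refine mu_map hl Y _ fun U x h => ?_
      obtain ⟨h1, h2, h3⟩ := G_sub i Y U x h
      obtain ⟨⟨g1, g2, g3⟩, _⟩ := h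
      refine ⟨subset_union_right.trans h1,
        fun e => if e ∈ E (W ∪ Y) ∧ e ∉ E W then a i e else x e, ?_, fun e he => if_neg fun h => he h.1⟩
      have hA : Ag U W x fun e => if e ∈ E (W ∪ Y) ∧ e ∉ E W then a i e else x e := fun e he =>
        if_neg fun h => he.elim (fun h' => h' (E_mono h1 h.1)) h.2
      refine ⟨(hP U x g1).2 _ _ (subset_sdiff.2 ⟨subset_union_left.trans h1, h2⟩) sdiff_subset hA,
        fun i' hi' => kl_mono i' U x _ _ (g2 i' hi') sdiff_subset hA, ?_⟩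
      rintro ⟨e, he, _, hne⟩
      by_cases h4 : e ∈ E (W ∪ Y) ∧ e ∉ E W
      · exact hne (if_pos h4)
      · have h5 : e ∉ E U ∨ e ∈ E W :=
          or_iff_not_imp_left.2 fun h => not_not.1 fun h' => h4 ⟨h3 e he (not_not.1 h), h'⟩
        exact g3 ⟨e, he, h5, by simpa only [if_neg h4] using hne⟩
    have hH := mu_nonneg hl (H i)
    have n1 : (2 : ℝ) ^ #(E (W ∪ Y)) * 2 ^ #(E (W ∪ Y)) ≤ 4 ^ (2 * t) ^ 2 := by
      rw [← mul_pow, show (2 : ℝ) * 2 = 4 by norm_num]
      exact pow_le_pow_right₀ (by norm_num) hr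
    have n2 : β ^ (j - #Y) * (ρ * β) ^ #Y ≤ ρ * β ^ j := by
      rw [mul_pow, mul_left_comm, ← pow_add]
      exact mul_le_mul (pow_le_of_le_one hρ0 hρ1 hY1.ne') (pow_le_pow_of_le_one hβ0 hβ1 (by omega))
        (pow_nonneg hβ0 _) hρ0
    rw [card_empty, pow_zero, one_mul] at s1
    calc _ ≤ 2 ^ #(E (W ∪ Y)) * (β ^ (j - #Y) *
          ((ρ * β) ^ #Y * 2 ^ #(E (W ∪ Y)) * mu (ρ * β) (H i))) :=
          s1.trans (mul_le_mul_of_nonneg_left (s2.trans
            (mul_le_mul_of_nonneg_left s3 (pow_nonneg hβ0 _))) (pow_nonneg zero_le_two _))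
      _ = (β ^ (j - #Y) * (ρ * β) ^ #Y) * (2 ^ #(E (W ∪ Y)) * 2 ^ #(E (W ∪ Y))) *
          mu (ρ * β) (H i) := by ring
      _ ≤ (ρ * β ^ j) * 4 ^ (2 * t) ^ 2 * mu (ρ * β) (H i) :=
          mul_le_mul_of_nonneg_right (mul_le_mul n2 n1
            (mul_nonneg (pow_nonneg zero_le_two _) (pow_nonneg zero_le_two _))
            (mul_nonneg hρ0 (pow_nonneg hβ0 _))) hH
      _ = _ := by ring
  refine (mu_cover hl univ cover).trans (le_trans (sum_le_sum fun i _ => ?_)
    ((mul_sum univ (fun i => mu (ρ * β) (H i)) (β ^ j)).symm.le.trans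
      (mul_le_mul_of_nonneg_left (mu_disj hl univ (fun i U x h => h.1) fun i i' U x h h' => ?_)
        (pow_nonneg hβ0 _))))
  · refine (mu_cover hl _ fun U x h => h).trans ((sum_le_sum (piece i)).trans ?_)
    rw [sum_const, nsmul_eq_mul]
    have h1 : (#((Wt i).powerset.erase ∅) : ℝ) ≤ 2 ^ t := by
      have := card_erase_le (s := (Wt i).powerset) (a := ∅)
      rw [card_powerset] at this
      exact_mod_cast this.trans (Nat.pow_le_pow_right (by norm_num) (hWt i))
    have h2 : 0 ≤ β ^ j * mu (ρ * β) (H i) := mul_nonneg (pow_nonneg hβ0 _) (mu_nonneg hl _)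
    calc _ ≤ 2 ^ t * (ρ * 4 ^ (2 * t) ^ 2 * β ^ j * mu (ρ * β) (H i)) :=
          mul_le_mul_of_nonneg_right h1 (by
            rw [mul_assoc]; exact mul_nonneg (mul_nonneg hρ0 (pow_nonneg (by norm_num) _)) h2)
      _ = ρ * (2 ^ t * 4 ^ (2 * t) ^ 2) * (β ^ j * mu (ρ * β) (H i)) := by ring
      _ ≤ _ := mul_le_of_le_one_left h2 hρ
  · rcases lt_trichotomy i i' with h1 | h1 | h1
    · exact absurd (h'.2.1 i h1) h.2.2
    · exact h1
    · exact absurd (h.2.1 i' h1) h'.2.2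

theorem sum_levels {T : Finset (Fin n)} {l : ℝ} (hl : 0 ≤ l) {K : ℕ} (hK : 2 ≤ l * (K - 1)) :
    ∀ u : ℕ, K * u ≤ #T → ∑ U ∈ T.powerset with #U ≤ u, l ^ #U ≤ 2 * ((#T).choose u * l ^ u) := by
  have hK1 : 1 ≤ K := by
    by_contra hc
    obtain rfl : K = 0 := by omega
    norm_num at hK
    linarith
  intro u
  induction u with
  | zero =>
    intro _
    have : ({U ∈ T.powerset | #U ≤ 0} : Finset _) = {∅} := by
      ext U
      simp only [mem_filter, mem_powerset, Nat.le_zero, card_eq_zero, mem_singleton]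
      exact ⟨fun h => h.2, fun h => ⟨h ▸ empty_subset _, h⟩⟩
    rw [this]
    simp
  | succ u ih =>
    intro hu
    have h1 := ih (le_trans (Nat.mul_le_mul_left _ (Nat.le_succ u)) hu)
    have h2 : ({U ∈ T.powerset | #U ≤ u + 1} : Finset _) =
        {U ∈ T.powerset | #U ≤ u} ∪ powersetCard (u + 1) T := by
      ext U
      simp only [mem_filter, mem_powerset, mem_union, mem_powersetCard]
      rw [← and_or_left]
      exact and_congr_right fun _ => by omega
    have h3 : Disjoint ({U ∈ T.powerset | #U ≤ u} : Finset _) (powersetCard (u + 1) T) :=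
      disjoint_left.2 fun U h h' => by
        have := (mem_filter.1 h).2
        have := (mem_powersetCard.1 h').2
        omega
    have h4 : ∑ U ∈ powersetCard (u + 1) T, l ^ #U = (#T).choose (u + 1) * l ^ (u + 1) := by
      rw [sum_congr rfl fun U hU => by rw [(mem_powersetCard.1 hU).2], sum_const, card_powersetCard,
        nsmul_eq_mul]
    rw [h2, sum_union h3, h4]
    have huT : u ≤ #T := by nlinarith
    have h5 : ((#T).choose (u + 1) : ℝ) * (u + 1) = (#T).choose u * (#T - u) := by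
      have := Nat.choose_succ_right_eq (#T) u
      rw [← Nat.cast_sub huT]
      exact_mod_cast this
    have h6 : (K : ℝ) * (u + 1) ≤ #T := by exact_mod_cast hu
    have h7 : 2 * ((u : ℝ) + 1) ≤ l * (#T - u) := by
      have : (K - 1 : ℝ) * (u + 1) ≤ #T - u := by linarith
      have h8 := mul_le_mul_of_nonneg_left this hl
      have h9 := mul_le_mul_of_nonneg_right hK (show (0 : ℝ) ≤ u + 1 by positivity)
      linarith
    have h8 : 2 * ((#T).choose u : ℝ) ≤ (#T).choose (u + 1) * l := by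
      refine le_of_mul_le_mul_right ?_ (show (0 : ℝ) < u + 1 by positivity)
      have := mul_le_mul_of_nonneg_left h7 (show (0 : ℝ) ≤ (#T).choose u by positivity)
      calc 2 * ((#T).choose u : ℝ) * (u + 1) = (#T).choose u * (2 * (u + 1)) := by ring
        _ ≤ (#T).choose u * (l * (#T - u)) := this
        _ = (#T).choose u * (#T - u) * l := by ring
        _ = _ := by rw [← h5]; ring
    have h9 := mul_le_mul_of_nonneg_right h8 (pow_nonneg hl u)
    rw [pow_succ]
    linarith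

theorem switching {t N : ℕ} {F : (Pos n → Bool) → Bool} (Wt : Fin N → Finset (Fin n))
    (a : Fin N → Pos n → Bool) (hWt : ∀ i, #(Wt i) ≤ t)
    (hF : ∀ z, F z = true ↔ ∃ i, ∀ e ∈ E (Wt i), z e = a i e) {β : ℝ} (hβ0 : 0 < β) (hβ1 : β ≤ 1)
    {K u : ℕ} (hK : 2 * (2 ^ t * 4 ^ (2 * t) ^ 2) ≤ β * (K - 1)) {T : Finset (Fin n)}
    (hT : K * u ≤ #T) (huT : u ≤ #T) :
    𝔼 U ∈ powersetCard u T, 𝔼 x, (if Nice t fun y => F (mg U x y) then (0 : ℝ) else 1) ≤
      2 * β ^ (t + 1) := by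
  obtain ⟨Γ, hΓ⟩ : ∃ Γ : ℝ, Γ = 2 ^ t * 4 ^ (2 * t) ^ 2 := ⟨_, rfl⟩
  have hΓ0 : 0 < Γ := by rw [hΓ]; positivity
  have h1 := switch_aux Wt a hWt hF hβ0.le hβ1 (ρ := 1 / Γ) (by positivity)
    (by rw [← hΓ, one_div_mul_cancel hΓ0.ne']) (t + 1) ∅ (fun U _ => U ⊆ T ∧ #U ≤ u)
    (Or.inr (by simp)) fun U x h => ⟨empty_subset _, fun U' _ _ h' _ =>
      ⟨h'.trans h.1, (card_le_card h').trans h.2⟩⟩
  obtain ⟨l, hl⟩ : ∃ l : ℝ, l = 1 / Γ * β := ⟨_, rfl⟩
  rw [← hl] at h1
  have hl0 : 0 < l := by rw [hl]; positivity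
  have hlK : 2 ≤ l * (K - 1) := by
    rw [hl, mul_assoc, one_div_mul_eq_div, le_div_iff₀ hΓ0, hΓ]
    exact hK
  have h2 : mu l (fun U (_ : Pos n → Bool) => U ⊆ T ∧ #U ≤ u) ≤
      Fintype.card (Pos n → Bool) * (2 * ((#T).choose u * l ^ u)) := by
    rw [mu, Fintype.sum_prod_type_right]
    simp only [sum_const, card_univ, nsmul_eq_mul]
    refine mul_le_mul_of_nonneg_left (le_trans (le_of_eq ?_) (sum_levels hl0.le hlK u hT))
      (by positivity)
    rw [← sum_filter]
    exact sum_congr (by ext U; simp) fun _ _ => rfl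
  have h3 : l ^ u * ∑ U ∈ powersetCard u T, ∑ x,
      (if Nice t fun y => F (mg U x y) then (0 : ℝ) else 1) ≤
      mu l fun U x => (U ⊆ T ∧ #U ≤ u) ∧ ¬Good t F U ∅ x := by
    rw [mu, Fintype.sum_prod_type, mul_sum]
    refine le_trans (sum_le_sum fun U hU => ?_) (sum_le_sum_of_subset_of_nonneg (subset_univ _)
      fun _ _ _ => sum_nonneg fun _ _ => by positivity)
    obtain ⟨hUT, hUu⟩ := mem_powersetCard.1 hU
    rw [mul_sum]
    refine sum_le_sum fun x _ => ?_
    by_cases h : Nice t fun y => F (mg U x y)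
    · rw [if_pos h, mul_zero]
      positivity
    · rw [if_neg h, if_pos ⟨⟨hUT, hUu.le⟩, fun hg => h hg.nice⟩, mul_one, hUu]
  have h4 := h3.trans (h1.trans (mul_le_mul_of_nonneg_left h2 (pow_nonneg hβ0.le _)))
  have h5 : (0 : ℝ) < (#T).choose u := by exact_mod_cast Nat.choose_pos huT
  have h6 : (0 : ℝ) < Fintype.card (Pos n → Bool) := by exact_mod_cast Fintype.card_pos
  simp only [expect_eq_sum_div_card, card_univ, card_powersetCard]
  rw [← sum_div, div_div, div_le_iff₀ (mul_pos h6 h5)]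
  refine le_of_mul_le_mul_left (h4.trans (le_of_eq ?_)) (pow_pos hl0 u)
  ring

end Pool.Agent.Lib.MP_21ae8a_lc
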