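import Pool.Agent.Lib.MP_21ae8a_lc.Regular
import Pool.Agent.Lib.MP_21ae8a_lc.Switch

/-!
Simplifying a layered circuit by random restrictions, and the bound on the success probability.
-/

set_option autoImplicit false

namespace Pool.Agent.Lib.MP_21ae8a_lc

open Finset
open scoped BigOperators Classical

variable {n : ℕ}

theorem Nice.mg {t : ℕ} {F : (Pos n → Bool) → Bool} (h : Nice t F) (U : Finset (Fin n))
    (x : Pos n → Bool) : Nice t fun y => F (mg U x y) := by
  refine ⟨fun y => ?_, h.2.mg U x⟩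
  obtain ⟨W, hW, hc⟩ := h.1 (Pool.Agent.Lib.MP_21ae8a_lc.mg U x y)
  refine ⟨W, hW, fun z hz => hc _ fun e he => ?_⟩
  simp only [Pool.Agent.Lib.MP_21ae8a_lc.mg, hz e he]

theorem Nice.not {t : ℕ} {F : (Pos n → Bool) → Bool} (h : Nice t F) : Nice t fun y => !F y := by
  refine ⟨fun y => ?_, ?_⟩
  · obtain ⟨W, hW, hc⟩ := h.1 y
    exact ⟨W, hW, fun z hz => by simp only [hc z hz]⟩
  · have : (fun y => if (!F y) = true then (1 : ℝ) else 0) =
        fun y => 1 + (-1) * if F y = true then (1 : ℝ) else 0 := by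
      funext y
      cases F y <;> simp
    rw [this]
    exact (LD.const _ 1).add (h.2.cmul _)

theorem Nice.const (t : ℕ) (b : Bool) : Nice t fun _ : Pos n → Bool => b :=
  ⟨fun _ => ⟨∅, by simp, fun _ _ => rfl⟩, LD.const _ _⟩

theorem Nice.coord {t : ℕ} (ht : 2 ≤ t) (e : Pos n) : Nice t fun y : Pos n → Bool => y e :=
  ⟨fun _ => ⟨{e.1.1, e.1.2}, card_le_two.trans ht, fun _ hz => hz e (mem_E.2 (by simp))⟩,
    (LD.ind e true).mono (Nat.choose_pos ht)⟩

theorem nice_entry {t : ℕ} (ht : 2 ≤ t) (i j : Fin n) :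
    Nice t fun x : Pos n → Bool => decide (modelA x i j = 1) := by
  have hs : ∀ b : Bool, decide (sg b = 1) = b := fun b => by cases b <;> norm_num [sg]
  by_cases h : i < j
  · simpa only [modelA, dif_pos h, hs] using Nice.coord ht ⟨(i, j), h⟩
  · by_cases h' : j < i
    · simpa only [modelA, dif_neg h, dif_pos h', hs] using Nice.coord ht ⟨(j, i), h'⟩
    · simpa only [modelA, dif_neg h, dif_neg h'] using Nice.const t _

theorem modelB_eq (S : Finset (Fin n)) (x : Pos n → Bool) : modelB S x = modelA (plant S x) := by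
  funext i j
  simp only [modelB, modelA, plant, mg, mem_E]
  rcases lt_trichotomy i j with h | h | h
  · by_cases hS : i ∈ S ∧ j ∈ S <;> simp [h, h.ne, hS, sg]
  · simp [h]
  · by_cases hS : j ∈ S ∧ i ∈ S
    · simp [h, h.ne', not_lt.2 h.le, hS, sg]
    · have hS' : ¬(i ∈ S ∧ j ∈ S) := fun h => hS h.symm
      simp [h, h.ne', not_lt.2 h.le, hS, hS']

section
variable {t K u : ℕ} {β : ℝ} (hβ0 : 0 < β) (hβ1 : β ≤ 1)
  (hK : 2 * (2 ^ t * 4 ^ (2 * t) ^ 2) ≤ β * (K - 1))
include hβ0 hβ1 hK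

theorem dnf_switch {T : Finset (Fin n)} (hT : K * u ≤ #T) (huT : u ≤ #T)
    {F : (Pos n → Bool) → Bool} (hF : ∀ y, F y = true → ∃ W : Finset (Fin n), #W ≤ t ∧
      ∀ z, (∀ e ∈ E W, z e = y e) → F z = true) :
    𝔼 U ∈ powersetCard u T, 𝔼 x, (if Nice t fun y => F (mg U x y) then (0 : ℝ) else 1) ≤
      2 * β ^ (t + 1) := by
  let I := {p : Finset (Fin n) × (Pos n → Bool) //
    #p.1 ≤ t ∧ ∀ z, (∀ e ∈ E p.1, z e = p.2 e) → F z = true}
  let φ := (Fintype.equivFin I).symm
  refine switching (fun i => (φ i).1.1) (fun i => (φ i).1.2) (fun i => (φ i).2.1)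
    (fun z => ⟨fun hz => ?_, fun ⟨i, hi⟩ => (φ i).2.2 z hi⟩) hβ0 hβ1 hK hT huT
  obtain ⟨W, hW, hc⟩ := hF z hz
  refine ⟨φ.symm ⟨(W, z), hW, hc⟩, fun e _ => ?_⟩
  rw [Equiv.apply_symm_apply]

theorem gate_switch {T : Finset (Fin n)} (hT : K * u ≤ #T) (huT : u ≤ #T) {X : Type}
    {G : Set ((X → Bool) → Bool)} {g : (X → Bool) → Bool} (hg : IsGate G g)
    {ι : (Pos n → Bool) → X → Bool} (hG : ∀ h ∈ G, Nice t fun y => h (ι y)) :
    𝔼 U ∈ powersetCard u T, 𝔼 x, (if Nice t fun y => g (ι (mg U x y)) then (0 : ℝ) else 1) ≤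
      2 * β ^ (t + 1) := by
  obtain ⟨P, hP, N, hN, hg | hg⟩ := hg
  · refine dnf_switch hβ0 hβ1 hK hT huT (F := fun y => g (ι y)) fun y hy => ?_
    rcases (hg _).1 hy with ⟨h, hh, hv⟩ | ⟨h, hh, hv⟩
    · obtain ⟨W, hW, hc⟩ := (hG h (hP hh)).1 y
      exact ⟨W, hW, fun z hz => (hg _).2 (Or.inl ⟨h, hh, (hc z hz).trans hv⟩)⟩
    · obtain ⟨W, hW, hc⟩ := (hG h (hN hh)).1 y
      exact ⟨W, hW, fun z hz => (hg _).2 (Or.inr ⟨h, hh, (hc z hz).trans hv⟩)⟩
  · refine le_trans (expect_le_expect fun U _ => expect_le_expect fun x _ => ?_)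
      (dnf_switch hβ0 hβ1 hK hT huT (F := fun y => !g (ι y)) fun y hy => ?_)
    · by_cases h : Nice t fun y => !g (ι (mg U x y))
      · have := h.not
        simp only [Bool.not_not] at this
        rw [if_pos h, if_pos this]
      · rw [if_neg h]
        split_ifs <;> norm_num
    · have key : ∀ z, (!g (ι z)) = true ↔
          (∃ h ∈ P, h (ι z) = false) ∨ ∃ h ∈ N, h (ι z) = true := fun z => by
        rw [Bool.not_eq_true', ← Bool.not_eq_true, hg, not_and_or]
        simp
      rcases (key y).1 hy with ⟨h, hh, hv⟩ | ⟨h, hh, hv⟩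
      · obtain ⟨W, hW, hc⟩ := (hG h (hP hh)).1 y
        exact ⟨W, hW, fun z hz => (key z).2 (Or.inl ⟨h, hh, (hc z hz).trans hv⟩)⟩
      · obtain ⟨W, hW, hc⟩ := (hG h (hN hh)).1 y
        exact ⟨W, hW, fun z hz => (key z).2 (Or.inr ⟨h, hh, (hc z hz).trans hv⟩)⟩

omit u in
theorem layers (hK1 : 1 ≤ K) {X γ : Type} [DecidableEq γ] {s m : ℕ}
    {ι : (Pos n → Bool) → X → Bool} (hι : ∀ i, Nice t fun y => ι y i) (Φ : (Pos n → Bool) → γ)
    (d : ℕ) : ∀ (G : Set ((X → Bool) → Bool)), Circuit s d G → ∀ u, m ≤ u →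
      ∀ T : Finset (Fin n), K ^ d * u ≤ #T → ∀ a : ℝ, 0 ≤ a →
      (∀ U : Finset (Fin n), #U = u → ∀ x, (∀ g ∈ G, Nice t fun y => g (ι (mg U x y))) →
        dis m U (fun y => Φ (mg U x y)) ≤ a) →
      dis m T Φ ≤ a + d * (s * (2 * β ^ (t + 1))) := by
  induction d with
  | zero =>
    intro G hG u hmu T hT a _ h
    rw [pow_zero, one_mul] at hT
    rw [dis_eq hmu hT, Nat.cast_zero, zero_mul, add_zero]
    refine expect_le (powersetCard_nonempty.2 hT) fun U hU => expect_le univ_nonempty fun x _ =>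
      h U (mem_powersetCard.1 hU).2 x fun g hg => ?_
    rw [show G = _ from hG] at hg
    obtain ⟨i, rfl⟩ := hg
    exact (hι i).mg U x
  | succ d ih =>
    rintro G ⟨G₀, hG₀, new, hnew, rfl⟩ u hmu T hT a ha h
    have hu : u ≤ K * u := Nat.le_mul_of_pos_left _ hK1
    have := ih G₀ hG₀ (K * u) (hmu.trans hu) T (by rwa [← mul_assoc, ← pow_succ])
      (a + s * (2 * β ^ (t + 1))) (by positivity) fun U' hU' x hx => ?_
    · push_cast
      linarith
    rw [dis_eq hmu (hU' ▸ hu)]
    have pt : ∀ U ∈ powersetCard u U', ∀ x', dis m U (fun y => Φ (mg U' x (mg U x' y))) ≤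
        a + ∑ i, if Nice t fun y => new i (ι (mg U' x (mg U x' y))) then (0 : ℝ) else 1 := by
      intro U hU x'
      obtain ⟨hUU, hUu⟩ := mem_powersetCard.1 hU
      by_cases hall : ∀ i, Nice t fun y => new i (ι (mg U' x (mg U x' y)))
      · simp only [hall, if_true, sum_const_zero, add_zero]
        simp only [mg_mg hUU] at hall ⊢
        refine h U hUu _ ?_
        rintro g (hg | ⟨i, rfl⟩)
        · simpa only [mg_mg hUU] using (hx g hg).mg U x'
        · exact hall i
      · obtain ⟨i, hi⟩ := not_forall.1 hall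
        refine (dis_le_one _ _ _).trans (le_add_of_nonneg_of_le ha (le_trans ?_ (single_le_sum
          (f := fun i => if Nice t fun y => new i (ι (mg U' x (mg U x' y))) then (0 : ℝ) else 1)
          (fun _ _ => by split_ifs <;> norm_num) (mem_univ i))))
        rw [if_neg hi]
    refine (expect_le_expect fun U hU => expect_le_expect fun x' _ => pt U hU x').trans ?_
    simp only [expect_add_distrib, Fintype.expect_const, expect_sum_comm]
    rw [expect_const (powersetCard_nonempty.2 (hU' ▸ hu))]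
    refine add_le_add le_rfl ((sum_le_sum fun i _ => gate_switch hβ0 hβ1 hK hU'.ge (hU' ▸ hu)
      (hnew i) (ι := fun y => ι (mg U' x y)) hx).trans (le_of_eq ?_))
    rw [sum_const, card_univ, Fintype.card_fin, nsmul_eq_mul]

end

theorem dis_comp {k m : ℕ} (T : Finset (Fin n)) (f : Fin k → (Pos n → Bool) → SignType)
    (ψ : (Fin k → SignType) → Bool) :
    dis m T (fun y => ψ fun j => f j y) ≤ ∑ j, dis m T (f j) := by
  simp only [dis, ← expect_sum_comm]
  refine expect_le_expect fun S _ => expect_le_expect fun y _ => ?_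
  split_ifs with h
  · exact sum_nonneg fun _ _ => by split_ifs <;> norm_num
  · have : ∃ j, f j (plant S y) ≠ f j y := by
      by_contra hc
      push Not at hc
      exact h (by simp only [hc])
    obtain ⟨j, hj⟩ := this
    refine le_trans ?_ (single_le_sum (f := fun j => if f j (plant S y) = f j y then (0 : ℝ) else 1)
      (fun _ _ => by split_ifs <;> norm_num) (mem_univ j))
    rw [if_neg hj]

theorem success_le {m : ℕ} (hm : m ≤ n) (τ : Test n) {a : ℝ}
    (h1 : ∀ y, dis m univ (fun x => τ (modelA x) (modelA y)) ≤ a)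
    (h2 : ∀ y, dis m univ (fun x => τ (modelA y) (modelA x)) ≤ a) :
    success m τ ≤ 1 / 2 + a := by
  have hne : (powersetCard m (univ : Finset (Fin n))).Nonempty :=
    powersetCard_nonempty.2 (by simpa using hm)
  have e1 : success m τ ≤ 𝔼 S ∈ powersetCard m (univ : Finset (Fin n)), 𝔼 x : Pos n → Bool,
      𝔼 y : Pos n → Bool, (1 / 2 * (if τ (modelA x) (modelA y) = true then (1 : ℝ) else 0) +
        1 / 2 * (if τ (modelA y) (modelA x) = false then (1 : ℝ) else 0) +
        1 / 2 * (if τ (modelA (plant S x)) (modelA y) = τ (modelA x) (modelA y) then (0 : ℝ) else 1) +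
        1 / 2 * (if τ (modelA y) (modelA (plant S x)) = τ (modelA y) (modelA x) then (0 : ℝ) else 1)) := by
    refine expect_le_expect fun S _ => expect_le_expect fun x _ => expect_le_expect fun y _ => ?_
    rw [modelB_eq]
    cases τ (modelA (plant S x)) (modelA y) <;> cases τ (modelA x) (modelA y) <;>
      cases τ (modelA y) (modelA (plant S x)) <;> cases τ (modelA y) (modelA x) <;> norm_num
  simp only [expect_add_distrib, ← mul_expect, expect_const hne] at e1
  have e2 : 𝔼 x : Pos n → Bool, 𝔼 y : Pos n → Bool,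
      (if τ (modelA x) (modelA y) = true then (1 : ℝ) else 0) +
      𝔼 x : Pos n → Bool, 𝔼 y : Pos n → Bool,
        (if τ (modelA y) (modelA x) = false then (1 : ℝ) else 0) = 1 := by
    rw [expect_comm univ univ fun x y : Pos n → Bool =>
      if τ (modelA y) (modelA x) = false then (1 : ℝ) else 0]
    simp only [← expect_add_distrib]
    have : ∀ x y : Pos n → Bool, (if τ (modelA x) (modelA y) = true then (1 : ℝ) else 0) +
        (if τ (modelA x) (modelA y) = false then (1 : ℝ) else 0) = 1 := fun x y => by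
      cases τ (modelA x) (modelA y) <;> norm_num
    simp only [this, Fintype.expect_const]
  have e3 : ∀ Φ : (Pos n → Bool) → (Pos n → Bool) → Bool, (∀ y, dis m univ (Φ y) ≤ a) →
      𝔼 S ∈ powersetCard m (univ : Finset (Fin n)), 𝔼 x : Pos n → Bool, 𝔼 y : Pos n → Bool,
        (if Φ y (plant S x) = Φ y x then (0 : ℝ) else 1) ≤ a := fun Φ h => by
    rw [expect_congr rfl fun S _ => expect_comm univ univ _, expect_comm]
    exact expect_le univ_nonempty fun y _ => h y
  have e4 := e3 (fun y x => τ (modelA x) (modelA y)) h1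
  have e5 := e3 (fun y x => τ (modelA y) (modelA x)) h2
  linarith

theorem main_bound {n m d s D k t K p : ℕ} {β : ℝ} (hD : 1 ≤ D) (ht : 2 ≤ t) (hm : 1 ≤ m) (hp : 1 ≤ p)
    (hK1 : 1 ≤ K) (hβ0 : 0 < β) (hβ1 : β ≤ 1) (hK : 2 * (2 ^ t * 4 ^ (2 * t) ^ 2) ≤ β * (K - 1))
    (hn : K ^ d * ((36 * p) ^ (9 * (D * t.choose 2)) * m ^ 2) ≤ n)
    (τ : Test n) (hτ : IsThresholdTest d s D k τ) :
    success m τ ≤
      1 / 2 + (k * (6606 * (D * t.choose 2 : ℕ) ^ 3 / p) + d * (s * (2 * β ^ (t + 1)))) := by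
  obtain ⟨G, hG, r, γ, P, ψ, hγ, hP, hτ⟩ := hτ
  have hmu : m ≤ (36 * p) ^ (9 * (D * t.choose 2)) * m ^ 2 :=
    le_trans (by nlinarith) (Nat.le_mul_of_pos_left (m ^ 2) (by positivity))
  have hmn : m ≤ n := hmu.trans (le_trans (Nat.le_mul_of_pos_left _ (by positivity)) hn)
  have key : ∀ ι : (Pos n → Bool) → Bool × Fin n × Fin n → Bool, (∀ i, Nice t fun y => ι y i) →
      dis m univ (fun x => ψ fun j => SignType.sign
        (MvPolynomial.eval (fun i => if γ i (ι x) = true then (1 : ℝ) else 0) (P j))) ≤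
        k * (6606 * (D * t.choose 2 : ℕ) ^ 3 / p) + d * (s * (2 * β ^ (t + 1))) := fun ι hι => by
    refine layers hβ0 hβ1 hK hK1 hι _ d G hG _ hmu univ (by simpa using hn) _ (by positivity)
      fun U hU x hx => (dis_comp U _ ψ).trans ?_
    refine (sum_le_sum fun j _ => ptf_bound (Nat.mul_pos hD (Nat.choose_pos ht)) hm hp hU.ge
      (LD.eval (fun i => (hx _ (hγ i)).2) (hP j))).trans (le_of_eq ?_)
    rw [sum_const, card_univ, Fintype.card_fin, nsmul_eq_mul]
  refine success_le hmn τ (fun y => ?_) fun y => ?_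
  · simp only [hτ]
    refine key _ fun ⟨a, i, j⟩ => ?_
    cases a
    · exact Nice.const t (decide (modelA y i j = 1))
    · exact nice_entry ht i j
  · simp only [hτ]
    refine key _ fun ⟨a, i, j⟩ => ?_
    cases a
    · exact nice_entry ht i j
    · exact Nice.const t (decide (modelA y i j = 1))

end Pool.Agent.Lib.MP_21ae8a_lc
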