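import Pool.Agent.Lib.MP_21ae8a_lc.Anti

/-!
Lindeberg replacement: anti-concentration on the cube for polynomials with small influences.
-/

set_option autoImplicit false
set_option linter.unusedSectionVars false

namespace Pool.Agent.Lib.MP_21ae8a_lc

open Finset
open scoped BigOperators

theorem taylor_psi : ∃ φ : ℝ → ℝ, ∀ a t : ℝ,
    |(1 / (1 + (a + t) ^ 2) + 1 / (1 + (a - t) ^ 2)) / 2 - 1 / (1 + a ^ 2) - t ^ 2 * φ a| ≤ t ^ 4 := by
  have n1 : ∀ x : ℝ, 1 ≤ ‖(1 + x * Complex.I : ℂ)‖ := fun x => by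
    simpa using (le_abs_self _).trans (Complex.abs_re_le_norm (1 + x * Complex.I))
  have n2 : ∀ x : ℝ, (1 + x * Complex.I : ℂ) ≠ 0 := fun x =>
    norm_pos_iff.1 (zero_lt_one.trans_le (n1 x))
  have n3 : ∀ x : ℝ, (1 / (1 + x * Complex.I : ℂ)).re = 1 / (1 + x ^ 2) := fun x => by
    simp [Complex.inv_re, Complex.normSq_apply, sq]
  refine ⟨fun a => (-(1 / (1 + a * Complex.I) ^ 3)).re, fun a t => ?_⟩
  obtain ⟨z, hz⟩ : ∃ z : ℂ, z = 1 + a * Complex.I := ⟨_, rfl⟩
  obtain ⟨w, hw⟩ : ∃ w : ℂ, w = t * Complex.I := ⟨_, rfl⟩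
  have e1 : (1 + (a + t : ℝ) * Complex.I : ℂ) = z + w := by rw [hz, hw]; push_cast; ring
  have e2 : (1 + (a - t : ℝ) * Complex.I : ℂ) = z - w := by rw [hz, hw]; push_cast; ring
  have e3 : w ^ 2 = -(t ^ 2 : ℝ) := by rw [hw, mul_pow, Complex.I_sq]; push_cast; ring
  have h1 := n2 (a + t)
  have h2 := n2 (a - t)
  have h3 := n2 a
  have k1 := n1 (a + t)
  have k2 := n1 (a - t)
  have k3 := n1 a
  rw [← n3, ← n3, ← n3]
  beta_reduce
  rw [e1] at h1 k1 ⊢
  rw [e2] at h2 k2 ⊢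
  rw [← hz] at h3 k3 ⊢
  have e4 : (1 / (z + w) + 1 / (z - w)) / (2 : ℝ) - 1 / z - (t ^ 2 : ℝ) * -(1 / z ^ 3) =
      w ^ 4 / (z ^ 3 * ((z + w) * (z - w))) := by
    rw [← neg_mul_comm, ← e3]
    push_cast
    field_simp
    ring
  have e5 := congrArg Complex.re e4
  rw [Complex.sub_re, Complex.sub_re, Complex.div_ofReal_re, Complex.add_re,
    Complex.re_ofReal_mul] at e5
  rw [e5]
  refine (Complex.abs_re_le_norm _).trans ?_
  rw [norm_div, norm_pow, hw, norm_mul, Complex.norm_I, mul_one, Complex.norm_real,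
    Real.norm_eq_abs, Even.pow_abs (by decide), ← hw, norm_mul, norm_mul, norm_pow]
  exact div_le_self (by positivity)
    (one_le_mul_of_one_le_of_one_le (one_le_pow₀ k3) (one_le_mul_of_one_le_of_one_le k1 k2))

variable {J : Type} [Fintype J] [DecidableEq J] {K : ℕ} [NeZero K]

/-- Hybrids between signs and signed cosines. -/
noncomputable def hyb (c : Finset J → ℝ) (S : Finset J) (b : J → Bool) (θ : J → ZMod K) : ℝ :=
  ∑ α, (c α * ∏ j ∈ α ∩ S, XX (θ j)) * chi α b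

theorem lind_step (hK : 3 ≤ K) {D : ℕ} {c : Finset J → ℝ} (hc : ∀ α, D < #α → c α = 0)
    {S : Finset J} {i : J} (hi : i ∉ S) :
    𝔼 θ : J → ZMod K, 𝔼 b, 1 / (1 + hyb c S b θ ^ 2) ≤
      𝔼 θ : J → ZMod K, 𝔼 b, 1 / (1 + hyb c (insert i S) b θ ^ 2) +
        5 * 36 ^ D * (∑ α, if i ∈ α then c α ^ 2 else 0) ^ 2 := by
  obtain ⟨φ, hφ⟩ := taylor_psi
  let A : (J → Bool) → (J → ZMod K) → ℝ := fun b θ =>
    ∑ α, (if i ∈ α then 0 else c α * ∏ j ∈ α ∩ S, XX (θ j)) * chi α b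
  let g : (J → Bool) → (J → ZMod K) → ℝ := fun b θ =>
    ∑ α, (if i ∈ α then c α * ∏ j ∈ α ∩ S, XX (θ j) else 0) * chi α b
  have e1 : ∀ b θ, hyb c S b θ = A b θ + 1 * g b θ := fun b θ => by
    rw [one_mul, ← sum_add_distrib]
    exact sum_congr rfl fun α _ => by split_ifs <;> ring
  have e2 : ∀ b θ, hyb c (insert i S) b θ = A b θ + XX (θ i) * g b θ := fun b θ => by
    rw [mul_sum, ← sum_add_distrib]
    refine sum_congr rfl fun α _ => ?_
    split_ifs with h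
    · rw [inter_insert_of_mem h, prod_insert fun h' => hi (mem_inter.1 h').2]
      ring
    · rw [inter_insert_of_notMem h]
      ring
  have f1 : ∀ b θ, A (fl i b) θ = A b θ := fun b θ => sum_congr rfl fun α _ => by
    split_ifs with h
    · simp
    · rw [chi_fl_of_notMem h]
  have f2 : ∀ b θ, g (fl i b) θ = -g b θ := fun b θ => by
    rw [← sum_neg_distrib]
    refine sum_congr rfl fun α _ => ?_
    split_ifs with h
    · rw [chi_fl_of_mem h, mul_neg]
    · simp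
  have u0 : ∀ (θ : J → ZMod K) a (α : Finset J),
      ∏ j ∈ α ∩ S, XX (Function.update θ i a j) = ∏ j ∈ α ∩ S, XX (θ j) := fun θ a α =>
    prod_congr rfl fun j hj => by
      rw [Function.update_of_ne (ne_of_mem_of_not_mem (mem_inter.1 hj).2 hi)]
  have sym : ∀ θ (x : ℝ), 𝔼 b, 1 / (1 + (A b θ + x * g b θ) ^ 2) =
      𝔼 b, (1 / (1 + (A b θ + x * g b θ) ^ 2) + 1 / (1 + (A b θ - x * g b θ) ^ 2)) / 2 := by
    intro θ x
    have := expect_fl i fun b => 1 / (1 + (A b θ + x * g b θ) ^ 2)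
    simp only [f1, f2, mul_neg, ← sub_eq_add_neg] at this
    rw [← expect_div, expect_add_distrib, this]
    ring
  obtain ⟨I, hI⟩ : ∃ I, I = ∑ α, if i ∈ α then c α ^ 2 else 0 := ⟨_, rfl⟩
  have g4 : ∀ θ, 𝔼 b, g b θ ^ 4 ≤ 36 ^ D * I ^ 2 := fun θ => by
    have h1 : LD D fun b => g b θ := LD.of_coeff fun α h => by simp [hc α h]
    have h2 : 𝔼 b, g b θ ^ 2 ≤ 2 ^ D * I := by
      rw [expect_sq, hI, mul_sum]
      refine sum_le_sum fun α _ => ?_
      split_ifs
      · by_cases hα : D < #α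
        · simp [hc α hα]
        rw [mul_pow, mul_comm, ← prod_pow]
        refine mul_le_mul_of_nonneg_right ((prod_le_prod (fun _ _ => sq_nonneg _)
          fun _ _ => XX_sq_le _).trans ?_) (sq_nonneg _)
        rw [prod_const]
        exact pow_le_pow_right₀ (by norm_num) ((card_le_card inter_subset_left).trans (not_lt.1 hα))
      · simp
    refine h1.bonami.trans ((pow_le_pow_left₀ (mul_nonneg (by positivity)
      (expect_nonneg fun _ _ => sq_nonneg _))
      (mul_le_mul_of_nonneg_left h2 (by positivity)) 2).trans (le_of_eq ?_))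
    rw [show (36 : ℝ) = (3 * 2) ^ 2 by norm_num, ← pow_mul, mul_comm 2 D, pow_mul, mul_pow 3 2]
    ring
  have up : ∀ θ, 𝔼 b, 1 / (1 + hyb c S b θ ^ 2) ≤
      𝔼 b, 1 / (1 + A b θ ^ 2) + 𝔼 b, g b θ ^ 2 * φ (A b θ) + 36 ^ D * I ^ 2 := fun θ => by
    simp only [e1]
    rw [sym, ← expect_add_distrib]
    refine le_trans ?_ (add_le_add le_rfl (g4 θ))
    rw [← expect_add_distrib]
    refine expect_le_expect fun b _ => ?_
    have := (abs_le.1 (hφ (A b θ) (1 * g b θ))).2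
    simp only [one_mul] at this ⊢
    linarith
  have lo : ∀ θ, 𝔼 b, 1 / (1 + A b θ ^ 2) + XX (θ i) ^ 2 * 𝔼 b, g b θ ^ 2 * φ (A b θ) ≤
      𝔼 b, 1 / (1 + hyb c (insert i S) b θ ^ 2) + 4 * (36 ^ D * I ^ 2) := fun θ => by
    simp only [e2]
    rw [sym]
    refine le_trans ?_ (add_le_add le_rfl (mul_le_mul_of_nonneg_left (g4 θ) (by norm_num)))
    rw [mul_expect, mul_expect, ← expect_add_distrib, ← expect_add_distrib]
    refine expect_le_expect fun b _ => ?_
    have h1 := (abs_le.1 (hφ (A b θ) (XX (θ i) * g b θ))).1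
    have h2 : XX (θ i) ^ 4 ≤ 4 := by nlinarith [XX_sq_le (θ i), sq_nonneg (XX (θ i))]
    have h3 := mul_le_mul_of_nonneg_right h2 (show 0 ≤ g b θ ^ 4 by positivity)
    rw [mul_pow, mul_pow] at h1
    linarith
  have mid : 𝔼 θ : J → ZMod K, XX (θ i) ^ 2 * 𝔼 b, g b θ ^ 2 * φ (A b θ) =
      𝔼 θ : J → ZMod K, 𝔼 b, g b θ ^ 2 * φ (A b θ) := by
    rw [← expect_update i]
    refine expect_congr rfl fun θ _ => ?_
    simp only [Function.update_self, A, g, u0]
    rw [← expect_mul, expect_XX_sq hK, one_mul]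
  have h1 := expect_le_expect fun θ (_ : θ ∈ univ) => up θ
  have h2 := expect_le_expect fun θ (_ : θ ∈ univ) => lo θ
  simp only [expect_add_distrib, Fintype.expect_const] at h1 h2
  rw [← hI]
  linarith

theorem lind (hK : 3 ≤ K) {D : ℕ} {c : Finset J → ℝ} (hc : ∀ α, D < #α → c α = 0)
    (S : Finset J) : 𝔼 θ : J → ZMod K, 𝔼 b, 1 / (1 + hyb c ∅ b θ ^ 2) ≤
      𝔼 θ : J → ZMod K, 𝔼 b, 1 / (1 + hyb c S b θ ^ 2) +
        5 * 36 ^ D * ∑ i ∈ S, (∑ α, if i ∈ α then c α ^ 2 else 0) ^ 2 := by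
  induction S using Finset.induction_on with
  | empty => simp
  | insert i S hi ih =>
    rw [sum_insert hi, mul_add]
    linarith [lind_step hK hc hi]

theorem anti_cube {D : ℕ} (hD : 1 ≤ D) {ε : ℝ} (hε : 0 < ε) {c : Finset J → ℝ}
    (hc : ∀ α, D < #α → c α = 0) {L : ℝ} (hL0 : 0 < L)
    (hL : L = ε * ((ε / 36) ^ (5 * D) * ∑ α, if α = ∅ then 0 else c α ^ 2)) :
    𝔼 b, (if (∑ α, c α * chi α b) ^ 2 ≤ L then (1 : ℝ) else 0) ≤ 2 * (3300 * D ^ 3 * ε + ε +
      5 * 36 ^ D * (∑ i, (∑ α, if i ∈ α then c α ^ 2 else 0) ^ 2) / L ^ 2) := by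
  obtain ⟨K, hK⟩ : ∃ K : ℕ, K = ⌈1 / ε⌉₊ + 3 := ⟨_, rfl⟩
  have : NeZero K := ⟨by omega⟩
  have hK1 : 1 ≤ ε * K := by
    rw [← div_le_iff₀' hε, hK]
    push_cast
    linarith [Nat.le_ceil (1 / ε)]
  have hs : √L ^ 2 = L := Real.sq_sqrt hL0.le
  have h1 := lind (K := K) (D := D) (by omega) (c := fun α => c α / √L)
    (fun α h => by simp [hc α h]) univ
  have e0 : ∀ S b (θ : J → ZMod K), hyb (fun α => c α / √L) S b θ ^ 2 = hyb c S b θ ^ 2 / L := by
    intro S b θ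
    rw [← hs, ← div_pow, hs, hyb, hyb, sum_div]
    congr 1
    exact sum_congr rfl fun α _ => by ring
  have e1 : ∀ b (θ : J → ZMod K), hyb c ∅ b θ = ∑ α, c α * chi α b := fun b θ => by simp [hyb]
  have e2 : ∀ b (θ : J → ZMod K), hyb c univ b θ = Fb (fun α => c α * chi α b) ∅ θ := fun b θ =>
    sum_congr rfl fun α _ => by simp [Zb]; ring
  have e3 : ∑ i, (∑ α, if i ∈ α then (c α / √L) ^ 2 else 0) ^ 2 =
      (∑ i, (∑ α, if i ∈ α then c α ^ 2 else 0) ^ 2) / L ^ 2 := by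
    rw [sum_div]
    refine sum_congr rfl fun i _ => ?_
    rw [← div_pow, sum_div]
    congr 1
    exact sum_congr rfl fun α _ => by split_ifs <;> simp [div_pow, hs]
  simp only [e0, e1, e2, e3, Fintype.expect_const] at h1
  have h2 := anti_torus (K := K) hD hε hK1 hc
  generalize (ε / 36) ^ (5 * D) * ∑ α, (if α = ∅ then 0 else c α ^ 2) = r at hL h2
  have h3 : 𝔼 θ : J → ZMod K, 𝔼 b, 1 / (1 + Fb (fun α => c α * chi α b) ∅ θ ^ 2 / L) ≤
      3300 * D ^ 3 * ε + ε := by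
    refine le_trans ?_ (add_le_add h2 le_rfl)
    rw [expect_comm, ← Fintype.expect_const (ι := J → Bool) ε, ← expect_add_distrib]
    refine expect_le_expect fun b _ => ?_
    rw [← Fintype.expect_const (ι := J → ZMod K) ε, ← expect_add_distrib]
    refine expect_le_expect fun θ _ => ?_
    have h4 := div_nonneg (sq_nonneg (Fb (fun α => c α * chi α b) ∅ θ)) hL0.le
    split_ifs with h
    · refine le_trans ((div_le_one (by positivity)).2 (by linarith)) (by linarith)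
    · rw [zero_add, div_le_iff₀ (by positivity), mul_add, ← mul_div_assoc]
      have : 1 ≤ ε * Fb (fun α => c α * chi α b) ∅ θ ^ 2 / L := by
        rw [one_le_div hL0, hL]
        exact mul_le_mul_of_nonneg_left (not_lt.1 h) hε.le
      linarith
  have h4 : 𝔼 b, (if (∑ α, c α * chi α b) ^ 2 ≤ L then (1 : ℝ) else 0) ≤
      2 * 𝔼 b, 1 / (1 + (∑ α, c α * chi α b) ^ 2 / L) := by
    rw [mul_expect]
    refine expect_le_expect fun b _ => ?_
    split_ifs with h
    · rw [mul_one_div, one_le_div (by positivity)]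
      linarith [(div_le_one hL0).2 h]
    · positivity
  rw [mul_div_assoc]
  linarith

end Pool.Agent.Lib.MP_21ae8a_lc
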