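import Pool.Agent.Lib.MP_21ae8a_lc.Walsh

/-!
Resampling blocks of coordinates.
-/

set_option autoImplicit false
set_option linter.unusedSectionVars false

namespace Pool.Agent.Lib.MP_21ae8a_lc

open Finset
open scoped BigOperators

variable {J : Type} [Fintype J] [DecidableEq J]

/-- Take `y` on `B` and `x` elsewhere. -/
def rs (B : Finset J) (x y : J → Bool) : J → Bool := fun e => if e ∈ B then y e else x e

theorem expect_rs2 (B : Finset J) (H : (J → Bool) → (J → Bool) → ℝ) :
    𝔼 x, 𝔼 y, H (rs B x y) (rs B y x) = 𝔼 x, 𝔼 y, H x y := by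
  have h : Function.Involutive fun p : (J → Bool) × (J → Bool) =>
      (rs B p.1 p.2, rs B p.2 p.1) := fun p => by
    refine Prod.ext (funext fun e => ?_) (funext fun e => ?_) <;>
      by_cases he : e ∈ B <;> simp [rs, he]
  have := Fintype.expect_bijective _ h.bijective (fun p => H (rs B p.1 p.2) (rs B p.2 p.1))
    (fun p => H p.1 p.2) fun _ => rfl
  rwa [← univ_product_univ, expect_product, expect_product] at this

theorem expect_rs (B : Finset J) (F : (J → Bool) → ℝ) : 𝔼 x, 𝔼 y, F (rs B x y) = 𝔼 y, F y := by
  simpa only [Fintype.expect_const] using expect_rs2 B fun x _ => F x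

theorem expect_update {I κ : Type} [Fintype I] [DecidableEq I] [Fintype κ] [Nonempty κ] (i : I)
    (H : (I → κ) → ℝ) : 𝔼 π, 𝔼 a, H (Function.update π i a) = 𝔼 π, H π := by
  have h : Function.Involutive fun p : (I → κ) × κ => (Function.update p.1 i p.2, p.1 i) :=
    fun p => by simp
  have := Fintype.expect_bijective _ h.bijective (fun p => H (Function.update p.1 i p.2))
    (fun p => H p.1) fun _ => rfl
  rw [← univ_product_univ, expect_product, expect_product] at this
  simpa only [Fintype.expect_const] using this

end Pool.Agent.Lib.MP_21ae8a_lc
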