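import Pool.Agent.Lib.MP_21ae8a_lc.Avg
import Pool.Agent.Lib.MP_21ae8a_lc.Restrict

/-!
Second moments of low-degree polynomials under the planted distribution.
-/

set_option autoImplicit false

namespace Pool.Agent.Lib.MP_21ae8a_lc

open Finset
open scoped BigOperators

variable {n : ℕ}

/-- The indices met by a set of positions. -/
def V (A : Finset (Pos n)) : Finset (Fin n) := A.biUnion fun e => {e.1.1, e.1.2}

theorem subset_E_iff {A : Finset (Pos n)} {S : Finset (Fin n)} : A ⊆ E S ↔ V A ⊆ S := by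
  rw [V, biUnion_subset]
  refine ⟨fun h e he => ?_, fun h e he => ?_⟩
  · exact insert_subset (mem_E.1 (h he)).1 (singleton_subset_iff.2 (mem_E.1 (h he)).2)
  · exact mem_E.2 ⟨h e he (by simp), h e he (by simp)⟩

theorem card_V_le (A : Finset (Pos n)) : #(V A) ≤ 2 * #A := by
  rw [mul_comm]
  exact card_biUnion_le_card_mul _ _ _ fun e _ => card_le_two

theorem sum_V_le (T : Finset (Fin n)) (q : ℕ) {c : ℝ} (hc : 0 ≤ c) :
    ∑ A : Finset (Pos n) with #A ≤ q, (if V A ⊆ T then c ^ #(V A) else 0) ≤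
      (1 + 2 ^ (2 * q) * c) ^ #T := by
  rw [sum_comp (fun W : Finset (Fin n) => if W ⊆ T then c ^ #W else 0) V]
  have h1 : (1 + 2 ^ (2 * q) * c) ^ #T =
      ∑ W : Finset (Fin n), if W ⊆ T then (2 ^ (2 * q) * c) ^ #W else 0 := by
    rw [← prod_const, prod_one_add, ← sum_filter]
    exact sum_congr (by ext W; simp) fun W _ => prod_const _
  rw [h1]
  refine le_trans (sum_le_sum fun W hW => ?_) (sum_le_sum_of_subset_of_nonneg (subset_univ _)
    fun W _ _ => by positivity)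
  rw [nsmul_eq_mul]
  obtain ⟨A, hA, rfl⟩ := mem_image.1 hW
  have h2 : #(V A) ≤ 2 * q := (card_V_le A).trans (Nat.mul_le_mul_left _ (mem_filter.1 hA).2)
  have h3 : #{a ∈ ({A : Finset (Pos n) | #A ≤ q} : Finset _) | V a = V A} ≤
      (2 ^ (2 * q)) ^ #(V A) := by
    refine le_trans (card_le_card (t := (E (V A)).powerset) fun a ha => ?_) ?_
    · exact mem_powerset.2 (subset_E_iff.2 (mem_filter.1 ha).2.le)
    · rw [card_powerset, ← pow_mul]
      refine Nat.pow_le_pow_right (by norm_num) ((card_E_le _).trans ?_)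
      rw [sq]
      exact Nat.mul_le_mul_right _ h2
  split_ifs
  · rw [mul_pow]
    exact mul_le_mul_of_nonneg_right (by exact_mod_cast h3) (by positivity)
  · simp

theorem planted_sq {D m : ℕ} {T : Finset (Fin n)} (hm : 1 ≤ m) (hT : 16 ^ D * m ^ 2 ≤ #T)
    {g : (Pos n → Bool) → ℝ} (hg : LD D g) :
    𝔼 S ∈ powersetCard m T, 𝔼 y, g (plant S y) ^ 2 ≤
      2 * 3 ^ D * 𝔼 y, g y ^ 2 := by
  have hmT : m ≤ #T :=
    le_trans (le_trans (by nlinarith) (Nat.le_mul_of_pos_left (m ^ 2) (by positivity))) hT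
  have hT0 : 0 < #T := by omega
  obtain ⟨b, hb, hgb⟩ := (hg.pow 2).coeff
  set π : Finset (Pos n) → ℝ := fun A => 𝔼 S ∈ powersetCard m T, if A ⊆ E S then (1 : ℝ) else 0
    with hπ
  have e1 : 𝔼 S ∈ powersetCard m T, 𝔼 y, g (plant S y) ^ 2 =
      ∑ A with #A ≤ 2 * D, b A * π A := by
    simp only [hgb, expect_sum_comm, ← mul_expect, expect_chi_plant]
    rw [sum_filter]
    refine sum_congr rfl fun A _ => ?_
    split_ifs with h
    · rfl
    · rw [hb A (not_le.1 h), zero_mul]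
  have e2 : ∑ A with #A ≤ 2 * D, b A ^ 2 ≤ (3 ^ D * 𝔼 y, g y ^ 2) ^ 2 := by
    refine le_trans (sum_le_sum_of_subset_of_nonneg (subset_univ _) fun _ _ _ => sq_nonneg _) ?_
    rw [← expect_sq]
    simp only [← hgb, ← pow_mul]
    exact hg.bonami
  obtain ⟨c, hc⟩ : ∃ c : ℝ, c = ((m : ℝ) / #T) ^ 2 := ⟨_, rfl⟩
  have hc0 : 0 ≤ c := hc ▸ sq_nonneg _
  have e3 : ∑ A with #A ≤ 2 * D, π A ^ 2 ≤ 2 ^ 2 := by
    refine le_trans (sum_le_sum fun A _ => ?_) ((sum_V_le T (2 * D) hc0).trans ?_)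
    · have h0 : 0 ≤ π A := expect_nonneg fun _ _ => by split_ifs <;> norm_num
      have h1 : π A ≤ if V A ⊆ T then ((m : ℝ) / #T) ^ #(V A) else 0 := by
        simp only [hπ, subset_E_iff]
        exact prob_superset hmT hT0 _
      refine (pow_le_pow_left₀ h0 h1 2).trans (le_of_eq ?_)
      split_ifs
      · rw [hc, ← pow_mul, ← pow_mul, mul_comm]
      · norm_num
    · have h16 : (2 : ℝ) ^ (2 * (2 * D)) = 16 ^ D := by
        rw [← mul_assoc, pow_mul]; norm_num
      rw [h16]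
      have h2 : (1 + 16 ^ D * c) ^ #T ≤ Real.exp (16 ^ D * c) ^ #T :=
        pow_le_pow_left₀ (by positivity) (by linarith [Real.add_one_le_exp (16 ^ D * c)]) _
      have h3 : (#T : ℝ) * (16 ^ D * c) ≤ 1 := by
        have : (0 : ℝ) < #T := by exact_mod_cast hT0
        have h4 : (16 : ℝ) ^ D * m ^ 2 ≤ #T := by exact_mod_cast hT
        rw [hc, div_pow, ← mul_div_assoc, ← mul_div_assoc, div_le_one (by positivity)]
        nlinarith
      rw [← Real.exp_nat_mul] at h2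
      linarith [Real.exp_le_exp.2 h3, Real.exp_one_lt_d9]
  have h0 : 0 ≤ 𝔼 y, g y ^ 2 := expect_nonneg fun _ _ => sq_nonneg _
  rw [e1]
  refine (abs_le_of_sq_le_sq' ((sum_mul_sq_le_sq_mul_sq _ _ _).trans ?_) (by positivity)).2
  calc _ ≤ (3 ^ D * 𝔼 y, g y ^ 2) ^ 2 * 2 ^ 2 :=
        mul_le_mul e2 e3 (sum_nonneg fun _ _ => sq_nonneg _) (sq_nonneg _)
    _ = _ := by ring

theorem sign_ne {μ p q : ℝ} (h : SignType.sign (μ + p) ≠ SignType.sign (μ + q)) :
    μ ^ 2 ≤ p ^ 2 + q ^ 2 := by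
  by_contra hc
  push Not at hc
  apply h
  rcases lt_trichotomy μ 0 with h0 | h0 | h0
  · rw [sign_neg (by nlinarith [sq_nonneg q]), sign_neg (by nlinarith [sq_nonneg p])]
  · subst h0
    nlinarith [sq_nonneg p, sq_nonneg q]
  · rw [sign_pos (by nlinarith [sq_nonneg q]), sign_pos (by nlinarith [sq_nonneg p])]

end Pool.Agent.Lib.MP_21ae8a_lc
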