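import Pool.Agent.Lib.MP_21ae8a_lc.PTF
import Pool.Agent.Lib.MP_21ae8a_lc.Lindeberg

/-!
A regularity argument: planting a small all-ones corner rarely changes the sign of a polynomial,
with a polynomial dependence on the degree.
-/

set_option autoImplicit false
set_option linter.unusedSectionVars false

namespace Pool.Agent.Lib.MP_21ae8a_lc

open Finset
open scoped BigOperators

section
variable {J : Type} [Fintype J] [DecidableEq J]

/-- Variance. -/
noncomputable def vr (f : (J → Bool) → ℝ) : ℝ := 𝔼 y, (f y - 𝔼 z, f z) ^ 2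

/-- Influence. -/
noncomputable def infl (e : J) (f : (J → Bool) → ℝ) : ℝ := 𝔼 y, ((f y - f (fl e y)) / 2) ^ 2

theorem vr_eq (c : Finset J → ℝ) :
    vr (fun x => ∑ α, c α * chi α x) = ∑ α, if α = ∅ then 0 else c α ^ 2 := by
  have h1 : 𝔼 z, ∑ α, c α * chi α z = c ∅ := by
    simp [expect_sum_comm, ← mul_expect, expect_chi]
  have h2 : ∀ y, ∑ α, c α * chi α y - c ∅ = ∑ α, (if α = ∅ then 0 else c α) * chi α y := fun y => by
    have : c ∅ = ∑ α : Finset J, if α = ∅ then c α * chi α y else 0 := by simp [chi]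
    rw [this, ← sum_sub_distrib]
    exact sum_congr rfl fun α _ => by split_ifs <;> ring
  simp only [vr, h1, h2, expect_sq]
  exact sum_congr rfl fun α _ => by split_ifs <;> simp

theorem pe_eq (c : Finset J → ℝ) (e : J) (y : J → Bool) :
    (∑ α, c α * chi α y - ∑ α, c α * chi α (fl e y)) / 2 =
      ∑ α, (if e ∈ α then c α else 0) * chi α y := by
  rw [← sum_sub_distrib, sum_div]
  refine sum_congr rfl fun α _ => ?_
  split_ifs with h
  · rw [chi_fl_of_mem h]
    ring
  · rw [chi_fl_of_notMem h]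
    ring

theorem infl_eq (c : Finset J → ℝ) (e : J) :
    infl e (fun x => ∑ α, c α * chi α x) = ∑ α, if e ∈ α then c α ^ 2 else 0 := by
  simp only [infl, pe_eq, expect_sq]
  exact sum_congr rfl fun α _ => by split_ifs <;> simp

theorem chi_rs (B A : Finset J) (x y : J → Bool) :
    chi A (rs B x y) = chi (A \ B) x * chi (A ∩ B) y := by
  have : chi A (rs B x y) = chi (A \ B) (rs B x y) * chi (A ∩ B) (rs B x y) := by
    rw [chi, chi, chi, ← prod_union (disjoint_sdiff_inter A B), sdiff_union_inter]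
  rw [this]
  congr 1
  · exact prod_congr rfl fun e he => by rw [rs, if_neg (mem_sdiff.1 he).2]
  · exact prod_congr rfl fun e he => by rw [rs, if_pos (mem_inter.1 he).2]

theorem LD.rs {D : ℕ} {f : (J → Bool) → ℝ} (hf : LD D f) (B : Finset J) (x : J → Bool) :
    LD D fun y => f (rs B x y) := by
  obtain ⟨a, ha, hfa⟩ := hf.coeff
  simp only [hfa, chi_rs, ← mul_assoc]
  refine LD.sum _ fun A _ => ?_
  by_cases h : #A ≤ D
  · exact (LD.chi ((card_le_card inter_subset_left).trans h)).cmul _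
  · simpa [ha A (not_le.1 h)] using LD.const (J := J) D 0

theorem second_moment {D : ℕ} {g : (J → Bool) → ℝ} (hg : LD D g) (B : Finset J) :
    𝔼 x, (𝔼 y, g (rs B x y) ^ 2) ^ 2 ≤ 9 ^ D * (𝔼 y, g y ^ 2) ^ 2 := by
  have h1 := hg.bonami
  rw [mul_pow, ← pow_mul, mul_comm D, pow_mul, ← expect_rs B] at h1
  norm_num at h1
  refine le_trans (expect_le_expect fun x _ => ?_) h1
  have := expect_mul_sq_le_sq_mul_sq univ (fun y => g (rs B x y) ^ 2) fun _ => 1
  simpa only [mul_one, one_pow, Fintype.expect_const, ← pow_mul] using this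

theorem paley' {ι : Type} [Fintype ι] [Nonempty ι] {w : ι → ℝ} {v r : ℝ} (hr : 1 ≤ r)
    (hv : 𝔼 x, w x = v) (h3 : 𝔼 x, w x ^ 2 ≤ r * v ^ 2) (hw : ∀ x, 0 ≤ w x) :
    𝔼 x, (if w x < v / 4 then (1 : ℝ) else 0) ≤ 1 - 1 / (2 * r) := by
  rcases (hv ▸ expect_nonneg fun x _ => hw x : 0 ≤ v).eq_or_lt with h0 | hpos
  · rw [expect_eq_zero fun x _ => if_neg (by rw [← h0]; simpa using hw x), sub_nonneg,
      div_le_one (by positivity)]
    linarith
  obtain ⟨P, hP⟩ : ∃ P, P = 𝔼 x, (if w x < v / 4 then (0 : ℝ) else 1) := ⟨_, rfl⟩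
  have e1 : 𝔼 x, (if w x < v / 4 then (1 : ℝ) else 0) = 1 - P := by
    rw [hP, ← Fintype.expect_const (ι := ι) (1 : ℝ), ← expect_sub_distrib]
    refine expect_congr rfl fun x _ => ?_
    simp only [Fintype.expect_const]
    split_ifs <;> norm_num
  have h1 : 3 / 4 * v ≤ 𝔼 x, w x * (if w x < v / 4 then (0 : ℝ) else 1) := by
    have : 𝔼 x, (w x - v / 4) ≤ 𝔼 x, w x * (if w x < v / 4 then (0 : ℝ) else 1) := by
      refine expect_le_expect fun x _ => ?_
      split_ifs <;> linarith
    rw [expect_sub_distrib, hv, Fintype.expect_const] at this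
    linarith
  have h2 := expect_mul_sq_le_sq_mul_sq univ w fun x => if w x < v / 4 then (0 : ℝ) else 1
  have e2 : 𝔼 x, (if w x < v / 4 then (0 : ℝ) else 1) ^ 2 = P :=
    hP ▸ expect_congr rfl fun x _ => by split_ifs <;> norm_num
  rw [e2] at h2
  have hP0 : 0 ≤ P := hP ▸ expect_nonneg fun x _ => by split_ifs <;> norm_num
  have h4 : (3 / 4 * v) ^ 2 ≤ r * v ^ 2 * P :=
    (pow_le_pow_left₀ (by positivity) h1 2).trans (h2.trans (mul_le_mul_of_nonneg_right h3 hP0))
  have h5 : 9 / 16 ≤ r * P := by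
    have hv2 : 0 < v ^ 2 := by positivity
    nlinarith
  rw [e1]
  have : 1 / (2 * r) ≤ P := by
    rw [div_le_iff₀ (by positivity)]
    nlinarith
  linarith

theorem greedy {I : J → ℝ} (hI : ∀ e, 0 ≤ I e) {τ : ℝ} (hτ : 0 ≤ τ) (L : ℕ) :
    ∃ H : Finset J, #H ≤ L ∧ ((∀ e ∈ Hᶜ, I e ≤ τ * ∑ e ∈ Hᶜ, I e) ∨
      (1 + τ * L) * ∑ e ∈ Hᶜ, I e ≤ ∑ e, I e) := by
  induction L with
  | zero => exact ⟨∅, by simp, Or.inr (by simp)⟩
  | succ L ih =>
    obtain ⟨H, h1, h2⟩ := ih
    by_cases h : ∀ e ∈ Hᶜ, I e ≤ τ * ∑ e ∈ Hᶜ, I e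
    · exact ⟨H, by omega, Or.inl h⟩
    have h3 := h2.resolve_left h
    push Not at h
    obtain ⟨e, he, h⟩ := h
    refine ⟨insert e H, (card_insert_le _ _).trans (by omega), Or.inr ?_⟩
    rw [← add_sum_erase _ _ he] at h h3
    rw [compl_insert]
    have h4 : 0 ≤ ∑ e ∈ Hᶜ.erase e, I e := sum_nonneg fun _ _ => hI _
    have h5 : 0 ≤ τ * L * I e := mul_nonneg (by positivity) (hI e)
    push_cast
    nlinarith [mul_nonneg hτ (hI e)]

end

variable {n : ℕ}

theorem prob_meet {T : Finset (Fin n)} {u : ℕ} (hu : u ≤ #T) (hT : 0 < #T) (A : Finset (Pos n)) :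
    𝔼 U ∈ powersetCard u T, (if Disjoint A (E U) then (0 : ℝ) else 1) ≤ #A * (u / #T) ^ 2 := by
  calc _ ≤ 𝔼 U ∈ powersetCard u T, ∑ e ∈ A, (if {e.1.1, e.1.2} ⊆ U then (1 : ℝ) else 0) := by
        refine expect_le_expect fun U _ => ?_
        split_ifs with h
        · exact sum_nonneg fun _ _ => by split_ifs <;> norm_num
        · obtain ⟨e, he, heU⟩ := not_disjoint_iff.1 h
          refine le_trans ?_ (single_le_sum (f := fun e : Pos n =>
            if {e.1.1, e.1.2} ⊆ U then (1 : ℝ) else 0) (fun _ _ => by split_ifs <;> norm_num) he)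
          rw [if_pos (insert_subset (mem_E.1 heU).1 (singleton_subset_iff.2 (mem_E.1 heU).2))]
    _ ≤ ∑ _e ∈ A, (u / #T : ℝ) ^ 2 := by
        rw [expect_sum_comm]
        refine sum_le_sum fun e _ => (prob_superset hu hT _).trans ?_
        split_ifs
        · rw [card_pair e.2.ne]
        · positivity
    _ = _ := by rw [sum_const, nsmul_eq_mul]

theorem dis_const {m : ℕ} {T : Finset (Fin n)} {f : (Pos n → Bool) → ℝ} (h : vr f = 0) :
    dis m T (fun y => SignType.sign (f y)) = 0 := by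
  have : ∀ y, f y = 𝔼 z, f z := fun y => by
    have := (expect_eq_zero_iff_of_nonneg fun y _ => sq_nonneg (f y - 𝔼 z, f z)).1 h y (mem_univ _)
    exact sub_eq_zero.1 (pow_eq_zero_iff (two_ne_zero) |>.1 this)
  generalize (𝔼 z, f z) = l at this
  simp only [dis, this, if_true, expect_const_zero]

theorem vr_nonneg {J : Type} [Fintype J] [DecidableEq J] (f : (J → Bool) → ℝ) : 0 ≤ vr f :=
  expect_nonneg fun _ _ => sq_nonneg _

theorem dis_mean {D m : ℕ} {T : Finset (Fin n)} (hm : 1 ≤ m) (hT : 16 ^ D * m ^ 2 ≤ #T) {ε : ℝ}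
    (hε : 0 < ε) {f : (Pos n → Bool) → ℝ} (hf : LD D f)
    (h : 3 * 3 ^ D * vr f ≤ ε * (𝔼 z, f z) ^ 2) : dis m T (fun y => SignType.sign (f y)) ≤ ε := by
  have hmT : m ≤ #T :=
    le_trans (le_trans (by nlinarith) (Nat.le_mul_of_pos_left (m ^ 2) (by positivity))) hT
  rcases (vr_nonneg f).eq_or_lt with h0 | hpos
  · rw [dis_const h0.symm]
    exact hε.le
  rw [vr] at h hpos
  generalize (𝔼 z, f z) = l at h hpos
  have hg : LD D fun y => f y - l := by
    simpa only [sub_eq_add_neg] using hf.add (LD.const D (-l))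
  have h4 : (1 : ℝ) ≤ 3 ^ D := one_le_pow₀ (by norm_num)
  have hl : 0 < l ^ 2 := pos_of_mul_pos_right (lt_of_lt_of_le (by positivity) h) hε.le
  have h2 : dis m T (fun y => SignType.sign (f y)) ≤
      1 / l ^ 2 * 𝔼 S ∈ powersetCard m T, 𝔼 y, ((f (plant S y) - l) ^ 2 + (f y - l) ^ 2) := by
    rw [dis, mul_expect]
    refine expect_le_expect fun S _ => ?_
    rw [mul_expect]
    refine expect_le_expect fun y _ => ?_
    split_ifs with h
    · positivity
    · rw [one_div_mul_eq_div, one_le_div hl]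
      exact sign_ne (by simpa only [add_sub_cancel] using h)
  simp only [expect_add_distrib] at h2
  rw [expect_const (powersetCard_nonempty.2 hmT)] at h2
  have h3 := planted_sq hm hT hg
  generalize (𝔼 y, (f y - l) ^ 2) = v at h hpos h2 h3
  refine h2.trans ((mul_le_mul_of_nonneg_left (add_le_add h3 le_rfl) (by positivity)).trans ?_)
  rw [one_div_mul_eq_div, div_le_iff₀ hl]
  nlinarith

theorem delta_sq {D m : ℕ} {T : Finset (Fin n)} (hm : 1 ≤ m) (hT : 16 ^ D * m ^ 2 ≤ #T)
    {c : Finset (Pos n) → ℝ} (hc : ∀ α, D < #α → c α = 0) :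
    𝔼 S ∈ powersetCard m T, 𝔼 y, (∑ α, c α * chi α (plant S y) - ∑ α, c α * chi α y) ^ 2 ≤
      6 * 3 ^ D * (D * (16 ^ D * m ^ 2 / #T) * ∑ α, if α = ∅ then 0 else c α ^ 2) := by
  obtain ⟨u, hu⟩ : ∃ u, u = 16 ^ D * m ^ 2 := ⟨_, rfl⟩
  have hmu : m ≤ u := hu ▸ le_trans (by nlinarith) (Nat.le_mul_of_pos_left (m ^ 2) (by positivity))
  have hu' : (16 : ℝ) ^ D * m ^ 2 = u := by rw [hu]; push_cast; ring
  rw [← hu] at hT
  rw [← expect_subsets hmu hT, hu']
  have hT0 : 0 < #T := by omega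
  have h4 : (1 : ℝ) ≤ 3 ^ D := one_le_pow₀ (by norm_num)
  calc _ ≤ 𝔼 U ∈ powersetCard u T, 6 * 3 ^ D *
        ∑ α, c α ^ 2 * if Disjoint α (E U) then (0 : ℝ) else 1 := by
        refine expect_le_expect fun U hU => ?_
        have hUu := (mem_powersetCard.1 hU).2
        have hg : LD D fun y => ∑ α, (if Disjoint α (E U) then 0 else c α) * chi α y :=
          LD.of_coeff fun α h => by simp [hc α h]
        have h1 := planted_sq hm (hu.ge.trans hUu.ge) hg
        have h2 := expect_sq fun α => if Disjoint α (E U) then 0 else c α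
        have h3 : ∑ α, (if Disjoint α (E U) then 0 else c α) ^ 2 =
            ∑ α, c α ^ 2 * if Disjoint α (E U) then (0 : ℝ) else 1 :=
          sum_congr rfl fun α _ => by split_ifs <;> simp
        have h0 : 0 ≤ ∑ α, c α ^ 2 * if Disjoint α (E U) then (0 : ℝ) else 1 :=
          sum_nonneg fun _ _ => by positivity
        rw [h3] at h2
        rw [h2] at h1
        calc _ ≤ 𝔼 S ∈ powersetCard m U, 𝔼 y,
              (2 * (∑ α, (if Disjoint α (E U) then 0 else c α) * chi α (plant S y)) ^ 2 +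
                2 * (∑ α, (if Disjoint α (E U) then 0 else c α) * chi α y) ^ 2) := by
              refine expect_le_expect fun S hS => expect_le_expect fun y _ => ?_
              have : ∑ α, c α * chi α (plant S y) - ∑ α, c α * chi α y =
                  ∑ α, (if Disjoint α (E U) then 0 else c α) * chi α (plant S y) -
                    ∑ α, (if Disjoint α (E U) then 0 else c α) * chi α y := by
                rw [← sum_sub_distrib, ← sum_sub_distrib]
                refine sum_congr rfl fun α _ => ?_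
                split_ifs with h
                · have : chi α (plant S y) = chi α y := prod_congr rfl fun e he => by
                    rw [plant, mg, if_neg fun h' =>
                      disjoint_left.1 h he (E_mono (mem_powersetCard.1 hS).1 h')]
                  rw [this]
                  ring
                · rfl
              rw [this]
              generalize (∑ α, (if Disjoint α (E U) then 0 else c α) * chi α (plant S y)) = a
              generalize (∑ α, (if Disjoint α (E U) then 0 else c α) * chi α y) = b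
              nlinarith [sq_nonneg (a + b)]
          _ ≤ _ := by
              simp only [expect_add_distrib, ← mul_expect, h2]
              rw [expect_const (powersetCard_nonempty.2 (hmu.trans hUu.ge))]
              nlinarith
    _ ≤ _ := by
        rw [← mul_expect, expect_sum_comm]
        refine mul_le_mul_of_nonneg_left ?_ (by positivity)
        rw [mul_sum]
        refine sum_le_sum fun α _ => ?_
        rw [← mul_expect]
        by_cases h : α = ∅
        · simp [h]
        by_cases hα : D < #α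
        · simp [hc α hα]
        rw [if_neg h, mul_comm]
        refine mul_le_mul_of_nonneg_right ((prob_meet hT hT0 α).trans (mul_le_mul
          (by exact_mod_cast not_lt.1 hα) ?_ (by positivity) (by positivity))) (sq_nonneg _)
        exact pow_le_of_le_one (by positivity)
          ((div_le_one (by positivity)).2 (by exact_mod_cast hT)) two_ne_zero

theorem dis_split {β : Type} [DecidableEq β] {m : ℕ} {T : Finset (Fin n)} (hm : m ≤ #T)
    (hT : 0 < #T) (H : Finset (Pos n)) (Φ : (Pos n → Bool) → β) :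
    dis m T Φ ≤ #H * (m / #T) ^ 2 + 𝔼 x, dis m T fun y => Φ (rs Hᶜ x y) := by
  refine le_trans ?_ (add_le_add (prob_meet hm hT H) le_rfl)
  simp only [dis]
  rw [expect_comm univ, ← expect_add_distrib]
  refine expect_le_expect fun S _ => ?_
  split_ifs with h
  · have : ∀ x y, plant S (rs Hᶜ x y) = rs Hᶜ x (plant S y) := fun x y => by
      funext e
      by_cases h1 : e ∈ E S
      · simp [plant, mg, rs, h1, disjoint_right.1 h h1]
      · simp [plant, mg, rs, h1]
    rw [← expect_rs Hᶜ, zero_add]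
    simp only [this, le_refl]
  · exact (expect_le (a := (1 : ℝ)) univ_nonempty fun _ _ => by split_ifs <;> norm_num).trans
      (le_add_of_nonneg_right (expect_nonneg fun _ _ => expect_nonneg fun _ _ => by
        split_ifs <;> norm_num))

theorem num_bound {D q : ℕ} (hD : 1 ≤ D) (hq : 1 ≤ q) :
    (384 : ℝ) * 2916 ^ D * D ^ 2 * q ^ 3 ≤ (36 * q) ^ (4 * D) := by
  have hq1 : (1 : ℝ) ≤ q := by exact_mod_cast hq
  have h1 := one_add_mul_le_pow (show (-2 : ℝ) ≤ 23 by norm_num) D
  have h2 : (384 : ℝ) * D ^ 2 ≤ 576 ^ D := by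
    rw [show (576 : ℝ) = (1 + 23) ^ 2 by norm_num, ← pow_mul, mul_comm 2 D, pow_mul]
    nlinarith [(Nat.cast_nonneg D : (0 : ℝ) ≤ D)]
  have h3 : (q : ℝ) ^ 3 ≤ q ^ (4 * D) := pow_le_pow_right₀ hq1 (by omega)
  rw [mul_pow, pow_mul 36, show (36 : ℝ) ^ 4 = 576 * 2916 by norm_num, mul_pow]
  calc _ = (384 : ℝ) * D ^ 2 * 2916 ^ D * q ^ 3 := by ring
    _ ≤ _ := by gcongr

section
variable {D m q : ℕ} (hD : 1 ≤ D) (hm : 1 ≤ m) (hq : 1 ≤ q) {T : Finset (Fin n)}
  (hT : (36 * q) ^ (9 * D) * m ^ 2 ≤ #T)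
include hD hm hq hT

omit hm in
theorem hT_weak : 16 ^ D * m ^ 2 ≤ #T :=
  le_trans (Nat.mul_le_mul_right _ ((Nat.pow_le_pow_left (by omega) _).trans
    (Nat.pow_le_pow_right (by omega) (by omega)))) hT

theorem dis_regular {f : (Pos n → Bool) → ℝ} (hf : LD D f)
    (h : 5 * 36 ^ D * (q ^ 3 * (36 * q) ^ (10 * D)) * ∑ e, infl e f ^ 2 ≤ vr f ^ 2) :
    dis m T (fun y => SignType.sign (f y)) ≤ 6605 * D ^ 3 / q := by
  have hq1 : (1 : ℝ) ≤ q := by exact_mod_cast hq
  have hD1 : (1 : ℝ) ≤ D := by exact_mod_cast hD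
  have hT' := hT_weak hD hq hT
  have hmT : m ≤ #T :=
    le_trans (le_trans (by nlinarith) (Nat.le_mul_of_pos_left (m ^ 2) (by positivity))) hT'
  rcases (vr_nonneg f).eq_or_lt with h0 | hpos
  · rw [dis_const h0.symm]
    positivity
  obtain ⟨c, hc, hfc⟩ := hf.coeff
  obtain rfl : f = _ := funext hfc
  simp only [vr_eq, infl_eq] at h hpos
  have h2 := delta_sq hm hT' hc
  obtain ⟨L, hL⟩ : ∃ L : ℝ, L = 1 / q * ((1 / q / 36) ^ (5 * D) *
    ∑ α, if α = ∅ then 0 else c α ^ 2) := ⟨_, rfl⟩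
  have hL0 : 0 < L := by rw [hL]; positivity
  have h1 := anti_cube hD (by positivity) hc hL0 hL
  generalize (∑ α, if α = ∅ then 0 else c α ^ 2) = v at h hpos h2 hL
  generalize (∑ i, (∑ α, if i ∈ α then c α ^ 2 else 0) ^ 2) = I at h h1
  have hL' : L * (q * (36 * q) ^ (5 * D)) = v := by
    rw [hL, div_div, mul_comm (q : ℝ) 36, one_div_pow]
    field_simp
  have h3 : dis m T (fun y => SignType.sign (∑ α, c α * chi α y)) ≤
      𝔼 b, (if (∑ α, c α * chi α b) ^ 2 ≤ L then (1 : ℝ) else 0) + 1 / L *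
        𝔼 S ∈ powersetCard m T, 𝔼 y, (∑ α, c α * chi α (plant S y) - ∑ α, c α * chi α y) ^ 2 := by
    rw [← expect_const (powersetCard_nonempty.2 hmT) (𝔼 b, _), mul_expect, ← expect_add_distrib]
    refine expect_le_expect fun S _ => ?_
    rw [mul_expect, ← expect_add_distrib]
    refine expect_le_expect fun y _ => ?_
    beta_reduce
    generalize (∑ α, c α * chi α (plant S y)) = a
    generalize (∑ α, c α * chi α y) = b
    split_ifs with c1 c2 c2
    · positivity
    · positivity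
    · exact le_add_of_nonneg_right (by positivity)
    · rw [zero_add, one_div_mul_eq_div, one_le_div hL0]
      have := sign_ne (μ := b) (p := a - b) (q := 0) (by simpa using c1)
      linarith
  have h4 : 5 * 36 ^ D * I / L ^ 2 ≤ 1 / q := by
    rw [div_le_div_iff₀ (by positivity) (by positivity)]
    rw [← hL', show 10 * D = 5 * D * 2 by ring, pow_mul _ (5 * D)] at h
    refine le_of_mul_le_mul_right (le_trans (le_of_eq ?_) (h.trans (le_of_eq ?_)))
      (show 0 < (q * (36 * q : ℝ) ^ (5 * D)) ^ 2 by positivity) <;> ring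
  have h5 : 1 / L * (6 * 3 ^ D * (D * (16 ^ D * m ^ 2 / #T) * v)) ≤ 1 / q := by
    have t0 : (0 : ℝ) < #T := by exact_mod_cast (show 0 < #T by omega)
    have t1 : ((36 * q) ^ (9 * D) * m ^ 2 : ℝ) ≤ #T := by exact_mod_cast hT
    have t2 : (6 : ℝ) * 3 ^ D * 16 ^ D * D * q ^ 2 ≤ (36 * q) ^ (4 * D) := by
      refine le_trans ?_ (num_bound hD hq)
      rw [mul_assoc 6, ← mul_pow]
      have t3 : (D : ℝ) ≤ D ^ 2 := by nlinarith
      gcongr <;> norm_num
    rw [← hL', show 1 / L * (6 * 3 ^ D * (D * (16 ^ D * m ^ 2 / #T) *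
        (L * (q * (36 * q) ^ (5 * D))))) = 6 * 3 ^ D * 16 ^ D * D * q * (36 * q) ^ (5 * D) *
        m ^ 2 / #T by field_simp, div_le_div_iff₀ t0 (by positivity), one_mul]
    refine le_trans ?_ t1
    rw [show 9 * D = 4 * D + 5 * D by ring, pow_add]
    calc _ = (6 : ℝ) * 3 ^ D * 16 ^ D * D * q ^ 2 * (36 * q) ^ (5 * D) * m ^ 2 := by ring
      _ ≤ _ := by gcongr
  have h6 := mul_le_mul_of_nonneg_left h2 (show 0 ≤ 1 / L by positivity)
  have h7 : 1 / (q : ℝ) ≤ D ^ 3 * (1 / q) :=
    le_mul_of_one_le_left (by positivity) (one_le_pow₀ hD1)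
  rw [div_eq_mul_one_div]
  linarith

theorem exists_H {f : (Pos n → Bool) → ℝ} (hf : LD D f) : ∃ H : Finset (Pos n),
    #H ≤ 96 * 27 ^ D * D * q * (36 * q) ^ (14 * D) ∧
      𝔼 x, (if dis m T (fun y => SignType.sign (f (rs Hᶜ x y))) ≤ 6605 * D ^ 3 / q then (0 : ℝ)
        else 1) ≤ 1 - 1 / (4 * 9 ^ D) := by
  have hq1 : (1 : ℝ) ≤ q := by exact_mod_cast hq
  have hD1 : (1 : ℝ) ≤ D := by exact_mod_cast hD
  have h9 : (1 : ℝ) ≤ 9 ^ D := one_le_pow₀ (by norm_num)
  obtain ⟨H, h1, h2⟩ := greedy (I := fun e => infl e f) (fun e => expect_nonneg fun _ _ =>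
    sq_nonneg _) (show (0 : ℝ) ≤ 1 / (36 * q) ^ (14 * D) by positivity)
    (96 * 27 ^ D * D * q * (36 * q) ^ (14 * D))
  refine ⟨H, h1, ?_⟩
  have hφ := hf.rs Hᶜ
  obtain ⟨c, hc, hfc⟩ := hf.coeff
  let μ : (Pos n → Bool) → ℝ := fun x => ∑ α, (if α ⊆ H then c α else 0) * chi α x
  let g : (Pos n → Bool) → ℝ := fun x => ∑ α, (if α ⊆ H then 0 else c α) * chi α x
  have hμ : LD D μ := LD.of_coeff fun α h => by simp [hc α h]
  have hg : LD D g := LD.of_coeff fun α h => by simp [hc α h]
  have e1 : ∀ x, 𝔼 y, f (rs Hᶜ x y) = μ x := fun x => by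
    simp only [hfc, chi_rs, expect_sum_comm, ← mul_expect, expect_chi]
    refine sum_congr rfl fun α _ => ?_
    by_cases h : α ⊆ H
    · have : α ∩ Hᶜ = ∅ := by
        rw [← sdiff_eq_inter_compl, sdiff_eq_empty_iff_subset]; exact h
      rw [if_pos h, if_pos this, sdiff_eq_self_of_disjoint (disjoint_iff_inter_eq_empty.2 this),
        mul_one]
    · rw [if_neg h, if_neg (by rwa [← sdiff_eq_inter_compl, sdiff_eq_empty_iff_subset])]
      simp
  have e2 : ∀ x, vr (fun y => f (rs Hᶜ x y)) = 𝔼 y, g (rs Hᶜ x y) ^ 2 := fun x => by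
    rw [vr, e1]
    refine expect_congr rfl fun y _ => ?_
    rw [hfc, ← sum_sub_distrib]
    congr 1
    refine sum_congr rfl fun α _ => ?_
    split_ifs with h
    · have : chi α (rs Hᶜ x y) = chi α x :=
        prod_congr rfl fun e he => by rw [rs, if_neg (by simpa using h he)]
      rw [this]
      ring
    · ring
  obtain ⟨σ, hσ⟩ : ∃ σ, 𝔼 y, g y ^ 2 = σ := ⟨_, rfl⟩
  have e3 : 𝔼 x, vr (fun y => f (rs Hᶜ x y)) = σ := by
    simp only [e2]
    rw [expect_rs Hᶜ fun y => g y ^ 2, hσ]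
  have e4 : 𝔼 x, vr (fun y => f (rs Hᶜ x y)) ^ 2 ≤ 9 ^ D * σ ^ 2 := by
    simp only [e2]
    exact hσ ▸ second_moment hg _
  have e5 : ∀ G : Finset (Pos n), ∑ e ∈ Gᶜ, infl e f = ∑ α, #(α \ G) * c α ^ 2 := fun G => by
    rw [show f = _ from funext hfc]
    simp only [infl_eq]
    rw [sum_comm]
    refine sum_congr rfl fun α _ => ?_
    rw [← sum_filter, sum_const, nsmul_eq_mul, filter_mem_eq_inter, inter_comm,
      ← sdiff_eq_inter_compl]
  have e6 : σ ≤ ∑ e ∈ Hᶜ, infl e f ∧ ∑ e ∈ Hᶜ, infl e f ≤ D * σ := by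
    rw [e5, ← hσ, expect_sq, mul_sum]
    refine ⟨sum_le_sum fun α _ => ?_, sum_le_sum fun α _ => ?_⟩
    · split_ifs with h
      · rw [zero_pow two_ne_zero]
        positivity
      · refine le_mul_of_one_le_left (sq_nonneg _) ?_
        exact_mod_cast card_pos.2 (sdiff_nonempty.2 h)
    · split_ifs with h
      · simp [sdiff_eq_empty_iff_subset.2 h]
      · by_cases hα : D < #α
        · simp [hc α hα]
        · refine mul_le_mul_of_nonneg_right ?_ (sq_nonneg _)
          exact_mod_cast (card_le_card sdiff_subset).trans (not_lt.1 hα)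
  have hσ0 : 0 ≤ σ := hσ ▸ expect_nonneg fun _ _ => sq_nonneg _
  have fin : ∀ P Q : (Pos n → Bool) → Prop, ∀ [DecidablePred P] [DecidablePred Q],
      𝔼 x, (if P x then (1 : ℝ) else 0) ≤ 1 - 1 / (2 * 9 ^ D) →
      𝔼 x, (if Q x then (1 : ℝ) else 0) ≤ 1 / (4 * 9 ^ D) →
      (∀ x, ¬P x → ¬Q x → dis m T (fun y => SignType.sign (f (rs Hᶜ x y))) ≤ 6605 * D ^ 3 / q) →
      𝔼 x, (if dis m T (fun y => SignType.sign (f (rs Hᶜ x y))) ≤ 6605 * D ^ 3 / q then (0 : ℝ)
        else 1) ≤ 1 - 1 / (4 * 9 ^ D) := by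
    intro P Q _ _ hP hQ h
    refine le_trans ?_ ((add_le_add hP hQ).trans (le_of_eq (by field_simp; ring)))
    rw [← expect_add_distrib]
    refine expect_le_expect fun x _ => ?_
    split_ifs with c1 c2 c3 c3 c2 c3 c3 <;> try norm_num
    exact c1 (h x c2 c3)
  rcases h2 with h2 | h2
  · have e7 : 𝔼 x, ∑ e, infl e (fun y => f (rs Hᶜ x y)) ^ 2 ≤
        9 ^ D * (1 / (36 * q) ^ (14 * D) * (D * σ) ^ 2) := by
      rw [expect_sum_comm, ← sum_subset (subset_univ Hᶜ) fun e _ he => ?_]
      swap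
      · have : ∀ x y, rs Hᶜ x (fl e y) = rs Hᶜ x y := fun x y => by
          funext j
          by_cases hj : j ∈ Hᶜ
          · simp only [rs, if_pos hj, fl, Function.update_of_ne (ne_of_mem_of_not_mem hj he)]
          · simp only [rs, if_neg hj]
        simp [infl, this]
      calc _ ≤ ∑ e ∈ Hᶜ, 9 ^ D * ((1 / (36 * q) ^ (14 * D) * ∑ e ∈ Hᶜ, infl e f) * infl e f) := by
            refine sum_le_sum fun e he => ?_
            have : ∀ x y, rs Hᶜ x (fl e y) = fl e (rs Hᶜ x y) := fun x y => by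
              funext j
              by_cases hj : j = e
              · subst hj
                simp only [rs, if_pos he, fl, Function.update_self]
              · simp only [rs, fl, Function.update_of_ne hj]
            have hp : LD D fun y => (f y - f (fl e y)) / 2 := by
              simp only [hfc, pe_eq]
              exact LD.of_coeff fun α h => by simp [hc α h]
            simp only [infl, this]
            refine (second_moment hp _).trans (mul_le_mul_of_nonneg_left ?_ (by positivity))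
            rw [sq]
            exact mul_le_mul_of_nonneg_right (h2 e he) (expect_nonneg fun _ _ => sq_nonneg _)
        _ ≤ _ := by
            rw [← mul_sum, ← mul_sum, mul_assoc, ← sq]
            exact mul_le_mul_of_nonneg_left (mul_le_mul_of_nonneg_left
              (pow_le_pow_left₀ (hσ0.trans e6.1) e6.2 2) (by positivity)) (by positivity)
    refine fin _ _ (paley' h9 e3 e4 fun x => vr_nonneg _)
      (markov (fun x => sum_nonneg fun _ _ => sq_nonneg _) e7 (by positivity)) fun x c1 c2 =>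
        dis_regular hD hm hq hT (hφ x) ?_
    have c3 := pow_le_pow_left₀ (by positivity) (not_lt.1 c1) 2
    refine (mul_le_mul_of_nonneg_left (not_lt.1 c2) (by positivity)).trans (le_trans ?_ c3)
    have t2 := num_bound hD hq
    rw [show 14 * D = 4 * D + 10 * D by ring, pow_add, show (5 : ℝ) * 36 ^ D *
        (q ^ 3 * (36 * q) ^ (10 * D)) * (4 * 9 ^ D * (9 ^ D * (1 / ((36 * q) ^ (4 * D) *
        (36 * q) ^ (10 * D)) * (D * σ) ^ 2))) = 320 * (36 ^ D * 9 ^ D * 9 ^ D) * D ^ 2 * q ^ 3 /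
        (36 * q) ^ (4 * D) * (σ / 4) ^ 2 by field_simp; ring]
    refine mul_le_of_le_one_left (sq_nonneg _) ((div_le_one (by positivity)).2 (le_trans ?_ t2))
    rw [← mul_pow, ← mul_pow]
    gcongr <;> norm_num
  · obtain ⟨M, hM⟩ : ∃ M, 𝔼 y, μ y ^ 2 = M := ⟨_, rfl⟩
    have e7 : ∑ e, infl e f ≤ D * (M + σ) := by
      rw [← compl_empty, e5, ← hM, ← hσ, expect_sq, expect_sq, ← sum_add_distrib, mul_sum]
      refine sum_le_sum fun α _ => ?_
      by_cases hα : D < #α
      · simp [hc α hα]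
      · rw [sdiff_empty, show (if α ⊆ H then c α else 0) ^ 2 + (if α ⊆ H then 0 else c α) ^ 2 =
          c α ^ 2 by split_ifs <;> simp]
        exact mul_le_mul_of_nonneg_right (by exact_mod_cast not_lt.1 hα) (sq_nonneg _)
    have e8 : 𝔼 y, (μ y ^ 2) ^ 2 ≤ 9 ^ D * M ^ 2 := by
      have := hμ.bonami
      rw [hM, mul_pow, ← pow_mul, mul_comm D, pow_mul] at this
      norm_num at this
      simpa only [← pow_mul] using this
    refine fin _ _ (paley' h9 hM e8 fun x => sq_nonneg _)
      (markov (fun x => vr_nonneg _) e3.le (by positivity)) fun x c1 c2 =>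
        (dis_mean hm (hT_weak hD hq hT) (show 0 < 1 / (q : ℝ) by positivity) (hφ x) ?_).trans ?_
    · rw [e1, one_div_mul_eq_div, le_div_iff₀ (by positivity)]
      push_cast at h2
      rw [one_div_mul_eq_div, mul_div_cancel_right₀ _ (by positivity)] at h2
      have h27 : (1 : ℝ) ≤ 27 ^ D * q := one_le_mul_of_one_le_of_one_le (one_le_pow₀ (by norm_num)) hq1
      have c3 : D * (48 * 27 ^ D * q * σ) ≤ D * M := by
        have a1 := (mul_le_mul_of_nonneg_left e6.1 (by positivity)).trans (h2.trans e7)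
        nlinarith [mul_le_mul_of_nonneg_right h27 (mul_nonneg (zero_le_one.trans hD1) hσ0)]
      have c4 := le_of_mul_le_mul_left c3 (by positivity)
      have c5 := mul_le_mul_of_nonneg_left (not_lt.1 c2) (show (0 : ℝ) ≤ 3 * 3 ^ D * q by positivity)
      rw [show (27 : ℝ) = 3 * 9 by norm_num, mul_pow] at c4
      linarith [not_lt.1 c1]
    · gcongr
      nlinarith [one_le_pow₀ (n := 3) hD1]

theorem ptf_bound {f : (Pos n → Bool) → ℝ} (hf : LD D f) :
    dis m T (fun y => SignType.sign (f y)) ≤ 6606 * D ^ 3 / q := by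
  have hq1 : (1 : ℝ) ≤ q := by exact_mod_cast hq
  have hD1 : (1 : ℝ) ≤ D := by exact_mod_cast hD
  have hm1 : (1 : ℝ) ≤ m := by exact_mod_cast hm
  have hmT : m ≤ #T := le_trans (le_trans (by nlinarith)
    (Nat.le_mul_of_pos_left (m ^ 2) (by positivity))) (hT_weak hD hq hT)
  have t0 : (0 : ℝ) < #T := by exact_mod_cast (show 0 < #T by omega)
  let A : Set ℝ := {a | ∃ f, LD D f ∧ dis m T (fun y => SignType.sign (f y)) = a}
  have hA : BddAbove A := ⟨1, by rintro _ ⟨f, _, rfl⟩; exact dis_le_one _ _ _⟩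
  have hle : ∀ f, LD D f → dis m T (fun y => SignType.sign (f y)) ≤ sSup A := fun f hf =>
    le_csSup hA ⟨f, hf, rfl⟩
  obtain ⟨r, hr⟩ : ∃ r : ℝ, r = 6605 * D ^ 3 / q := ⟨_, rfl⟩
  have h0 : r + 1 / q ≤ 6606 * D ^ 3 / q := by
    rw [hr, ← add_div]
    gcongr
    linarith [one_le_pow₀ (n := 3) hD1]
  refine (hle f hf).trans (le_trans ?_ h0)
  by_cases hc : sSup A ≤ r
  · exact hc.trans (le_add_of_nonneg_right (by positivity))
  have h1 : sSup A ≤ 1 / (4 * 9 ^ D) * (1 / q) + (r + (sSup A - r) * (1 - 1 / (4 * 9 ^ D))) := by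
    refine csSup_le ⟨_, f, hf, rfl⟩ ?_
    rintro _ ⟨g, hg, rfl⟩
    obtain ⟨H, h1, h2⟩ := exists_H hD hm hq hT hg
    rw [← hr] at h2
    refine (dis_split hmT (by omega) H _).trans (add_le_add ?_ ?_)
    · have t1 : ((36 * q) ^ (9 * D) * m ^ 2 : ℝ) ≤ #T := by exact_mod_cast hT
      have t2 : (m : ℝ) / #T ≤ 1 / (36 * q) ^ (9 * D) := by
        rw [div_le_div_iff₀ t0 (by positivity), one_mul, mul_comm]
        exact le_trans (mul_le_mul_of_nonneg_left (by nlinarith) (by positivity)) t1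
      have t3 : (#H : ℝ) ≤ 96 * 27 ^ D * D * q * (36 * q) ^ (14 * D) := by exact_mod_cast h1
      refine (mul_le_mul t3 (pow_le_pow_left₀ (by positivity) t2 2) (by positivity)
        (by positivity)).trans ?_
      rw [one_div_pow, ← pow_mul, show 9 * D * 2 = 4 * D + 14 * D by ring, pow_add,
        show (96 : ℝ) * 27 ^ D * D * q * (36 * q) ^ (14 * D) * (1 / ((36 * q) ^ (4 * D) *
          (36 * q) ^ (14 * D))) = 384 * (27 ^ D * 9 ^ D) * D * q ^ 2 / (36 * q) ^ (4 * D) *
          (1 / (4 * 9 ^ D) * (1 / q)) by field_simp; ring]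
      refine mul_le_of_le_one_left (by positivity)
        ((div_le_one (by positivity)).2 (le_trans ?_ (num_bound hD hq)))
      rw [← mul_pow]
      have t4 : (D : ℝ) ≤ D ^ 2 := by nlinarith
      gcongr <;> norm_num
    · refine le_trans ?_ (add_le_add le_rfl (mul_le_mul_of_nonneg_left h2 (by linarith)))
      rw [← Fintype.expect_const (ι := Pos n → Bool) r, mul_expect, ← expect_add_distrib]
      refine expect_le_expect fun x _ => ?_
      rw [Fintype.expect_const]
      split_ifs with h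
      · linarith
      · linarith [hle _ (hg.rs Hᶜ x)]
  have h2 : (0 : ℝ) < 1 / (4 * 9 ^ D) := by positivity
  nlinarith

end

end Pool.Agent.Lib.MP_21ae8a_lc
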