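import Pool.Agent.Lib.MP_21ae8a_lc.Restrict

/-!
Trigonometric polynomials on a discrete circle: the derivative rarely dominates the value.
-/

set_option autoImplicit false

namespace Pool.Agent.Lib.MP_21ae8a_lc

open Finset Polynomial Complex
open scoped BigOperators

variable {K : ℕ} [NeZero K]

/-- The standard character. -/
noncomputable def ee (t : ZMod K) : ℂ := ZMod.stdAddChar t

/-- Scaled cosine. -/
noncomputable def XX (t : ZMod K) : ℝ := √2 * (ee t).re

/-- Scaled sine. -/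
noncomputable def YY (t : ZMod K) : ℝ := √2 * (ee t).im

theorem norm_ee (t : ZMod K) : ‖ee t‖ = 1 := by
  rw [ee, ZMod.stdAddChar_apply]
  exact Circle.norm_coe _

theorem ee_add (s t : ZMod K) : ee (s + t) = ee s * ee t := AddChar.map_add_eq_mul _ _ _

theorem ee_sq (t : ZMod K) : (ee t).re ^ 2 + (ee t).im ^ 2 = 1 := by
  have := Complex.sq_norm (ee t)
  rw [norm_ee, Complex.normSq_apply] at this
  linarith

theorem ee_sub (s t : ZMod K) : ee (s - t) = ee s * (starRingEnd ℂ) (ee t) := by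
  have h1 : ee t * (starRingEnd ℂ) (ee t) = 1 := by
    rw [Complex.mul_conj, Complex.normSq_eq_norm_sq, norm_ee]
    simp
  have h2 := ee_add (s - t) t
  rw [sub_add_cancel] at h2
  rw [h2, mul_assoc, h1, mul_one]

theorem XX_sq_add (t : ZMod K) : XX t ^ 2 + YY t ^ 2 = 2 := by
  have := ee_sq t
  rw [XX, YY, mul_pow, mul_pow, Real.sq_sqrt (by norm_num)]
  linarith

theorem XX_sq_le (t : ZMod K) : XX t ^ 2 ≤ 2 := by
  linarith [XX_sq_add t, sq_nonneg (YY t)]

theorem expect_XX_sq (hK : 3 ≤ K) : 𝔼 t : ZMod K, XX t ^ 2 = 1 := by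
  have h1 : ∀ t : ZMod K, XX t ^ 2 = 1 + (ee (t * 2)).re := fun t => by
    have := ee_sq t
    rw [mul_two, ee_add, XX, mul_pow, Real.sq_sqrt (by norm_num), Complex.mul_re]
    linarith
  have h2 : (2 : ZMod K) ≠ 0 := fun h => by
    have := (ZMod.natCast_eq_zero_iff 2 K).1 (by exact_mod_cast h)
    exact absurd (Nat.le_of_dvd two_pos this) (by omega)
  have h3 := AddChar.sum_mulShift (2 : ZMod K) (ZMod.isPrimitive_stdAddChar K)
  rw [if_neg h2] at h3
  have h4 : ∑ t : ZMod K, (ee (t * 2)).re = 0 := by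
    rw [← Complex.re_sum]
    simp only [ee, h3]
    simp
  simp only [h1, expect_add_distrib, Fintype.expect_const]
  rw [expect_eq_sum_div_card, h4]
  simp

theorem ee_gap (u : ZMod K) : 4 * |(u.valMinAbs : ℝ)| / K ≤ ‖ee u - 1‖ := by
  have hK : (0 : ℝ) < K := by exact_mod_cast NeZero.pos K
  have h1 : ee u = Complex.exp (I * (2 * Real.pi * u.valMinAbs / K : ℝ)) := by
    rw [ee, ← u.coe_valMinAbs, ZMod.stdAddChar_coe, u.coe_valMinAbs]
    congr 1
    push_cast
    ring
  have h2 : |(u.valMinAbs : ℝ)| * 2 ≤ K := by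
    have := u.valMinAbs_mem_Ioc
    have h3 : |u.valMinAbs * 2| ≤ (K : ℤ) := abs_le.2 ⟨this.1.le, this.2⟩
    rw [abs_mul, abs_two] at h3
    exact_mod_cast h3
  have h4 : |2 * Real.pi * u.valMinAbs / K / 2| = Real.pi * |(u.valMinAbs : ℝ)| / K := by
    rw [show 2 * Real.pi * u.valMinAbs / K / 2 = Real.pi * u.valMinAbs / K by ring, abs_div,
      abs_mul, abs_of_pos Real.pi_pos, abs_of_pos hK]
  have h5 := Real.mul_abs_le_abs_sin (x := 2 * Real.pi * u.valMinAbs / K / 2) (by
    rw [h4, div_le_div_iff₀ hK two_pos]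
    nlinarith [Real.pi_pos])
  rw [h1, Complex.norm_exp_I_mul_ofReal_sub_one, Real.norm_eq_abs, abs_mul, abs_two]
  rw [h4] at h5
  have h6 : 2 / Real.pi * (Real.pi * |(u.valMinAbs : ℝ)| / K) = 2 * |(u.valMinAbs : ℝ)| / K := by
    field_simp
  rw [h6] at h5
  linarith [show 4 * |(u.valMinAbs : ℝ)| / K = 2 * (2 * |(u.valMinAbs : ℝ)| / K) by ring]

theorem arc (r : ℂ) {ρ : ℝ} (hρ : 0 ≤ ρ) :
    𝔼 t : ZMod K, (if ‖ee t - r‖ < ρ then (1 : ℝ) else 0) ≤ ρ + 1 / K := by
  have hK : (0 : ℝ) < K := by exact_mod_cast NeZero.pos K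
  rw [expect_eq_sum_div_card, sum_boole, card_univ, ZMod.card, div_le_iff₀ hK, add_mul,
    one_div_mul_cancel hK.ne']
  rcases (univ.filter fun t : ZMod K => ‖ee t - r‖ < ρ).eq_empty_or_nonempty with h | ⟨t₀, h⟩
  · rw [h, card_empty, Nat.cast_zero]
    positivity
  obtain ⟨N, hN⟩ : ∃ N, N = ⌊ρ * K / 2⌋₊ := ⟨_, rfl⟩
  have h1 : #{t : ZMod K | ‖ee t - r‖ < ρ} ≤ #(Icc (-N : ℤ) N) := by
    refine card_le_card_of_injOn (fun t => (t - t₀).valMinAbs) (fun t ht => ?_)
      fun t _ t' _ h => sub_left_injective (ZMod.injective_valMinAbs h)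
    have h2 := ee_gap (t - t₀)
    have h3 : ‖ee (t - t₀) - 1‖ < 2 * ρ := by
      have e : ee t - ee t₀ = (ee (t - t₀) - 1) * ee t₀ := by
        rw [sub_mul, ← ee_add, sub_add_cancel, one_mul]
      have h4 := norm_sub_le (ee t - r) (ee t₀ - r)
      rw [sub_sub_sub_cancel_right, e, norm_mul, norm_ee, mul_one] at h4
      linarith [(mem_filter.1 (mem_coe.1 ht)).2, (mem_filter.1 h).2]
    have h5 : (((t - t₀).valMinAbs.natAbs : ℕ) : ℝ) ≤ ρ * K / 2 := by
      rw [Nat.cast_natAbs, Int.cast_abs]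
      have := h2.trans_lt h3
      rw [div_lt_iff₀ hK] at this
      linarith
    have h6 := Nat.le_floor h5
    rw [← hN] at h6
    rw [coe_Icc]
    constructor <;> simp only <;> omega
  have h2 : (#(Icc (-N : ℤ) N) : ℝ) = 2 * N + 1 := by
    rw [Int.card_Icc, show (N : ℤ) + 1 - -N = (2 * N + 1 : ℕ) by push_cast; ring, Int.toNat_natCast]
    push_cast
    ring
  have h3 : (N : ℝ) ≤ ρ * K / 2 := hN ▸ Nat.floor_le (by positivity)
  have h4 : (#{t : ZMod K | ‖ee t - r‖ < ρ} : ℝ) ≤ #(Icc (-N : ℤ) N) := by exact_mod_cast h1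
  linarith

/-- `h` is a trigonometric polynomial of degree at most `D` and `h'` is minus its derivative. -/
def TP (D : ℕ) (h h' : ZMod K → ℝ) : Prop :=
  ∃ P : ℂ[X], P.natDegree ≤ 2 * D ∧ (∀ t, (h t : ℂ) * ee t ^ D = P.eval (ee t)) ∧
    ∀ t, I * h' t * ee t ^ D = ee t * P.derivative.eval (ee t) - D * P.eval (ee t)

theorem TP.congr {D : ℕ} {h h' g g' : ZMod K → ℝ} (H : TP D h h') (e : ∀ t, h t = g t)
    (e' : ∀ t, h' t = g' t) : TP D g g' := by
  rwa [← funext e, ← funext e']

theorem TP.const (D : ℕ) (c : ℝ) : TP D (fun _ : ZMod K => c) fun _ => 0 := by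
  refine ⟨C (c : ℂ) * X ^ D, (natDegree_C_mul_X_pow_le _ _).trans (by omega), fun t => by simp,
    fun t => ?_⟩
  rcases D with _ | D
  · simp
  · simp [derivative_X_pow_succ]
    ring

theorem TP.add {D : ℕ} {h h' g g' : ZMod K → ℝ} (H : TP D h h') (G : TP D g g') :
    TP D (fun t => h t + g t) fun t => h' t + g' t := by
  obtain ⟨P, p1, p2, p3⟩ := H
  obtain ⟨Q, q1, q2, q3⟩ := G
  refine ⟨P + Q, (natDegree_add_le _ _).trans (max_le p1 q1), fun t => ?_, fun t => ?_⟩
  · push_cast
    rw [eval_add, ← p2, ← q2, add_mul]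
  · push_cast
    rw [derivative_add, eval_add, eval_add]
    linear_combination p3 t + q3 t

theorem TP.mul {D D' : ℕ} {h h' g g' : ZMod K → ℝ} (H : TP D h h') (G : TP D' g g') :
    TP (D + D') (fun t => h t * g t) fun t => h' t * g t + h t * g' t := by
  obtain ⟨P, p1, p2, p3⟩ := H
  obtain ⟨Q, q1, q2, q3⟩ := G
  refine ⟨P * Q, natDegree_mul_le.trans (by omega), fun t => ?_, fun t => ?_⟩
  · push_cast
    rw [eval_mul, ← p2, ← q2, pow_add]
    ring
  · push_cast
    rw [derivative_mul, eval_add, eval_mul, eval_mul, eval_mul, pow_add]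
    linear_combination (p3 t) * Q.eval (ee t) + (q3 t) * P.eval (ee t) +
      (I * h' t * ee t ^ D) * q2 t + (I * g' t * ee t ^ D') * p2 t

theorem TP.cmul {D : ℕ} {h h' : ZMod K → ℝ} (H : TP D h h') (c : ℝ) :
    TP D (fun t => c * h t) fun t => c * h' t := by
  have := (TP.const 0 c).mul H
  rw [zero_add] at this
  exact this.congr (fun _ => rfl) fun _ => by simp

theorem TP.mono {D D' : ℕ} {h h' : ZMod K → ℝ} (H : TP D h h') (hD : D ≤ D') : TP D' h h' := by
  have := H.mul (TP.const (D' - D) 1)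
  rw [Nat.add_sub_cancel' hD] at this
  exact this.congr (fun _ => by simp) fun _ => by simp

theorem TP.sum {D : ℕ} {ι : Type} (s : Finset ι) {h h' : ι → ZMod K → ℝ}
    (H : ∀ i ∈ s, TP D (h i) (h' i)) : TP D (fun t => ∑ i ∈ s, h i t) fun t => ∑ i ∈ s, h' i t := by
  classical
  induction s using Finset.induction_on with
  | empty => simpa using TP.const D 0
  | insert i s hi ih =>
    simp only [sum_insert hi]
    exact (H i (mem_insert_self _ _)).add (ih fun j hj => H j (mem_insert_of_mem hj))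

theorem TP.prod {ι : Type} [DecidableEq ι] (s : Finset ι) {h h' : ι → ZMod K → ℝ}
    (H : ∀ i, TP 1 (h i) (h' i)) : TP #s (fun t => ∏ i ∈ s, h i t)
      fun t => ∑ i ∈ s, h' i t * ∏ j ∈ s.erase i, h j t := by
  induction s using Finset.induction_on with
  | empty => simpa using TP.const 0 1
  | insert i s hi ih =>
    rw [card_insert_of_notMem hi, add_comm]
    refine ((H i).mul ih).congr (fun t => by rw [prod_insert hi]) fun t => ?_
    rw [sum_insert hi, erase_insert hi, mul_sum]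
    congr 1
    refine sum_congr rfl fun j hj => ?_
    rw [erase_insert_of_ne (ne_of_mem_of_not_mem hj hi).symm,
      prod_insert fun h => hi (mem_of_mem_erase h)]
    ring

theorem TP.base (A : ℂ) :
    TP 1 (fun t : ZMod K => √2 * (A * ee t).re) fun t => √2 * (A * ee t).im := by
  have h1 : ∀ t : ZMod K, ee t * (starRingEnd ℂ) (ee t) = 1 := fun t => by
    rw [Complex.mul_conj, Complex.normSq_eq_norm_sq, norm_ee]
    simp
  refine ⟨C ((√2 : ℝ) / 2 * A) * X ^ 2 + C ((√2 : ℝ) / 2 * (starRingEnd ℂ) A), ?_, fun t => ?_,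
    fun t => ?_⟩
  · compute_degree
  · rw [ofReal_mul, Complex.re_eq_add_conj, map_mul]
    simp only [eval_add, eval_mul, eval_C, eval_pow, eval_X]
    linear_combination ((√2 : ℝ) / 2 * (starRingEnd ℂ) A) * h1 t
  · rw [ofReal_mul, Complex.im_eq_sub_conj, map_mul]
    simp only [derivative_add, derivative_mul, derivative_C, derivative_X_pow, eval_add, eval_mul,
      eval_C, eval_pow, eval_X, zero_mul, zero_add, add_zero]
    have h2 : I * (((√2 : ℝ) : ℂ) * ((A * ee t - (starRingEnd ℂ) A * (starRingEnd ℂ) (ee t)) /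
        (2 * I))) = (√2 : ℝ) / 2 * (A * ee t - (starRingEnd ℂ) A * (starRingEnd ℂ) (ee t)) := by
      field_simp
    rw [h2]
    push_cast
    linear_combination (-((√2 : ℝ) / 2 * (starRingEnd ℂ) A)) * h1 t

/-- Moving forward or backward. -/
def mv (b : Bool) (θ t : ZMod K) : ZMod K := if b then θ + t else θ - t

theorem TP.xx (b : Bool) (θ : ZMod K) :
    TP 1 (fun t => XX (mv b θ t)) fun t => sg b * YY (mv b θ t) := by
  cases b
  · refine (TP.base ((starRingEnd ℂ) (ee θ))).congr (fun t => ?_) fun t => ?_ <;>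
      simp [XX, YY, mv, sg, ee_sub]
    ring
  · refine (TP.base (ee θ)).congr (fun t => ?_) fun t => ?_ <;> simp [XX, YY, mv, sg, ee_add]

theorem TP.yy (b : Bool) (θ : ZMod K) :
    TP 1 (fun t => YY (mv b θ t)) fun t => sg b * -XX (mv b θ t) := by
  cases b
  · refine (TP.base (I * (starRingEnd ℂ) (ee θ))).congr (fun t => ?_) fun t => ?_ <;>
      simp [XX, YY, mv, sg, ee_sub] <;> ring
  · refine (TP.base (-I * ee θ)).congr (fun t => ?_) fun t => ?_ <;>
      simp [XX, YY, mv, sg, ee_add]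
    all_goals ring

theorem TP.prob {D : ℕ} (hD : 1 ≤ D) {h h' : ZMod K → ℝ} (H : TP D h h') {ε : ℝ} (hε : 0 < ε)
    (hK : 1 ≤ ε * K) : 𝔼 t, (if |h t| < ε * |h' t| then (1 : ℝ) else 0) ≤ 10 * D ^ 2 * ε := by
  have hD1 : (1 : ℝ) ≤ D := by exact_mod_cast hD
  have hK0 : (0 : ℝ) < K := by exact_mod_cast NeZero.pos K
  by_cases hc : 1 ≤ 10 * D ^ 2 * ε
  · exact (expect_le univ_nonempty fun _ _ => by split_ifs <;> norm_num).trans hc
  obtain ⟨P, p1, p2, p3⟩ := H
  have n1 : ∀ t, |h t| = ‖P.eval (ee t)‖ := fun t => by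
    rw [← p2, norm_mul, norm_pow, norm_ee, one_pow, mul_one, Complex.norm_real, Real.norm_eq_abs]
  have n2 : ∀ t, |h' t| = ‖ee t * P.derivative.eval (ee t) - D * P.eval (ee t)‖ := fun t => by
    rw [← p3, norm_mul, norm_mul, norm_pow, norm_ee, one_pow, mul_one, Complex.norm_real,
      Real.norm_eq_abs, Complex.norm_I, one_mul]
  have hc2 : P.roots.card ≤ 2 * D := (card_roots' P).trans p1
  have key : ∀ t, |h t| < ε * |h' t| → ∃ r ∈ P.roots.toFinset, ‖ee t - r‖ < 4 * D * ε := by
    intro t ht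
    by_contra hno
    push Not at hno
    have hP : P ≠ 0 := by
      rintro rfl
      rw [n2] at ht
      simp only [derivative_zero, eval_zero, mul_zero, sub_zero, norm_zero] at ht
      exact absurd ht (not_lt.2 (abs_nonneg _))
    have h0 : P.eval (ee t) ≠ 0 := fun h0 => by
      have := hno _ (Multiset.mem_toFinset.2 ((mem_roots hP).2 h0))
      rw [sub_self, norm_zero] at this
      exact absurd this (not_le.2 (by positivity))
    have h1 := (IsAlgClosed.splits P).eval_derivative_div_eval_of_ne_zero h0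
    have h2 : ‖(P.roots.map fun z => 1 / (ee t - z)).sum‖ ≤ 2 * D * (1 / (4 * D * ε)) := by
      refine (norm_multiset_sum_le _).trans ((Multiset.sum_le_card_nsmul _ (1 / (4 * D * ε))
        fun x hx => ?_).trans ?_)
      · rw [Multiset.map_map] at hx
        obtain ⟨r, hr, rfl⟩ := Multiset.mem_map.1 hx
        rw [Function.comp, norm_div, norm_one]
        exact one_div_le_one_div_of_le (by positivity) (hno r (Multiset.mem_toFinset.2 hr))
      · rw [Multiset.card_map, Multiset.card_map, nsmul_eq_mul]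
        exact mul_le_mul_of_nonneg_right (by exact_mod_cast hc2) (by positivity)
    rw [← h1, norm_div, div_le_iff₀ (norm_pos_iff.2 h0)] at h2
    have h3 := norm_sub_le (ee t * P.derivative.eval (ee t)) (D * P.eval (ee t))
    rw [norm_mul, norm_mul, norm_ee, one_mul, Complex.norm_natCast, ← n2, ← n1] at h3
    rw [← n1] at h2
    have h4 : ε * (2 * D * (1 / (4 * D * ε))) = 1 / 2 := by
      field_simp
      norm_num
    have h5 : ε * D ≤ 1 / 2 := by nlinarith
    have h6 := mul_le_mul_of_nonneg_left (h3.trans (add_le_add h2 le_rfl)) hε.le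
    rw [mul_add, ← mul_assoc, h4, ← mul_assoc] at h6
    nlinarith [abs_nonneg (h t)]
  calc _ ≤ 𝔼 t, ∑ r ∈ P.roots.toFinset, (if ‖ee t - r‖ < 4 * D * ε then (1 : ℝ) else 0) := by
        refine expect_le_expect fun t _ => ?_
        split_ifs with ht
        · obtain ⟨r, hr, hr'⟩ := key t ht
          refine le_trans ?_ (single_le_sum
            (f := fun r => if ‖ee t - r‖ < 4 * D * ε then (1 : ℝ) else 0)
            (fun _ _ => by split_ifs <;> norm_num) hr)
          rw [if_pos hr']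
        · exact sum_nonneg fun _ _ => by split_ifs <;> norm_num
    _ ≤ 2 * D * (4 * D * ε + ε) := by
        rw [expect_sum_comm]
        refine (sum_le_card_nsmul _ _ (4 * D * ε + ε) fun r _ => (arc r (by positivity)).trans
          (add_le_add le_rfl ?_)).trans ?_
        · rw [div_le_iff₀ hK0]
          exact hK
        · rw [nsmul_eq_mul]
          refine mul_le_mul_of_nonneg_right ?_ (by positivity)
          exact_mod_cast (Multiset.toFinset_card_le _).trans hc2
    _ ≤ _ := by nlinarith [mul_pos hε (zero_lt_one.trans_le hD1)]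

theorem prob_YY {ε : ℝ} (hε : 0 < ε) (hK : 1 ≤ ε * K) :
    𝔼 t : ZMod K, (if YY t ^ 2 < ε ^ 2 then (1 : ℝ) else 0) ≤ 10 * ε := by
  by_cases hc : 1 ≤ ε
  · exact (expect_le (a := (1 : ℝ)) univ_nonempty fun _ _ => by
      split_ifs <;> norm_num).trans (by linarith)
  have := (TP.yy true (0 : ZMod K)).prob le_rfl hε hK
  simp only [mv, if_true, zero_add, sg, one_mul, abs_neg, Nat.cast_one, one_pow, mul_one] at this
  refine le_trans (expect_le_expect fun t _ => ?_) this
  split_ifs with c1 c2 <;> try norm_num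
  refine c2 (abs_lt_of_sq_lt_sq' ?_ (by positivity)).2
  rw [mul_pow, sq_abs, sq_abs]
  have h1 := XX_sq_add t
  have h2 : ε ^ 2 ≤ 1 := by nlinarith
  nlinarith [sq_nonneg ε]

end Pool.Agent.Lib.MP_21ae8a_lc
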