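import Pool.Agent.Lib.MP_21ae8a_lc.Defs

/-!
Walsh expansion on the discrete cube, functions of low degree, the Bonami inequality (adapted
from the file KKL of the library BushyIter) and a Paley-Zygmund bound.
-/

set_option autoImplicit false
set_option linter.unusedSectionVars false

namespace Pool.Agent.Lib.MP_21ae8a_lc

open Finset
open scoped BigOperators

variable {J : Type} [Fintype J] [DecidableEq J]

/-- Walsh functions. -/
def chi (S : Finset J) (x : J → Bool) : ℝ := ∏ j ∈ S, sg (x j)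

/-- Flipping one bit. -/
def fl (j : J) (x : J → Bool) : J → Bool := Function.update x j (!x j)

theorem sg_mul_self (b : Bool) : sg b * sg b = 1 := by cases b <;> simp [sg]

theorem sg_not (b : Bool) : sg (!b) = -sg b := by cases b <;> simp [sg]

theorem fl_fl (j : J) (x : J → Bool) : fl j (fl j x) = x := by simp [fl]

theorem expect_fl (j : J) (f : (J → Bool) → ℝ) : 𝔼 x, f (fl j x) = 𝔼 x, f x :=
  Fintype.expect_bijective (fl j) (Function.Involutive.bijective (fl_fl j)) _ _ fun _ => rfl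

theorem chi_fl_of_notMem {j : J} {S : Finset J} (h : j ∉ S) (x : J → Bool) :
    chi S (fl j x) = chi S x :=
  prod_congr rfl fun i hi => by rw [fl, Function.update_of_ne (ne_of_mem_of_not_mem hi h)]

theorem chi_insert {j : J} {S : Finset J} (h : j ∉ S) (x : J → Bool) :
    chi (insert j S) x = sg (x j) * chi S x := prod_insert h

theorem chi_fl_of_mem {j : J} {S : Finset J} (h : j ∈ S) (x : J → Bool) :
    chi S (fl j x) = -chi S x := by
  rw [← insert_erase h, chi_insert (notMem_erase j S), chi_insert (notMem_erase j S),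
    chi_fl_of_notMem (notMem_erase j S)]
  simp [fl, sg_not]

theorem expect_chi (S : Finset J) : 𝔼 x, chi S x = if S = ∅ then 1 else 0 := by
  split_ifs with h
  · subst h
    simp [chi]
  · obtain ⟨j, hj⟩ := nonempty_iff_ne_empty.2 h
    have := expect_fl j (chi S)
    simp only [chi_fl_of_mem hj, expect_neg_distrib] at this
    linarith

theorem chi_mul (S T : Finset J) (x : J → Bool) :
    chi S x * chi T x = chi (symmDiff S T) x := by
  have h1 : chi S x = chi (S \ T) x * chi (S ∩ T) x := by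
    rw [chi, chi, chi, ← prod_union (disjoint_sdiff_inter S T), sdiff_union_inter]
  have h2 : chi T x = chi (T \ S) x * chi (S ∩ T) x := by
    rw [chi, chi, chi, inter_comm, ← prod_union (disjoint_sdiff_inter T S), sdiff_union_inter]
  have h3 : chi (S ∩ T) x * chi (S ∩ T) x = 1 := by
    rw [chi, ← prod_mul_distrib]
    exact prod_eq_one fun j _ => sg_mul_self _
  have h4 : chi (symmDiff S T) x = chi (S \ T) x * chi (T \ S) x := by
    rw [symmDiff_def, sup_eq_union, chi, prod_union disjoint_sdiff_sdiff]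
    rfl
  rw [h1, h2, h4]
  linear_combination (chi (S \ T) x * chi (T \ S) x) * h3

theorem expect_chi_mul (S T : Finset J) :
    𝔼 x, chi S x * chi T x = if S = T then 1 else 0 := by
  simp only [chi_mul, expect_chi]
  have : symmDiff S T = ∅ ↔ S = T := by rw [← bot_eq_empty, symmDiff_eq_bot]
  simp only [this]

theorem expect_sq (a : Finset J → ℝ) :
    𝔼 x, (∑ S, a S * chi S x) ^ 2 = ∑ S, a S ^ 2 := by
  have : ∀ x, (∑ S, a S * chi S x) ^ 2 = ∑ S, ∑ T, a S * a T * (chi S x * chi T x) := fun x => by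
    rw [sq, sum_mul_sum]
    exact sum_congr rfl fun S _ => sum_congr rfl fun T _ => by ring
  simp only [this, expect_sum_comm, ← mul_expect, expect_chi_mul, mul_ite, mul_one, mul_zero,
    sum_ite_eq, mem_univ, if_true]
  exact sum_congr rfl fun S _ => by ring

theorem bonami_aux (U : Finset J) : ∀ a : Finset J → ℝ,
    𝔼 x, (∑ S ∈ U.powerset, a S * chi S x) ^ 4 ≤ (∑ S ∈ U.powerset, 3 ^ #S * a S ^ 2) ^ 2 := by
  induction U using Finset.induction_on with
  | empty => intro a; simp [chi, ← pow_mul]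
  | insert j U hj ih =>
    intro a
    have hS : ∀ S ∈ U.powerset, j ∉ S := fun S h h' => hj (mem_powerset.1 h h')
    set A : (J → Bool) → ℝ := fun x => ∑ S ∈ U.powerset, a S * chi S x with hA
    set B : (J → Bool) → ℝ := fun x => ∑ S ∈ U.powerset, a (insert j S) * chi S x with hB
    set α := ∑ S ∈ U.powerset, 3 ^ #S * a S ^ 2
    set β := ∑ S ∈ U.powerset, 3 ^ #S * a (insert j S) ^ 2 with hβ
    have h1 : 𝔼 x, A x ^ 4 ≤ α ^ 2 := ih a
    have h2 : 𝔼 x, B x ^ 4 ≤ β ^ 2 := ih fun S => a (insert j S)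
    have hα : 0 ≤ α := sum_nonneg fun _ _ => by positivity
    have hβ0 : 0 ≤ β := sum_nonneg fun _ _ => by positivity
    have hAf : ∀ x, A (fl j x) = A x := fun x =>
      sum_congr rfl fun S h => by rw [chi_fl_of_notMem (hS S h)]
    have hBf : ∀ x, B (fl j x) = B x := fun x =>
      sum_congr rfl fun S h => by rw [chi_fl_of_notMem (hS S h)]
    have e1 : ∀ x, ∑ S ∈ (insert j U).powerset, a S * chi S x = A x + sg (x j) * B x := fun x => by
      rw [sum_powerset_insert hj, hA, hB, mul_sum]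
      congr 1
      exact sum_congr rfl fun S h => by rw [chi_insert (hS S h)]; ring
    have e2 : ∑ S ∈ (insert j U).powerset, 3 ^ #S * a S ^ 2 = α + 3 * β := by
      rw [sum_powerset_insert hj, hβ, mul_sum]
      congr 1
      exact sum_congr rfl fun S h => by rw [card_insert_of_notMem (hS S h)]; ring
    have e3 : 𝔼 x, sg (x j) * (4 * A x ^ 3 * B x + 4 * A x * B x ^ 3) = 0 := by
      have := expect_fl j fun x => sg (x j) * (4 * A x ^ 3 * B x + 4 * A x * B x ^ 3)
      simp only [fl, Function.update_self, sg_not, neg_mul, expect_neg_distrib] at this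
      simp only [← fl.eq_1, hAf, hBf] at this
      linarith
    have e4 : ∀ x, (A x + sg (x j) * B x) ^ 4 = (A x ^ 4 + 6 * (A x ^ 2 * B x ^ 2) + B x ^ 4) +
        sg (x j) * (4 * A x ^ 3 * B x + 4 * A x * B x ^ 3) := fun x => by
      cases x j <;> simp [sg] <;> ring
    have h3 : 𝔼 x, A x ^ 2 * B x ^ 2 ≤ α * β := by
      have := expect_mul_sq_le_sq_mul_sq univ (fun x => A x ^ 2) fun x => B x ^ 2
      simp only [← pow_mul] at this
      refine (abs_le_of_sq_le_sq' (this.trans ?_) (mul_nonneg hα hβ0)).2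
      rw [mul_pow]
      exact mul_le_mul h1 h2 (expect_nonneg fun _ _ => Even.pow_nonneg (by decide) _)
        (by positivity)
    simp only [e1, e2, e4, expect_add_distrib, e3, ← mul_expect]
    nlinarith [sq_nonneg β]

/-- Functions of degree at most `D`. -/
def LD (D : ℕ) (f : (J → Bool) → ℝ) : Prop :=
  f ∈ Submodule.span ℝ ((fun S : Finset J => chi S) '' {S | #S ≤ D})

theorem LD.coeff {D : ℕ} {f : (J → Bool) → ℝ} (h : LD D f) :
    ∃ a : Finset J → ℝ, (∀ S, D < #S → a S = 0) ∧ ∀ x, f x = ∑ S, a S * chi S x := by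
  induction h using Submodule.span_induction with
  | mem g hg =>
    obtain ⟨S, hS, rfl⟩ := hg
    refine ⟨fun T => if T = S then 1 else 0, fun T hT => if_neg ?_, fun x => by simp⟩
    rintro rfl
    exact absurd hS (not_le.2 hT)
  | zero => exact ⟨0, fun _ _ => rfl, fun x => by simp⟩
  | add g h _ _ hg hh =>
    obtain ⟨a, ha, hga⟩ := hg
    obtain ⟨b, hb, hhb⟩ := hh
    refine ⟨a + b, fun S hS => by simp [ha S hS, hb S hS], fun x => ?_⟩
    simp [hga, hhb, add_mul, sum_add_distrib]
  | smul c g _ hg =>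
    obtain ⟨a, ha, hga⟩ := hg
    refine ⟨c • a, fun S hS => by simp [ha S hS], fun x => ?_⟩
    simp [hga, mul_sum, mul_assoc]

theorem LD.chi {D : ℕ} {S : Finset J} (h : #S ≤ D) : LD D (chi S) :=
  Submodule.subset_span ⟨S, h, rfl⟩

theorem LD.mono {D D' : ℕ} (h : D ≤ D') {f : (J → Bool) → ℝ} (hf : LD D f) : LD D' f :=
  Submodule.span_mono (Set.image_mono fun _ hS => le_trans hS h) hf

theorem LD.add {D : ℕ} {f g : (J → Bool) → ℝ} (hf : LD D f) (hg : LD D g) :
    LD D fun x => f x + g x := Submodule.add_mem _ hf hg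

theorem LD.cmul {D : ℕ} {f : (J → Bool) → ℝ} (c : ℝ) (hf : LD D f) :
    LD D fun x => c * f x := Submodule.smul_mem _ c hf

theorem LD.const (D : ℕ) (c : ℝ) : LD D fun _ : J → Bool => c := by
  have := (LD.chi (D := D) (S := (∅ : Finset J)) (by simp)).cmul c
  simpa [Pool.Agent.Lib.MP_21ae8a_lc.chi] using this

theorem LD.sum {D : ℕ} {ι : Type} (s : Finset ι) {f : ι → (J → Bool) → ℝ}
    (hf : ∀ i ∈ s, LD D (f i)) : LD D fun x => ∑ i ∈ s, f i x := by
  have := Submodule.sum_mem _ hf
  rwa [show (∑ i ∈ s, f i) = fun x => ∑ i ∈ s, f i x from funext fun x => sum_apply x s f] at this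

theorem LD.of_coeff {D : ℕ} {a : Finset J → ℝ} (ha : ∀ S, D < #S → a S = 0) :
    LD D fun x => ∑ S, a S * Pool.Agent.Lib.MP_21ae8a_lc.chi S x := by
  refine LD.sum _ fun S _ => ?_
  by_cases h : #S ≤ D
  · exact (LD.chi h).cmul _
  · simpa [ha S (not_le.1 h)] using LD.const (J := J) D 0

theorem LD.mul {D D' : ℕ} {f g : (J → Bool) → ℝ} (hf : LD D f) (hg : LD D' g) :
    LD (D + D') fun x => f x * g x := by
  obtain ⟨a, ha, hfa⟩ := hf.coeff
  obtain ⟨b, hb, hgb⟩ := hg.coeff
  have : (fun x => f x * g x) = fun x => ∑ S, ∑ T, a S * b T *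
      Pool.Agent.Lib.MP_21ae8a_lc.chi (symmDiff S T) x := by
    funext x
    rw [hfa, hgb, sum_mul_sum]
    exact sum_congr rfl fun S _ => sum_congr rfl fun T _ => by rw [← chi_mul]; ring
  rw [this]
  refine LD.sum _ fun S _ => LD.sum _ fun T _ => ?_
  by_cases h : #S ≤ D
  · by_cases h' : #T ≤ D'
    · refine (LD.chi ?_).cmul _
      calc #(symmDiff S T) ≤ #(S ∪ T) := card_le_card symmDiff_le_sup
        _ ≤ #S + #T := card_union_le _ _
        _ ≤ D + D' := add_le_add h h'
    · simpa [hb T (not_le.1 h')] using LD.const (J := J) (D + D') 0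
  · simpa [ha S (not_le.1 h)] using LD.const (J := J) (D + D') 0

theorem LD.prod {ι : Type} (s : Finset ι) {f : ι → (J → Bool) → ℝ} {D : ι → ℕ}
    (hf : ∀ i ∈ s, LD (D i) (f i)) : LD (∑ i ∈ s, D i) fun x => ∏ i ∈ s, f i x := by
  classical
  induction s using Finset.induction_on with
  | empty => simpa using LD.const (J := J) 0 1
  | insert i s hi ih =>
    simp only [sum_insert hi, prod_insert hi]
    exact (hf i (mem_insert_self _ _)).mul (ih fun j hj => hf j (mem_insert_of_mem hj))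

theorem LD.pow {D : ℕ} {f : (J → Bool) → ℝ} (hf : LD D f) (k : ℕ) :
    LD (k * D) fun x => f x ^ k := by
  simpa using LD.prod (range k) (f := fun _ => f) (D := fun _ => D) fun _ _ => hf

theorem LD.eval {ι : Type} {D D' : ℕ} {f : ι → (J → Bool) → ℝ} (hf : ∀ i, LD D' (f i))
    {p : MvPolynomial ι ℝ} (hp : p.totalDegree ≤ D) :
    LD (D * D') fun x => MvPolynomial.eval (fun i => f i x) p := by
  simp only [MvPolynomial.eval_eq]
  refine LD.sum _ fun e he => LD.cmul _ ?_
  refine (LD.prod e.support (D := fun i => e i * D') fun i _ => (hf i).pow _).mono ?_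
  rw [← sum_mul]
  exact Nat.mul_le_mul_right _ ((MvPolynomial.le_totalDegree he).trans hp)

theorem LD.ind (j : J) (b : Bool) : LD 1 fun x : J → Bool => if x j = b then (1 : ℝ) else 0 := by
  have h : (fun x : J → Bool => if x j = b then (1 : ℝ) else 0) =
      fun x => 1 / 2 + sg b / 2 * Pool.Agent.Lib.MP_21ae8a_lc.chi {j} x := by
    funext x
    cases hx : x j <;> cases b <;> simp [Pool.Agent.Lib.MP_21ae8a_lc.chi, sg, hx] <;> norm_num
  rw [h]
  exact (LD.const (J := J) 1 (1 / 2)).add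
    ((LD.chi (D := 1) (S := {j}) (by simp)).cmul (sg b / 2))

theorem LD.bonami {D : ℕ} {f : (J → Bool) → ℝ} (hf : LD D f) :
    𝔼 x, f x ^ 4 ≤ (3 ^ D * 𝔼 x, f x ^ 2) ^ 2 := by
  obtain ⟨a, ha, hfa⟩ := hf.coeff
  simp only [hfa, expect_sq]
  have := bonami_aux univ a
  rw [powerset_univ] at this
  refine this.trans (pow_le_pow_left₀ (sum_nonneg fun _ _ => by positivity) ?_ 2)
  rw [mul_sum]
  refine sum_le_sum fun S _ => ?_
  by_cases h : #S ≤ D
  · exact mul_le_mul_of_nonneg_right (pow_le_pow_right₀ (by norm_num) h) (sq_nonneg _)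
  · simp [ha S (not_le.1 h)]

/-- Paley-Zygmund. -/
theorem LD.paley {D : ℕ} {f : (J → Bool) → ℝ} (hf : LD D f) {v : ℝ} (hv : 𝔼 x, f x ^ 2 = v)
    (hpos : 0 < v) :
    𝔼 x, (if f x ^ 2 < v / 4 then (1 : ℝ) else 0) ≤ 1 - 1 / (2 * 9 ^ D) := by
  set P := 𝔼 x, (if f x ^ 2 < v / 4 then (0 : ℝ) else 1) with hP
  have e1 : 𝔼 x, (if f x ^ 2 < v / 4 then (1 : ℝ) else 0) = 1 - P := by
    rw [hP, ← Fintype.expect_const (ι := J → Bool) (1 : ℝ), ← expect_sub_distrib]
    refine expect_congr rfl fun x _ => ?_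
    simp only [Fintype.expect_const]
    split_ifs <;> norm_num
  have h1 : 3 / 4 * v ≤ 𝔼 x, f x ^ 2 * (if f x ^ 2 < v / 4 then (0 : ℝ) else 1) := by
    have : 𝔼 x, (f x ^ 2 - v / 4) ≤ 𝔼 x, f x ^ 2 * (if f x ^ 2 < v / 4 then (0 : ℝ) else 1) := by
      refine expect_le_expect fun x _ => ?_
      split_ifs <;> linarith
    rw [expect_sub_distrib, hv, Fintype.expect_const] at this
    linarith
  have h2 := expect_mul_sq_le_sq_mul_sq univ (fun x => f x ^ 2)
    fun x => if f x ^ 2 < v / 4 then (0 : ℝ) else 1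
  have e2 : 𝔼 x, (if f x ^ 2 < v / 4 then (0 : ℝ) else 1) ^ 2 = P :=
    expect_congr rfl fun x _ => by split_ifs <;> norm_num
  have h3 := hf.bonami
  rw [hv] at h3
  simp only [← pow_mul] at h2
  rw [e2] at h2
  have hP0 : 0 ≤ P := expect_nonneg fun x _ => by split_ifs <;> norm_num
  have h4 : (3 / 4 * v) ^ 2 ≤ (3 ^ D * v) ^ 2 * P :=
    (pow_le_pow_left₀ (by positivity) h1 2).trans (h2.trans (mul_le_mul_of_nonneg_right h3 hP0))
  have h9 : ((3 : ℝ) ^ D * v) ^ 2 = 9 ^ D * v ^ 2 := by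
    rw [mul_pow, ← pow_mul, mul_comm D 2, pow_mul]; norm_num
  rw [h9] at h4
  have h5 : 9 / 16 ≤ 9 ^ D * P := by
    have hv2 : 0 < v ^ 2 := by positivity
    nlinarith
  rw [e1]
  have : 1 / (2 * 9 ^ D) ≤ P := by
    rw [div_le_iff₀ (by positivity)]
    nlinarith
  linarith

end Pool.Agent.Lib.MP_21ae8a_lc
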